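import Pool.Agent.H16.FV.Stm

/-!
Copied from the starting library (`Q116/FF/Red`, `Q163/FL/Dom3`, `Q163/FL/Dom4`).
-/

set_option autoImplicit false
set_option linter.unusedSectionVars false

namespace Pool.Agent.H16.FV

open Finset Pool.Agent.TH362.TF Pool.Agent.TH362.TF.Four Q116.FF

variable {V E : Type} [Fintype V] [DecidableEq V] [DecidableEq E]

/-- no circuits of length two, three or four (loops are allowed) -/
structure Sm (s t : E → V) (S : Finset E) : Prop where
  par : ∀ a b e e', a ≠ b → e ∈ S → e' ∈ S → Ends s t a b e → Ends s t a b e' → e = e'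
  tri : ∀ a b c, a ≠ b → b ≠ c → c ≠ a → ∀ e1 ∈ S, ∀ e2 ∈ S, ∀ e3 ∈ S,
    Ends s t a b e1 → Ends s t b c e2 → Ends s t c a e3 → False
  quad : ∀ a b c d, a ≠ b → b ≠ c → c ≠ d → d ≠ a → a ≠ c → b ≠ d → ∀ e1 ∈ S, ∀ e2 ∈ S,
    ∀ e3 ∈ S, ∀ e4 ∈ S, Ends s t a b e1 → Ends s t b c e2 → Ends s t c d e3 → Ends s t d a e4 →
    False

/-- the number of edges which are not loops -/
def nl (s t : E → V) (S : Finset E) : ℕ := (S.filter (fun e => s e ≠ t e)).card

theorem nl_lt {s t : E → V} {S : Finset E} {T : Finset V} {a x y : V} {e : E} (he : e ∈ S)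
    (hxy : x ≠ y) (hx : x ∈ T) (hy : y ∈ T) (k : Ends s t x y e) :
    nl (fun e => mrg T a (s e)) (fun e => mrg T a (t e)) S < nl s t S := by
  unfold nl
  apply card_lt_card
  rw [Finset.ssubset_iff_of_subset]
  · refine ⟨e, ?_, ?_⟩
    · rw [mem_filter]
      refine ⟨he, ?_⟩
      rcases k with ⟨h1, h2⟩ | ⟨h1, h2⟩
      · rw [h1, h2]; exact hxy
      · rw [h1, h2]; exact hxy.symm
    · rw [mem_filter]
      rintro ⟨_, h⟩
      apply h
      have := ends_mem k hx hy
      show mrg T a (s e) = mrg T a (t e)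
      unfold mrg
      rw [if_pos this.1, if_pos this.2]
  · intro e' h
    rw [mem_filter] at h ⊢
    exact ⟨h.1, fun hc => h.2 (congrArg (mrg T a) hc)⟩

/-- the end of `e` different from `v` -/
def oth (s t : E → V) (v : V) (e : E) : V := if s e = v then t e else s e

theorem dbl (x : F) : x + x = 0 := by
  revert x; decide

theorem cut_ends {s t : E → V} {S : Finset E} {v : V} {e : E} :
    e ∈ cut s t S (fun u => decide (u = v)) ↔
      e ∈ S ∧ oth s t v e ≠ v ∧ Ends s t v (oth s t v e) e := by
  unfold cut oth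
  rw [mem_filter]
  by_cases h1 : s e = v
  · rw [if_pos h1]
    constructor
    · rintro ⟨h2, h3⟩
      refine ⟨h2, fun h4 => h3 (by rw [h1, h4]), Or.inl ⟨h1, rfl⟩⟩
    · rintro ⟨h2, h3, _⟩
      exact ⟨h2, fun h4 => h3 (by simpa [h1] using h4)⟩
  · rw [if_neg h1]
    constructor
    · rintro ⟨h2, h3⟩
      have h5 : t e = v := by
        by_contra h6
        exact h3 (by simp [h1, h6])
      exact ⟨h2, h1, Or.inr ⟨rfl, h5⟩⟩
    · rintro ⟨h2, h3, h4⟩
      refine ⟨h2, ?_⟩
      rcases h4 with ⟨h4, _⟩ | ⟨_, h4⟩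
      · exact absurd h4 h1
      · simp [h1, h4]

theorem cons_cut (s t : E → V) (S : Finset E) (φ : E → F) (v : V) :
    ∑ e ∈ S, ((if s e = v then φ e else 0) + (if t e = v then φ e else 0)) =
      ∑ e ∈ cut s t S (fun u => decide (u = v)), φ e := by
  unfold cut
  rw [sum_filter]
  refine sum_congr rfl fun e _ => ?_
  by_cases h1 : s e = v <;> by_cases h2 : t e = v
  · simp [h1, h2, dbl]
  · simp [h1, h2]
  · simp [h1, h2]
  · simp [h1, h2]

theorem nl_le (s t : E → V) (S : Finset E) (f : V → V) :
    nl (fun e => f (s e)) (fun e => f (t e)) S ≤ nl s t S := by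
  unfold nl
  apply card_le_card
  intro e he
  rw [mem_filter] at he ⊢
  exact ⟨he.1, fun hc => he.2 (congrArg f hc)⟩

theorem deg_two {s t : E → V} {S : Finset E} {u v : V} {e1 e2 : E} (huv : u ≠ v)
    (k1 : Ends s t v u e1) (hne : e1 ≠ e2)
    (hcut : cut s t S (fun x => decide (x = v)) = {e1, e2})
    (h : NZ (fun e => Q116.FF.mrg {u, v} u (s e)) (fun e => Q116.FF.mrg {u, v} u (t e)) S) :
    NZ s t S := by
  classical
  obtain ⟨φ, h1, h2⟩ := h
  have hout : ∀ w, w ∉ ({u, v} : Finset V) → B s t S φ w = 0 := fun w hw =>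
    Q116.FF.B_out (T := {u, v}) (a := u) (by simp) h2 hw
  have hin : ∑ w ∈ ({u, v} : Finset V), B s t S φ w = 0 :=
    Q116.FF.B_in (T := {u, v}) (a := u) (by simp) h2
  rw [sum_pair huv] at hin
  have he1 : e1 ∈ S := by
    have : e1 ∈ cut s t S (fun x => decide (x = v)) := by rw [hcut]; simp
    exact (cut_ends.1 this).1
  have he2 : e2 ∈ S := by
    have : e2 ∈ cut s t S (fun x => decide (x = v)) := by rw [hcut]; simp
    exact (cut_ends.1 this).1
  have hBv : B s t S φ v = φ e1 + φ e2 := by
    have h3 := cons_cut s t S φ v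
    rw [hcut, sum_pair hne] at h3
    exact h3
  set δ : F := φ e1 + φ e2 with hδ
  have hlin : ∀ w, B s t S (fun e => if e = e1 then φ e2 else φ e) w =
      B s t S φ w + ((if s e1 = w then δ else 0) + (if t e1 = w then δ else 0)) := by
    intro w
    have h4 : (if s e1 = w then δ else 0) + (if t e1 = w then δ else 0) =
        ∑ e ∈ S, (if e = e1 then ((if s e = w then δ else 0) + (if t e = w then δ else 0))
          else 0) := by
      rw [sum_ite_eq' S e1, if_pos he1]
    rw [h4]
    unfold B
    rw [← sum_add_distrib]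
    refine sum_congr rfl fun e _ => ?_
    by_cases he : e = e1
    · subst he
      beta_reduce
      rw [if_pos rfl, if_pos rfl]
      have h5 : φ e2 = φ e + δ := by
        rw [hδ, ← add_assoc, dbl, zero_add]
      rw [h5]
      split_ifs
      · abel
      · abel
      · abel
      · abel
    · beta_reduce
      rw [if_neg he, if_neg he, add_zero]
  have hends : ∀ w, (if s e1 = w then δ else 0) + (if t e1 = w then δ else 0) =
      (if v = w then δ else 0) + (if u = w then δ else 0) := by
    intro w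
    rcases k1 with ⟨a, b⟩ | ⟨a, b⟩
    · rw [a, b]
    · rw [a, b, add_comm]
  refine ⟨fun e => if e = e1 then φ e2 else φ e, fun e he => ?_, fun w => ?_⟩
  · beta_reduce
    split_ifs
    · exact h1 e2 he2
    · exact h1 e he
  · show B s t S (fun e => if e = e1 then φ e2 else φ e) w = 0
    rw [hlin, hends]
    by_cases hwv : v = w
    · subst hwv
      rw [if_pos rfl, if_neg huv, add_zero, hBv]
      exact dbl _
    · by_cases hwu : u = w
      · subst hwu
        rw [if_neg hwv, if_pos rfl, zero_add]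
        have h6 : B s t S φ u = δ := by
          have := Q116.FF.eq_of_addF hin
          rw [this, hBv]
        rw [h6]
        exact dbl _
      · rw [if_neg hwv, if_neg hwu, add_zero, add_zero]
        apply hout
        rw [mem_insert, mem_singleton]
        push Not
        exact ⟨Ne.symm hwu, Ne.symm hwv⟩

end Pool.Agent.H16.FV
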