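import Pool.Agent.H16.FV.Fin
import Mathlib.LinearAlgebra.Dual.Lemmas
import Mathlib.LinearAlgebra.Pi
import Mathlib.LinearAlgebra.Matrix.ToLin
import Mathlib.Data.Set.Card

/-!
Cographic 2-blocks.
-/

set_option autoImplicit false

namespace Pool.Agent.H16.FV

open Finset Pool.Agent.TH362.TF Pool.Agent.TH362.TF.Four Q116.FF

/-- The incidence vector of the vertex `v` over GF(2). -/
def star {V E : Type} [DecidableEq V] (src dst : E → V) (v : V) : E → ZMod 2 :=
  fun e => (if src e = v then 1 else 0) + (if dst e = v then 1 else 0)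

/-- The linear relations between the vectors `vec e` are exactly the elements of the cut space. -/
def RepCo {V E : Type} [DecidableEq V] [Fintype E] (src dst : E → V) {n : ℕ}
    (vec : E → Fin n → ZMod 2) : Prop :=
  ∀ x : E → ZMod 2, ∑ e, x e • vec e = 0 ↔
    x ∈ Submodule.span (ZMod 2) (Set.range (star src dst))

variable {V E : Type} [Fintype V] [DecidableEq V] [Fintype E] [DecidableEq E]

theorem cons_fst (s t : E → V) (φ : E → F) (v : V) :
    (∑ e, ((if s e = v then φ e else 0) + (if t e = v then φ e else 0))).1 =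
      ∑ e, (φ e).1 * star s t v e := by
  rw [Prod.fst_sum]
  refine sum_congr rfl fun e _ => ?_
  unfold star
  by_cases h1 : s e = v <;> by_cases h2 : t e = v <;> simp [h1, h2, mul_add]

theorem cons_snd (s t : E → V) (φ : E → F) (v : V) :
    (∑ e, ((if s e = v then φ e else 0) + (if t e = v then φ e else 0))).2 =
      ∑ e, (φ e).2 * star s t v e := by
  rw [Prod.snd_sum]
  refine sum_congr rfl fun e _ => ?_
  unfold star
  by_cases h1 : s e = v <;> by_cases h2 : t e = v <;> simp [h1, h2, mul_add]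

/-- a flow gives a linear map -/
theorem rep_map {s t : E → V} {n : ℕ} {vec : E → Fin n → ZMod 2} (hv : RepCo s t vec)
    {φ : E → F} (hφ : ∀ v, Cons s t univ φ v) :
    ∃ L : (Fin n → ZMod 2) →ₗ[ZMod 2] (Fin 2 → ZMod 2), ∀ e, L (vec e) 0 = (φ e).1 ∧
      L (vec e) 1 = (φ e).2 := by
  classical
  let ψ : (E → ZMod 2) →ₗ[ZMod 2] (Fin n → ZMod 2) := Fintype.linearCombination (ZMod 2) vec
  have hψ : ∀ x, ψ x = ∑ e, x e • vec e := fun x => Fintype.linearCombination_apply _ _ _
  have hfac : ∀ a : E → ZMod 2, (∀ v, ∑ e, a e * star s t v e = 0) →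
      ∃ G : (Fin n → ZMod 2) →ₗ[ZMod 2] ZMod 2, ∀ e, G (vec e) = a e := by
    intro a ha
    let f : (E → ZMod 2) →ₗ[ZMod 2] ZMod 2 := ∑ e, a e • LinearMap.proj e
    have hf : ∀ x, f x = ∑ e, a e * x e := by
      intro x
      simp [f, LinearMap.sum_apply]
    have h1 : f ∈ (LinearMap.ker ψ).dualAnnihilator := by
      rw [Submodule.mem_dualAnnihilator]
      intro w hw
      rw [LinearMap.mem_ker, hψ] at hw
      have hx2 := (hv w).mp hw
      have hle : Submodule.span (ZMod 2) (Set.range (star s t)) ≤ LinearMap.ker f := by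
        refine Submodule.span_le.mpr ?_
        rintro _ ⟨v, rfl⟩
        simp only [SetLike.mem_coe, LinearMap.mem_ker]
        rw [hf]
        exact ha v
      exact hle hx2
    rw [← LinearMap.range_dualMap_eq_dualAnnihilator_ker] at h1
    obtain ⟨G, hG⟩ := h1
    refine ⟨G, fun e => ?_⟩
    have h2 : ψ (Pi.single e 1) = vec e := by
      rw [hψ, Finset.sum_eq_single e]
      · simp
      · intro b _ hb
        rw [Pi.single_eq_of_ne hb, zero_smul]
      · intro h; exact absurd (Finset.mem_univ e) h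
    have h3 : G (ψ (Pi.single e 1)) = f (Pi.single e 1) := by rw [← hG]; rfl
    rw [h2, hf, Finset.sum_eq_single e] at h3
    · rw [h3, Pi.single_eq_same, mul_one]
    · intro b _ hb
      rw [Pi.single_eq_of_ne hb, mul_zero]
    · intro h; exact absurd (Finset.mem_univ e) h
  obtain ⟨G1, hG1⟩ := hfac (fun e => (φ e).1) (fun v => by
    rw [← cons_fst s t φ v, hφ v]; rfl)
  obtain ⟨G2, hG2⟩ := hfac (fun e => (φ e).2) (fun v => by
    rw [← cons_snd s t φ v, hφ v]; rfl)
  refine ⟨LinearMap.pi ![G1, G2], fun e => ⟨?_, ?_⟩⟩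
  · rw [← hG1 e]; rfl
  · rw [← hG2 e]; rfl

/-- a linear map gives a flow -/
theorem rep_flow {s t : E → V} {n : ℕ} {vec : E → Fin n → ZMod 2} (hv : RepCo s t vec)
    (L : (Fin n → ZMod 2) →ₗ[ZMod 2] (Fin 2 → ZMod 2)) (v : V) :
    Cons s t univ (fun e => (L (vec e) 0, L (vec e) 1)) v := by
  have h1 := (hv (star s t v)).2 (Submodule.subset_span ⟨v, rfl⟩)
  have h2 := congrArg L h1
  rw [map_sum, map_zero] at h2
  have h3 : ∀ i, ∑ e, L (vec e) i * star s t v e = 0 := by
    intro i
    have h4 := congrFun h2 i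
    rw [Finset.sum_apply, Pi.zero_apply] at h4
    rw [← h4]
    refine sum_congr rfl fun e _ => ?_
    rw [map_smul, Pi.smul_apply, smul_eq_mul, mul_comm]
  unfold Cons
  apply Prod.ext
  · rw [cons_fst]
    exact h3 0
  · rw [cons_snd]
    exact h3 1

/-- there are no isthmuses if no vector is zero -/
theorem rep_ni {s t : E → V} {n : ℕ} {vec : E → Fin n → ZMod 2} (hv : RepCo s t vec)
    (h0 : ∀ e, vec e ≠ 0) : Ni s t := by
  apply ni_of_n1
  intro x hx
  obtain ⟨a, ha⟩ := card_eq_one.1 hx
  have h1 : ∀ e, (∑ v ∈ univ.filter (fun v => x v = true), star s t v) e =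
      if e = a then 1 else 0 := by
    intro e
    rw [Finset.sum_apply]
    unfold star
    rw [sum_add_distrib, sum_ite_eq, sum_ite_eq]
    simp only [mem_filter, mem_univ, true_and]
    have h2 : e ∈ cut s t univ x ↔ e = a := by rw [ha, mem_singleton]
    unfold cut at h2
    rw [mem_filter] at h2
    by_cases he : e = a
    · have h3 := (h2.2 he).2
      rw [if_pos he]
      revert h3
      cases x (s e) <;> cases x (t e) <;> simp
    · have h3 : ¬ x (s e) ≠ x (t e) := fun h => he (h2.1 ⟨mem_univ _, h⟩)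
      rw [if_neg he]
      revert h3
      cases x (s e) <;> cases x (t e) <;> simp
      decide
  have h2 : (∑ v ∈ univ.filter (fun v => x v = true), star s t v) ∈
      Submodule.span (ZMod 2) (Set.range (star s t)) :=
    Submodule.sum_mem _ fun v _ => Submodule.subset_span ⟨v, rfl⟩
  have h3 := (hv _).2 h2
  simp only [h1] at h3
  apply h0 a
  simpa using h3

/-- the number of the edges of a simple graph -/
theorem edges_le {s t : E → V} (h : Rdu s t)  {N : ℕ}
    (hN : (univ.filter (fun v => (lnk s t v).Nonempty)).card ≤ N) :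
    (univ.filter (fun e => s e ≠ t e)).card ≤ N.choose 2 := by
  classical
  refine le_trans ?_ (Nat.choose_le_choose 2 hN)
  rw [← card_powersetCard]
  refine card_le_card_of_injOn (fun e => {s e, t e}) ?_ ?_
  · intro e he
    rw [mem_coe, mem_filter] at he
    rw [mem_coe, mem_powersetCard]
    refine ⟨?_, card_pair he.2⟩
    intro v hv
    rw [mem_insert, mem_singleton] at hv
    rw [mem_filter]
    refine ⟨mem_univ _, e, ?_⟩
    unfold lnk
    rw [mem_filter]
    rcases hv with rfl | rfl
    · exact ⟨mem_univ _, Or.inl ⟨rfl, fun h => he.2 h.symm⟩⟩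
    · exact ⟨mem_univ _, Or.inr ⟨he.2, rfl⟩⟩
  · intro e he e' he' hee
    rw [mem_coe, mem_filter] at he he'
    by_contra hne
    have h1 : Ends s t (s e) (t e) e' := by
      have hs : s e' ∈ ({s e, t e} : Finset V) := by
        show s e' ∈ (fun e => ({s e, t e} : Finset V)) e
        rw [hee]; simp
      have ht : t e' ∈ ({s e, t e} : Finset V) := by
        show t e' ∈ (fun e => ({s e, t e} : Finset V)) e
        rw [hee]; simp
      rw [mem_insert, mem_singleton] at hs ht
      rcases hs with hs | hs <;> rcases ht with ht | ht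
      · exact absurd (hs.trans ht.symm) he'.2
      · exact Or.inl ⟨hs, ht⟩
      · exact Or.inr ⟨hs, ht⟩
      · exact absurd (hs.trans ht.symm) he'.2
    have h2 := h.girth {e, e'} ⟨e, by simp⟩ ?_ ?_
    · rw [card_pair hne] at h2
      omega
    · intro v
      unfold dg
      rw [sum_pair hne, dg_ends (Or.inl ⟨rfl, rfl⟩ : Ends s t (s e) (t e) e), dg_ends h1,
        ← two_mul]
      exact even_two_mul _
    · intro x hx
      rw [mem_insert, mem_singleton] at hx
      rcases hx with rfl | rfl
      · exact he.2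
      · exact he'.2

theorem block {s t : E → V} {n : ℕ} {vec : E → Fin n → ZMod 2} (hv : RepCo s t vec)
    {S : Set (Fin n → ZMod 2)} (hS : Set.range vec = S) (h0 : (0 : Fin n → ZMod 2) ∉ S)
    (hL : ¬ ∃ L : (Fin n → ZMod 2) →ₗ[ZMod 2] (Fin 2 → ZMod 2), ∀ s ∈ S, L s ≠ 0)
    {k : ℕ} {X : Finset V} (hX : X.card ≤ k) (hM : Mt s t X) :
    ∃ T ⊆ S, T.Finite ∧ T.ncard ≤ (Bd k).choose 2 ∧
      ¬ ∃ L : (Fin n → ZMod 2) →ₗ[ZMod 2] (Fin 2 → ZMod 2), ∀ s ∈ T, L s ≠ 0 := by
  classical
  have hz : ∀ e, vec e ≠ 0 := fun e he => h0 (hS ▸ ⟨e, he⟩)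
  obtain ⟨f, _, h2, _, h4, h5, _⟩ := kernel (rep_ni hv hz) hX hM
  have hnz : ¬ NZ (fun e => f (s e)) (fun e => f (t e)) univ := by
    intro h
    rw [← tc_iff, h2, tc_iff] at h
    obtain ⟨φ, h6, h7⟩ := h
    obtain ⟨L, hL'⟩ := rep_map hv h7
    apply hL
    refine ⟨L, ?_⟩
    rw [← hS]
    rintro _ ⟨e, rfl⟩ h8
    apply h6 e (mem_univ e)
    rw [Prod.ext_iff, ← (hL' e).1, ← (hL' e).2, h8]
    exact ⟨rfl, rfl⟩
  set Q : Finset (Fin n → ZMod 2) := (univ.filter (fun e => f (s e) ≠ f (t e))).image vec with hQ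
  refine ⟨(Q : Set (Fin n → ZMod 2)), ?_, Q.finite_toSet, ?_, ?_⟩
  · intro y hy
    rw [mem_coe, hQ] at hy
    obtain ⟨e, _, rfl⟩ := mem_image.1 hy
    rw [← hS]
    exact ⟨e, rfl⟩
  · rw [Set.ncard_coe_finset]
    exact card_image_le.trans (edges_le h4 h5)
  · rintro ⟨L, hL1⟩
    apply hnz
    refine ⟨fun e => if f (s e) = f (t e) then (1, 0) else (L (vec e) 0, L (vec e) 1), ?_, ?_⟩
    · intro e _
      dsimp only
      split_ifs with h
      · decide
      · intro h6
        rw [Prod.mk_eq_zero] at h6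
        apply hL1 (vec e)
        · rw [mem_coe, hQ]
          exact mem_image_of_mem vec (mem_filter.2 ⟨mem_univ _, h⟩)
        · funext i
          fin_cases i
          · exact h6.1
          · exact h6.2
    · intro v
      have h7 : Cons (fun e => f (s e)) (fun e => f (t e)) univ
          (fun e => (L (vec e) 0, L (vec e) 1)) v := by
        show B (fun e => f (s e)) (fun e => f (t e)) univ _ v = 0
        rw [B_quot]
        exact sum_eq_zero fun u _ => rep_flow hv L u
      unfold Cons at h7 ⊢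
      refine Eq.trans (sum_congr rfl fun e _ => ?_) h7
      dsimp only
      by_cases h : f (s e) = f (t e)
      · have key : ∀ x : F, ((if f (s e) = v then x else 0) + (if f (t e) = v then x else 0)) = 0 := by
          intro x
          by_cases h8 : f (s e) = v
          · rw [if_pos h8, if_pos (h.symm.trans h8), dbl]
          · rw [if_neg h8, if_neg (fun h9 => h8 (h.trans h9)), add_zero]
        exact (key _).trans (key _).symm
      · rw [if_neg h]

end Pool.Agent.H16.FV
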