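import Pool.Agent.H16.FV.Stm

/-!
Counting by chains (stub FV-CHAIN).
-/

set_option autoImplicit false

namespace Pool.Agent.H16.FV

open Finset

theorem chain : S_CHAIN := by
  intro V _ N p m g hinj hm hg
  classical
  let Nj : ℕ → Finset V := fun j => N.filter (fun v => (∀ i, i ≤ j → p^[i] v ∈ N) ∧ p^[j + 1] v ∉ N)
  have hmem : ∀ j v, v ∈ Nj j ↔ v ∈ N ∧ (∀ i, i ≤ j → p^[i] v ∈ N) ∧ p^[j + 1] v ∉ N := by
    intro j v
    show v ∈ N.filter _ ↔ _
    rw [mem_filter]
  have hcard : ∀ j, (Nj j).card ≤ m := by
    intro j
    induction j with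
    | zero =>
      refine le_trans (card_le_card ?_) hm
      intro v hv
      rw [hmem] at hv
      rw [mem_filter]
      refine ⟨hv.1, ?_⟩
      simpa using hv.2.2
    | succ j ih =>
      refine le_trans ?_ ih
      apply card_le_card_of_injOn p
      · intro v hv
        have hv' := (hmem _ _).1 (mem_coe.1 hv)
        refine mem_coe.2 ((hmem _ _).2 ⟨?_, ?_, ?_⟩)
        · have := hv'.2.1 1 (by omega)
          simpa using this
        · intro i hi
          have := hv'.2.1 (i + 1) (by omega)
          rwa [Function.iterate_succ_apply] at this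
        · have := hv'.2.2
          rwa [Function.iterate_succ_apply] at this
      · intro u hu w hw huw
        have hu' := (hmem _ _).1 (mem_coe.1 hu)
        have hw' := (hmem _ _).1 (mem_coe.1 hw)
        have h1 : p u ∈ N := by
          have := hu'.2.1 1 (by omega)
          simpa using this
        exact hinj u hu'.1 w hw'.1 h1 huw
  have hsub : N ⊆ (range g).biUnion Nj := by
    intro v hv
    have h1 : ∃ j, j ≤ g ∧ p^[j] v ∉ N := by
      have := hg v
      push Not at this
      exact this
    have h2 : ∃ j, p^[j] v ∉ N := ⟨h1.choose, h1.choose_spec.2⟩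
    obtain ⟨j1, hj1, hj1'⟩ := h1
    have h3 : Nat.find h2 ≤ g := le_trans (Nat.find_min' h2 hj1') hj1
    have h4 := Nat.find_spec h2
    have h5 : Nat.find h2 ≠ 0 := by
      intro h6
      rw [h6] at h4
      exact h4 hv
    rw [mem_biUnion]
    refine ⟨Nat.find h2 - 1, ?_, ?_⟩
    · rw [mem_range]; omega
    · rw [hmem]
      refine ⟨hv, ?_, ?_⟩
      · intro i hi
        have := Nat.find_min h2 (m := i) (by omega)
        push Not at this
        exact this
      · rw [Nat.sub_add_cancel (by omega)]
        exact h4
  calc N.card ≤ ((range g).biUnion Nj).card := card_le_card hsub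
    _ ≤ ∑ j ∈ range g, (Nj j).card := card_biUnion_le
    _ ≤ ∑ j ∈ range g, m := sum_le_sum (fun j _ => hcard j)
    _ = m * g := by rw [sum_const, card_range, smul_eq_mul, Nat.mul_comm]

end Pool.Agent.H16.FV
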