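import Pool.Agent.H16.FV.Stm

/-!
Orientation of the forest outside of `X` (stub FV-ORI).
-/

set_option autoImplicit false

namespace Pool.Agent.H16.FV

open Finset Pool.Agent.TH362.TF Pool.Agent.TH362.TF.Four

theorem ori_aux {V E : Type} [DecidableEq V] [DecidableEq E] (s t : E → V)
    (S : Finset E) (X : Finset V) (hF : Fb s t S X) :
    ∀ (n : ℕ) (D : Finset E), D.card = n → D ⊆ S →
      (∀ e ∈ D, s e ≠ t e ∧ s e ∉ X ∧ t e ∉ X) →
      ∃ (c p : E → V) (r : V → ℕ),
        (∀ e ∈ D, Ends s t (c e) (p e) e ∧ r (c e) < r (p e)) ∧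
        ∀ e ∈ D, ∀ e' ∈ D, c e = c e' → e = e' := by
  intro n
  induction n with
  | zero =>
    intro D hD _ _
    rw [card_eq_zero] at hD
    subst hD
    exact ⟨s, t, fun _ => 0, by simp, by simp⟩
  | succ n ih =>
    intro D hD hDS hDX
    have hne : D.Nonempty := card_pos.1 (by omega)
    obtain ⟨v, hv⟩ := hF D hDS hne hDX
    have h1 : ∑ e ∈ D, ((if s e = v then 1 else 0) + (if t e = v then 1 else 0)) ≠ 0 := by
      rw [hv]; exact one_ne_zero
    obtain ⟨e, he, hte⟩ := exists_ne_zero_of_sum_ne_zero h1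
    rw [← add_sum_erase D _ he] at hv
    have h2 : ∑ e' ∈ D.erase e, ((if s e' = v then 1 else 0) + (if t e' = v then 1 else 0)) = 0 := by
      omega
    rw [sum_eq_zero_iff] at h2
    have h3 : ∀ e' ∈ D.erase e, s e' ≠ v ∧ t e' ≠ v := by
      intro e' he'
      have := h2 e' he'
      constructor
      · intro h; rw [if_pos h] at this; omega
      · intro h; rw [if_pos h] at this; omega
    obtain ⟨c, p, r, hc1, hc2⟩ := ih (D.erase e) (by rw [card_erase_of_mem he]; omega)
      ((erase_subset _ _).trans hDS) (fun e' he' => hDX e' (erase_subset _ _ he'))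
    have hcp : ∀ e' ∈ D.erase e, c e' ≠ v ∧ p e' ≠ v := by
      intro e' he'
      have h4 := h3 e' he'
      rcases (hc1 e' he').1 with ⟨h5, h6⟩ | ⟨h5, h6⟩
      · rw [← h5, ← h6]; exact h4
      · rw [← h5, ← h6]; exact ⟨h4.2, h4.1⟩
    obtain ⟨u, hu, huv⟩ : ∃ u, Ends s t v u e ∧ u ≠ v := by
      by_cases h4 : s e = v
      · exact ⟨t e, Or.inl ⟨h4, rfl⟩, fun h5 => (hDX e he).1 (h4.trans h5.symm)⟩
      · have h5 : t e = v := by
          by_contra h5
          rw [if_neg h4, if_neg h5] at hte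
          exact hte rfl
        exact ⟨s e, Or.inr ⟨rfl, h5⟩, h4⟩
    refine ⟨fun e' => if e' = e then v else c e', fun e' => if e' = e then u else p e',
      fun w => if w = v then 0 else r w + 1, ?_, ?_⟩
    · intro e' he'
      by_cases h4 : e' = e
      · subst h4
        simp only [if_true, if_neg huv]
        exact ⟨hu, Nat.succ_pos _⟩
      · have h5 : e' ∈ D.erase e := mem_erase.2 ⟨h4, he'⟩
        simp only [if_neg h4, if_neg (hcp e' h5).1, if_neg (hcp e' h5).2]
        exact ⟨(hc1 e' h5).1, Nat.succ_lt_succ (hc1 e' h5).2⟩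
    · intro e1 he1 e2 he2 h
      by_cases h4 : e1 = e
      · by_cases h5 : e2 = e
        · rw [h4, h5]
        · simp only [if_pos h4, if_neg h5] at h
          exact absurd h.symm (hcp e2 (mem_erase.2 ⟨h5, he2⟩)).1
      · by_cases h5 : e2 = e
        · simp only [if_neg h4, if_pos h5] at h
          exact absurd h (hcp e1 (mem_erase.2 ⟨h4, he1⟩)).1
        · simp only [if_neg h4, if_neg h5] at h
          exact hc2 e1 (mem_erase.2 ⟨h4, he1⟩) e2 (mem_erase.2 ⟨h5, he2⟩) h

theorem ori : S_ORI := by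
  intro V E _ _ _ s t S X hF
  obtain ⟨c, p, r, h1, h2⟩ := ori_aux s t S X hF _
    (S.filter (fun e => s e ≠ t e ∧ s e ∉ X ∧ t e ∉ X)) rfl (filter_subset _ _)
    (fun e he => (mem_filter.1 he).2)
  refine ⟨c, p, r, fun e he h3 h4 h5 => h1 e (mem_filter.2 ⟨he, h3, h4, h5⟩),
    fun e he h3 h4 h5 e' he' h3' h4' h5' h => h2 e (mem_filter.2 ⟨he, h3, h4, h5⟩) e'
      (mem_filter.2 ⟨he', h3', h4', h5'⟩) h⟩

end Pool.Agent.H16.FV
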