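import Pool.Agent.H16.FV.Stm

/-! # Project FV, stub FV-PIG (helper82) -/

set_option autoImplicit false

namespace Pool.Agent.H16.FV

open Finset Pool.Agent.TH362.TF Pool.Agent.TH362.TF.Four

theorem pig : S_PIG := by
  intro V _ l M r
  induction r with
  | zero =>
    intro i n _ hc hn
    exfalso
    simp only [G] at hn
    have h1 : (Ico i (i + n - 1)).image (ty l) = ∅ := Finset.card_eq_zero.1 (Nat.le_zero.1 hc)
    rw [Finset.image_eq_empty] at h1
    have h2 : i ∈ Ico i (i + n - 1) := Finset.mem_Ico.2 ⟨le_rfl, by omega⟩
    rw [h1] at h2
    simp at h2
  | succ r ih =>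
    intro i n hM hc hn
    simp only [G] at hn
    set L : ℕ := G M r + 1 with hL
    have hML : M * L < n := hn
    have h1L : 1 ≤ L := by omega
    have h1ML : 1 ≤ M * L := Nat.mul_pos hM h1L
    by_cases hall : ∀ m ∈ Ico i (i + n - 1),
        M ≤ ((Ico i (i + n - 1)).filter (fun j => ty l j = ty l m)).card
    · exact ⟨i, n, le_rfl, le_rfl, by omega, hall⟩
    · push Not at hall
      obtain ⟨m0, hm0, hlt⟩ := hall
      have hblock : ∀ b, b < M → i + b * L + L ≤ i + n - 1 := by
        intro b hb
        have h2 : (b + 1) * L ≤ M * L := Nat.mul_le_mul_right L hb
        have h3 : (b + 1) * L = b * L + L := by ring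
        omega
      have hex : ∃ b, b < M ∧ ∀ m ∈ Ico (i + b * L) (i + b * L + L - 1), ty l m ≠ ty l m0 := by
        by_contra hcon
        push Not at hcon
        choose! f hf1 hf2 using hcon
        have hle : M ≤ ((Ico i (i + n - 1)).filter (fun j => ty l j = ty l m0)).card := by
          calc M = (range M).card := (Finset.card_range M).symm
            _ ≤ _ := by
              refine Finset.card_le_card_of_injOn f ?_ ?_
              · intro b hb
                have hb' : b < M := by simpa using hb
                have h2 := Finset.mem_Ico.1 (hf1 b hb')
                have h3 := hblock b hb'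
                simp only [Finset.coe_filter, Finset.mem_Ico, Set.mem_ofPred_eq]
                refine ⟨⟨?_, by omega⟩, hf2 b hb'⟩
                have : i ≤ i + b * L := Nat.le_add_right _ _
                omega
              · intro b hb b' hb' hbb
                have hb1 : b < M := by simpa using hb
                have hb2 : b' < M := by simpa using hb'
                have h2 := Finset.mem_Ico.1 (hf1 b hb1)
                have h3 := Finset.mem_Ico.1 (hf1 b' hb2)
                by_contra hne
                rcases lt_or_gt_of_ne hne with h | h
                · have h4 : (b + 1) * L ≤ b' * L := Nat.mul_le_mul_right L h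
                  have h5 : (b + 1) * L = b * L + L := by ring
                  omega
                · have h4 : (b' + 1) * L ≤ b * L := Nat.mul_le_mul_right L h
                  have h5 : (b' + 1) * L = b' * L + L := by ring
                  omega
        omega
      obtain ⟨b, hb, hbne⟩ := hex
      have h3 := hblock b hb
      have hsub : (Ico (i + b * L) (i + b * L + L - 1)).image (ty l) ⊆
          ((Ico i (i + n - 1)).image (ty l)).erase (ty l m0) := by
        intro P hP
        obtain ⟨m, hm, rfl⟩ := Finset.mem_image.1 hP
        refine Finset.mem_erase.2 ⟨hbne m hm, Finset.mem_image_of_mem _ ?_⟩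
        have h4 := Finset.mem_Ico.1 hm
        refine Finset.mem_Ico.2 ⟨?_, by omega⟩
        have : i ≤ i + b * L := Nat.le_add_right _ _
        omega
      have hcard : ((Ico (i + b * L) (i + b * L + L - 1)).image (ty l)).card ≤ r := by
        have h4 := Finset.card_le_card hsub
        rw [Finset.card_erase_of_mem (Finset.mem_image_of_mem _ hm0)] at h4
        omega
      obtain ⟨i', n', g1, g2, g3, g4⟩ := ih (i + b * L) L hM hcard (by omega)
      refine ⟨i', n', ?_, ?_, g3, g4⟩
      · have : i ≤ i + b * L := Nat.le_add_right _ _
        omega
      · omega

end Pool.Agent.H16.FV
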