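import Pool.Agent.H16.FV.Pth
import Pool.Agent.H16.FV.Chain
import Pool.Agent.H16.FV.Ori
import Pool.Agent.H16.FV.Pig
import Mathlib.Data.Finset.Sym
import Mathlib.Data.Sym.Card

/-!
The number of the vertices of a reduced graph.
-/

set_option autoImplicit false

namespace Pool.Agent.H16.FV

open Finset Pool.Agent.TH362.TF Pool.Agent.TH362.TF.Four Q116.FF

variable {V E : Type} [Fintype V] [DecidableEq V] [DecidableEq E]

/-- a reduced graph -/
structure Rd (s t : E → V) (S : Finset E) (X : Finset V) : Prop where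
  par : ∀ a b e e', a ≠ b → e ∈ S → e' ∈ S → Ends s t a b e → Ends s t a b e' → e = e'
  quad : ∀ a b c d, a ≠ b → b ≠ c → c ≠ d → d ≠ a → a ≠ c → b ≠ d → ∀ e1 ∈ S, ∀ e2 ∈ S,
    ∀ e3 ∈ S, ∀ e4 ∈ S, Ends s t a b e1 → Ends s t b c e2 → Ends s t c d e3 → Ends s t d a e4 →
    False
  deg : ∀ v, (cut s t S (fun u => decide (u = v))).Nonempty →
    3 ≤ (cut s t S (fun u => decide (u = v))).card
  fb : Fb s t S X
  path : ∀ n v x c d, Pa s t S n v x c d → (∀ m, m < n → x m ∈ X) → WalkSum n x → False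

/-- the number of occurrences which are needed -/
def Mq (q : ℕ) : ℕ := 14 * q + 8

theorem shift_card {V : Type} [DecidableEq V] (l : ℕ → V) (i' n' m : ℕ) :
    ((Ico i' (i' + n' - 1)).filter (fun j => ty l j = ty l (i' + m))).card ≤
      ((range (n' - 1)).filter (fun i => ty (fun m => l (i' + m)) i =
        ty (fun m => l (i' + m)) m)).card := by
  refine card_le_card_of_injOn (fun j => j - i') ?_ ?_
  · intro j hj
    rw [mem_coe, mem_filter, mem_Ico] at hj
    show j - i' ∈ ((range (n' - 1)).filter (fun i => ty (fun m => l (i' + m)) i =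
        ty (fun m => l (i' + m)) m) : Set ℕ)
    rw [mem_coe, mem_filter, mem_range]
    have h1 : i' + (j - i') = j := by omega
    refine ⟨by omega, ?_⟩
    have h2 := hj.2
    unfold ty at h2 ⊢
    show s(l (i' + (j - i')), l (i' + (j - i' + 1))) = s(l (i' + m), l (i' + (m + 1)))
    rw [← add_assoc, ← add_assoc, h1]
    exact h2
  · intro a ha b hb hab
    rw [mem_coe, mem_filter, mem_Ico] at ha hb
    have hab' : a - i' = b - i' := hab
    omega

theorem Rd.count (lemw : S_LEMW) {s t : E → V} {S : Finset E} {X : Finset V} (h : Rd s t S X)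
    {k : ℕ} (hX : X.card ≤ k) :
    (univ.filter (fun v => (cut s t S (fun u => decide (u = v))).Nonempty)).card ≤
      k + 2 * k.choose 2 * (G (Mq ((k + 1).choose 2)) ((k + 1).choose 2) + 1) := by
  classical
  obtain ⟨c, p, r, hcp, hinj⟩ := ori V E s t S X h.fb
  set D := S.filter (fun e => s e ≠ t e ∧ s e ∉ X ∧ t e ∉ X) with hD
  have mD : ∀ e, e ∈ D ↔ e ∈ S ∧ s e ≠ t e ∧ s e ∉ X ∧ t e ∉ X := fun e => by
    rw [hD, mem_filter]
  have hE : ∀ e ∈ D, Ends s t (c e) (p e) e ∧ r (c e) < r (p e) := fun e he => by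
    obtain ⟨h1, h2, h3, h4⟩ := (mD e).1 he
    exact hcp e h1 h2 h3 h4
  have hI : ∀ e ∈ D, ∀ e' ∈ D, c e = c e' → e = e' := fun e he e' he' => by
    obtain ⟨h1, h2, h3, h4⟩ := (mD e).1 he
    obtain ⟨h1', h2', h3', h4'⟩ := (mD e').1 he'
    exact hinj e h1 h2 h3 h4 e' h1' h2' h3' h4'
  have hcne : ∀ e ∈ D, c e ≠ p e := fun e he hc => by
    have := (hE e he).2
    rw [hc] at this
    exact lt_irrefl _ this
  have hcX : ∀ e ∈ D, c e ∉ X ∧ p e ∉ X := fun e he => by
    obtain ⟨h1, h2, h3, h4⟩ := (mD e).1 he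
    rcases (hE e he).1 with ⟨k1, k2⟩ | ⟨k1, k2⟩
    · exact ⟨k1 ▸ h3, k2 ▸ h4⟩
    · exact ⟨k2 ▸ h4, k1 ▸ h3⟩
  set U : V → Finset E := fun v => D.filter (fun e => c e = v) with hU
  set Dn : V → Finset E := fun v => D.filter (fun e => p e = v) with hDn
  set L : V → Finset E := fun v => S.filter (fun e => ∃ x ∈ X, Ends s t v x e) with hL
  have mU : ∀ v e, e ∈ U v ↔ e ∈ D ∧ c e = v := fun v e => by rw [hU]; exact mem_filter
  have mDn : ∀ v e, e ∈ Dn v ↔ e ∈ D ∧ p e = v := fun v e => by rw [hDn]; exact mem_filter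
  have mL : ∀ v e, e ∈ L v ↔ e ∈ S ∧ ∃ x ∈ X, Ends s t v x e := fun v e => by
    rw [hL]; exact mem_filter
  set cv : V → Finset E := fun v => cut s t S (fun u => decide (u = v)) with hcv
  have mcv : ∀ v e, e ∈ cv v ↔ e ∈ S ∧ oth s t v e ≠ v ∧ Ends s t v (oth s t v e) e :=
    fun v e => cut_ends
  have mcv2 : ∀ v u e, e ∈ S → u ≠ v → Ends s t v u e → e ∈ cv v := by
    intro v u e he hne k1
    show e ∈ cut s t S (fun u => decide (u = v))
    unfold cut
    rw [mem_filter]
    refine ⟨he, ?_⟩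
    rcases k1 with ⟨a1, a2⟩ | ⟨a1, a2⟩
    · rw [a1, a2]; simp [hne]
    · rw [a1, a2]; simp [hne]
  have cU : ∀ v, (U v).card ≤ 1 := by
    intro v
    rw [card_le_one]
    intro e he e' he'
    rw [mU] at he he'
    exact hI e he.1 e' he'.1 (he.2.trans he'.2.symm)
  have hsub : ∀ v, v ∉ X → cv v ⊆ U v ∪ Dn v ∪ L v := by
    intro v hv e he
    obtain ⟨h1, h2, h3⟩ := (mcv v e).1 he
    by_cases h4 : oth s t v e ∈ X
    · exact mem_union_right _ ((mL v e).2 ⟨h1, _, h4, h3⟩)
    · have heD : e ∈ D := by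
        rw [mD]
        rcases h3 with ⟨a1, a2⟩ | ⟨a1, a2⟩
        · rw [a1, a2]; exact ⟨h1, h2.symm, hv, h4⟩
        · rw [a1, a2]; exact ⟨h1, h2, h4, hv⟩
      rcases ends_inj (hE e heD).1 h3 with ⟨a1, a2⟩ | ⟨a1, a2⟩
      · exact mem_union_left _ (mem_union_left _ ((mU v e).2 ⟨heD, a1⟩))
      · exact mem_union_left _ (mem_union_right _ ((mDn v e).2 ⟨heD, a2⟩))
  have hcard : ∀ v, v ∉ X → (cv v).card ≤ (U v).card + (Dn v).card + (L v).card := fun v hv =>
    (card_le_card (hsub v hv)).trans ((card_union_le _ _).trans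
      (Nat.add_le_add_right (card_union_le _ _) _))
  set W := univ.filter (fun v => v ∉ X ∧ (cv v).Nonempty) with hW
  have mW : ∀ v, v ∈ W ↔ v ∉ X ∧ (cv v).Nonempty := fun v => by
    rw [hW, mem_filter]; simp only [mem_univ, true_and]
  have h3W : ∀ v ∈ W, 3 ≤ (U v).card + (Dn v).card + (L v).card := fun v hv =>
    (h.deg v ((mW v).1 hv).2).trans (hcard v ((mW v).1 hv).1)
  have cW : ∀ e ∈ D, c e ∈ W := fun e he => by
    rw [mW]
    exact ⟨(hcX e he).1, e, mcv2 _ _ e ((mD e).1 he).1 (hcne e he).symm (hE e he).1⟩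
  have pW : ∀ e ∈ D, p e ∈ W := fun e he => by
    rw [mW]
    exact ⟨(hcX e he).2, e, mcv2 _ _ e ((mD e).1 he).1 (hcne e he) (ends_sy (hE e he).1)⟩
  set N := W.filter (fun v => (U v).card = 1 ∧ (Dn v).card = 1 ∧ (L v).card = 1) with hN
  set A := W.filter (fun v => 2 ≤ (L v).card) with hA
  set Z := W.filter (fun v => (Dn v).card = 0) with hZ
  set Bc := W.filter (fun v => 2 ≤ (Dn v).card) with hBc
  -- A
  have hAcard : A.card ≤ k.choose 2 := by
    have hP : ∀ v ∈ A, ∃ P ∈ X.powersetCard 2, ∀ x ∈ P, ∃ e ∈ S, Ends s t v x e := by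
      intro v hv
      rw [hA, mem_filter] at hv
      obtain ⟨e1, he1, e2, he2, hne⟩ := one_lt_card.1 (show 1 < (L v).card from hv.2)
      obtain ⟨h1, x1, hx1, k1⟩ := (mL v e1).1 he1
      obtain ⟨h2, x2, hx2, k2⟩ := (mL v e2).1 he2
      have hvX := ((mW v).1 hv.1).1
      have hxne : x1 ≠ x2 := by
        rintro rfl
        exact hne (h.par v x1 e1 e2 (fun hc => hvX (hc ▸ hx1)) h1 h2 k1 k2)
      refine ⟨{x1, x2}, mem_powersetCard.2 ⟨?_, card_pair hxne⟩, ?_⟩
      · intro x hx
        rw [mem_insert, mem_singleton] at hx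
        rcases hx with rfl | rfl <;> assumption
      · intro x hx
        rw [mem_insert, mem_singleton] at hx
        rcases hx with rfl | rfl
        · exact ⟨e1, h1, k1⟩
        · exact ⟨e2, h2, k2⟩
    choose! P hP1 hP2 using hP
    have h1 : A.card ≤ (X.powersetCard 2).card := by
      refine card_le_card_of_injOn P (fun v hv => hP1 v hv) ?_
      intro v hv v' hv' hvv
      by_contra hne
      obtain ⟨x1, x2, hxne, hPe⟩ := card_eq_two.1 (mem_powersetCard.1 (hP1 v hv)).2
      have hs1 := (mem_powersetCard.1 (hP1 v hv)).1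
      have hvX := ((mW v).1 (mem_filter.1 hv).1).1
      have hv'X := ((mW v').1 (mem_filter.1 hv').1).1
      obtain ⟨e1, m1, k1⟩ := hP2 v hv x1 (by rw [hPe]; simp)
      obtain ⟨e2, m2, k2⟩ := hP2 v hv x2 (by rw [hPe]; simp)
      obtain ⟨e3, m3, k3⟩ := hP2 v' hv' x1 (by rw [← hvv, hPe]; simp)
      obtain ⟨e4, m4, k4⟩ := hP2 v' hv' x2 (by rw [← hvv, hPe]; simp)
      have hx1X : x1 ∈ X := hs1 (by rw [hPe]; simp)
      have hx2X : x2 ∈ X := hs1 (by rw [hPe]; simp)
      exact h.quad v x1 v' x2 (fun hc => hvX (hc ▸ hx1X)) (fun hc => hv'X (hc ▸ hx1X))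
        (fun hc => hv'X (hc ▸ hx2X)) (fun hc => hvX (hc ▸ hx2X)) hne hxne
        e1 m1 e3 m3 e4 m4 e2 m2 k1 (ends_sy k3) k4 (ends_sy k2)
    rw [card_powersetCard] at h1
    exact h1.trans (Nat.choose_le_choose 2 hX)
  -- sums
  have sU : ∑ v ∈ W, (U v).card = D.card := (card_eq_sum_card_fiberwise (f := c) (fun e he => cW e he)).symm
  have sDn : ∑ v ∈ W, (Dn v).card = D.card :=
    (card_eq_sum_card_fiberwise (f := p) (fun e he => pW e he)).symm
  have sW : D.card ≤ W.card := by
    rw [← sU, card_eq_sum_ones]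
    exact sum_le_sum fun v _ => cU v
  have hZA : Z ⊆ A := by
    intro v hv
    rw [hZ, mem_filter] at hv
    rw [hA, mem_filter]
    refine ⟨hv.1, ?_⟩
    have h1 := h3W v hv.1
    have h2 := cU v
    have h3 := hv.2
    omega
  have hBZ : Bc.card ≤ Z.card := by
    have h1 : W.card + Bc.card ≤ ∑ v ∈ W, (Dn v).card + Z.card := by
      have g1 : Bc.card = ∑ v ∈ W, if 2 ≤ (Dn v).card then 1 else 0 := card_filter _ _
      have g2 : Z.card = ∑ v ∈ W, if (Dn v).card = 0 then 1 else 0 := card_filter _ _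
      have g3 : W.card = ∑ v ∈ W, 1 := card_eq_sum_ones _
      rw [g1, g2, g3, ← sum_add_distrib, ← sum_add_distrib]
      refine sum_le_sum fun v _ => ?_
      by_cases h2 : (Dn v).card = 0
      · rw [if_neg (by omega), if_pos h2]; omega
      · rw [if_neg h2]
        by_cases h3 : 2 ≤ (Dn v).card
        · rw [if_pos h3]; omega
        · rw [if_neg h3]; omega
    rw [sDn] at h1
    omega
  have hWN : W \ N ⊆ A ∪ Bc := by
    intro v hv
    rw [mem_sdiff] at hv
    by_contra hc
    rw [mem_union, not_or] at hc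
    obtain ⟨hc1, hc2⟩ := hc
    have h1 : ¬ 2 ≤ (L v).card := fun h => hc1 (mem_filter.2 ⟨hv.1, h⟩)
    have h2 : ¬ 2 ≤ (Dn v).card := fun h => hc2 (mem_filter.2 ⟨hv.1, h⟩)
    have h4 := h3W v hv.1
    have h5 := cU v
    exact hv.2 (mem_filter.2 ⟨hv.1, by omega, by omega, by omega⟩)
  have hNW : N ⊆ W := filter_subset _ _
  set m := 2 * k.choose 2 with hm
  have hWNc : (W \ N).card ≤ m := by
    have h1 := (card_le_card hWN).trans (card_union_le _ _)
    have h2 := card_le_card hZA
    omega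
  -- the parent
  set par : V → V := fun v => if h : (U v).Nonempty then p h.choose else v with hpar
  have hparU : ∀ v e, e ∈ U v → par v = p e := by
    intro v e he
    have h1 : (U v).Nonempty := ⟨e, he⟩
    show (if h : (U v).Nonempty then p h.choose else v) = p e
    rw [dif_pos h1]
    have h2 := card_le_one.1 (cU v) _ h1.choose_spec _ he
    rw [h2]
  have hNe : ∀ v ∈ N, ∃ e ∈ D, c e = v ∧ par v = p e := by
    intro v hv
    rw [hN, mem_filter] at hv
    obtain ⟨e, he⟩ := card_eq_one.1 hv.2.1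
    have he' : e ∈ U v := by rw [he]; simp
    exact ⟨e, ((mU v e).1 he').1, ((mU v e).1 he').2, hparU v e he'⟩
  have htops : (N.filter (fun u => par u ∉ N)).card ≤ m := by
    refine le_trans ?_ hWNc
    have h1 : (N.filter (fun u => par u ∉ N)).card ≤ ((W \ N).biUnion Dn).card := by
      rcases N.eq_empty_or_nonempty with hN0 | ⟨v0, hv0⟩
      · rw [hN0, filter_empty, card_empty]; exact Nat.zero_le _
      obtain ⟨e0, _⟩ := hNe v0 hv0
      haveI : Inhabited E := ⟨e0⟩
      choose! e he1 he2 he3 using hNe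
      refine card_le_card_of_injOn e ?_ ?_
      · intro v hv
        rw [mem_coe, mem_filter] at hv
        rw [mem_coe, mem_biUnion]
        refine ⟨p (e v), mem_sdiff.2 ⟨pW _ (he1 v hv.1), ?_⟩, (mDn _ _).2 ⟨he1 v hv.1, rfl⟩⟩
        rw [← he3 v hv.1]
        exact hv.2
      · intro v hv v' hv' hvv
        rw [mem_coe, mem_filter] at hv hv'
        rw [← he2 v hv.1, ← he2 v' hv'.1, hvv]
    have h2 : ((W \ N).biUnion Dn).card ≤ ∑ v ∈ W \ N, (Dn v).card := card_biUnion_le
    have h3 : ∑ v ∈ W \ N, (Dn v).card + ∑ v ∈ N, (Dn v).card = D.card := by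
      rw [sum_sdiff hNW, sDn]
    have h4 : ∑ v ∈ N, (Dn v).card = N.card := by
      rw [card_eq_sum_ones]
      refine sum_congr rfl fun v hv => ?_
      rw [hN, mem_filter] at hv
      exact hv.2.2.1
    have h5 := card_sdiff_add_card_eq_card hNW
    omega
  have hpinj : ∀ u ∈ N, ∀ w ∈ N, par u ∈ N → par u = par w → u = w := by
    intro u hu w hw hpu huw
    obtain ⟨e, h1, h2, h3⟩ := hNe u hu
    obtain ⟨e', h1', h2', h3'⟩ := hNe w hw
    have h4 : e ∈ Dn (par u) := (mDn _ _).2 ⟨h1, h3.symm⟩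
    have h5 : e' ∈ Dn (par u) := (mDn _ _).2 ⟨h1', by rw [huw, h3']⟩
    rw [hN, mem_filter] at hpu
    have h6 := card_le_one.1 hpu.2.2.1.le _ h4 _ h5
    rw [← h2, ← h2', h6]
  set q := (k + 1).choose 2 with hq
  set g := G (Mq q) q with hg
  have hchain : ∀ u, ¬ ∀ j, j ≤ g → par^[j] u ∈ N := by
    intro u hu
    have hdat : ∀ v ∈ N, ∃ Q : E × E × E × V, U v = {Q.1} ∧ Dn v = {Q.2.1} ∧ L v = {Q.2.2.1} ∧
        Q.2.2.2 ∈ X ∧ Ends s t v Q.2.2.2 Q.2.2.1 := by
      intro v hv
      rw [hN, mem_filter] at hv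
      obtain ⟨e1, h1⟩ := card_eq_one.1 hv.2.1
      obtain ⟨e2, h2⟩ := card_eq_one.1 hv.2.2.1
      obtain ⟨e3, h3⟩ := card_eq_one.1 hv.2.2.2
      obtain ⟨_, x, hx, kx⟩ := (mL v e3).1 (by rw [h3]; simp)
      exact ⟨⟨e1, e2, e3, x⟩, h1, h2, h3, hx, kx⟩
    have huN : u ∈ N := hu 0 (Nat.zero_le _)
    obtain ⟨Q0, _⟩ := hdat u huN
    haveI : Inhabited (E × E × E × V) := ⟨Q0⟩
    choose! Q hQU hQD hQL hQX hQE using hdat
    set y : ℕ → V := fun j => par^[j] u with hy
    have hyN : ∀ j, j ≤ g → y j ∈ N := hu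
    have hys : ∀ j, y (j + 1) = par (y j) := fun j => by
      show par^[j + 1] u = par (par^[j] u)
      rw [Function.iterate_succ_apply']
    have hUe : ∀ j, j ≤ g → (Q (y j)).1 ∈ D ∧ c (Q (y j)).1 = y j ∧ p (Q (y j)).1 = y (j + 1) := by
      intro j hj
      have h1 : (Q (y j)).1 ∈ U (y j) := by rw [hQU _ (hyN j hj)]; simp
      have h2 := (mU _ _).1 h1
      refine ⟨h2.1, h2.2, ?_⟩
      rw [hys, hparU _ _ h1]
    have hDe : ∀ j, j + 1 ≤ g → Dn (y (j + 1)) = {(Q (y j)).1} := by
      intro j hj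
      have h1 := hUe j (by omega)
      have h2 : (Q (y j)).1 ∈ Dn (y (j + 1)) := (mDn _ _).2 ⟨h1.1, h1.2.2⟩
      rw [hQD _ (hyN _ hj)] at h2 ⊢
      rw [mem_singleton] at h2
      rw [h2]
    have hr : ∀ j, j ≤ g → r (y j) < r (y (j + 1)) := by
      intro j hj
      have h1 := hUe j hj
      have h2 := (hE _ h1.1).2
      rw [h1.2.1, h1.2.2] at h2
      exact h2
    have hrm : ∀ i j, i < j → j ≤ g + 1 → r (y i) < r (y j) := by
      intro i j hij hj
      induction j with
      | zero => omega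
      | succ j ih =>
        rcases Nat.lt_or_ge i j with h1 | h1
        · exact (ih h1 (by omega)).trans (hr j (by omega))
        · have : i = j := by omega
          subst this
          exact hr i (by omega)
    have hyinj : ∀ i j, i ≤ g → j ≤ g → y i = y j → i = j := by
      intro i j hi hj hij
      rcases Nat.lt_trichotomy i j with h1 | h1 | h1
      · have := hrm i j h1 (by omega)
        rw [hij] at this
        exact absurd this (lt_irrefl _)
      · exact h1
      · have := hrm j i h1 (by omega)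
        rw [hij] at this
        exact absurd this (lt_irrefl _)
    -- the edges of the path
    set cc : ℕ → E := fun j => if j = 0 then (Q (y 0)).2.1 else (Q (y (j - 1))).1 with hcc
    have cc0 : cc 0 = (Q (y 0)).2.1 := if_pos rfl
    have ccs : ∀ j, cc (j + 1) = (Q (y j)).1 := fun j => by
      show (if j + 1 = 0 then (Q (y 0)).2.1 else (Q (y (j + 1 - 1))).1) = _
      rw [if_neg (Nat.succ_ne_zero j), Nat.add_sub_cancel]
    have hDcc : ∀ j, j ≤ g → Dn (y j) = {cc j} := by
      intro j hj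
      rcases j with _ | j
      · rw [cc0]; exact hQD _ (hyN 0 hj)
      · rw [ccs]; exact hDe j hj
    have hcutj : ∀ j, j ≤ g → cv (y j) = {cc j, cc (j + 1), (Q (y j)).2.2.1} := by
      intro j hj
      have hjN := hyN j hj
      have hjW := (mW _).1 (hNW hjN)
      apply Subset.antisymm
      · intro e he
        have h1 := hsub _ hjW.1 he
        rw [hQU _ hjN, hDcc j hj, hQL _ hjN] at h1
        simp only [mem_union, mem_singleton] at h1
        rw [ccs]
        simp only [mem_insert, mem_singleton]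
        tauto
      · intro e he
        rw [ccs] at he
        simp only [mem_insert, mem_singleton] at he
        rcases he with rfl | rfl | rfl
        · have h1 : cc j ∈ Dn (y j) := by rw [hDcc j hj]; simp
          obtain ⟨h2, h3⟩ := (mDn _ _).1 h1
          have h4 := hE _ h2
          rw [h3] at h4
          refine mcv2 _ (c (cc j)) _ ((mD _).1 h2).1 ?_ (ends_sy h4.1)
          intro h5
          rw [h5] at h4
          exact lt_irrefl _ h4.2
        · obtain ⟨h2, h3, h4⟩ := hUe j hj
          have h5 := hE _ h2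
          rw [h3, h4] at h5
          refine mcv2 _ (y (j + 1)) _ ((mD _).1 h2).1 ?_ h5.1
          intro h6
          rw [h6] at h5
          exact lt_irrefl _ h5.2
        · have h1 : (Q (y j)).2.2.1 ∈ L (y j) := by rw [hQL _ hjN]; simp
          refine mcv2 _ (Q (y j)).2.2.2 _ ((mL _ _).1 h1).1 ?_ (hQE _ hjN)
          intro h6
          exact hjW.1 (h6 ▸ hQX _ hjN)
    have hne3 : ∀ j, j ≤ g → cc j ≠ cc (j + 1) ∧ cc j ≠ (Q (y j)).2.2.1 ∧
        cc (j + 1) ≠ (Q (y j)).2.2.1 := by
      intro j hj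
      have h1 := hcutj j hj
      have h2 := h.deg (y j) ((mW _).1 (hNW (hyN j hj))).2
      have h3 : 3 ≤ (cv (y j)).card := h2
      rw [h1] at h3
      refine ⟨?_, ?_, ?_⟩
      · intro h4
        rw [h4] at h3
        simp only [insert_eq_of_mem (mem_insert_self (cc (j + 1)) _)] at h3
        have := h3.trans card_le_two
        omega
      · intro h4
        rw [h4] at h3
        have h5 : ({(Q (y j)).2.2.1, cc (j + 1), (Q (y j)).2.2.1} : Finset E) =
            {cc (j + 1), (Q (y j)).2.2.1} := by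
          ext e
          simp only [mem_insert, mem_singleton]
          tauto
        rw [h5] at h3
        have := h3.trans card_le_two
        omega
      · intro h4
        rw [h4] at h3
        have h5 : ({cc j, (Q (y j)).2.2.1, (Q (y j)).2.2.1} : Finset E) =
            {cc j, (Q (y j)).2.2.1} := by
          ext e
          simp only [mem_insert, mem_singleton]
          tauto
        rw [h5] at h3
        have := h3.trans card_le_two
        omega
    -- pigeonhole
    set l : ℕ → V := fun j => (Q (y j)).2.2.2 with hl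
    have hlX : ∀ j, j ≤ g → l j ∈ X := fun j hj => hQX _ (hyN j hj)
    have hsym : X.sym2.card ≤ q := by
      rw [card_sym2]
      exact Nat.choose_le_choose 2 (by omega)
    have hty : ∀ j, j + 1 ≤ g → ty l j ∈ X.sym2 := by
      intro j hj
      unfold ty
      rw [mk_mem_sym2_iff]
      exact ⟨hlX j (by omega), hlX (j + 1) hj⟩
    obtain ⟨i', n', hi', hin, hn', hfr⟩ := pig V l (Mq q) q 0 (g + 1) (by unfold Mq; omega)
      ((card_le_card (by
        intro z hz
        obtain ⟨j, hj, rfl⟩ := mem_image.1 hz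
        rw [mem_Ico] at hj
        exact hty j (by omega))).trans hsym) (by rw [← hg]; omega)
    have hWS : WalkSum n' (fun m => l (i' + m)) := by
      refine lemw V (fun m => l (i' + m)) n' q hn' ?_ ?_
      · refine (card_le_card ?_).trans hsym
        intro z hz
        obtain ⟨j, hj, rfl⟩ := mem_image.1 hz
        rw [mem_range] at hj
        have h1 : ty (fun m => l (i' + m)) j = ty l (i' + j) := by
          unfold ty; rw [add_assoc]
        rw [h1]
        exact hty (i' + j) (by omega)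
      · intro m' hm'
        exact (hfr (i' + m') (by rw [mem_Ico]; omega)).trans (shift_card l i' n' m')
    refine h.path n' (fun m => y (i' + m)) (fun m => l (i' + m)) (fun m => cc (i' + m))
      (fun m => (Q (y (i' + m))).2.2.1) ⟨hn', ?_, ?_, ?_, ?_, ?_, ?_⟩ (fun m hm => hlX _ (by omega))
      hWS
    · intro i hi j hj hij
      have := hyinj (i' + i) (i' + j) (by omega) (by omega) hij
      omega
    · intro i hi j hj hij
      have h1 := ((mW _).1 (hNW (hyN (i' + j) (by omega)))).1
      exact h1 (hij ▸ hlX (i' + i) (by omega))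
    · intro m' hm'
      obtain ⟨h2, h3, h4⟩ := hUe (i' + m') (by omega)
      have h5 := (hE _ h2).1
      rw [h3, h4] at h5
      show Ends s t (y (i' + m')) (y (i' + (m' + 1))) (cc (i' + (m' + 1)))
      rw [← add_assoc, ccs]
      exact h5
    · intro m' hm'
      exact hQE _ (hyN (i' + m') (by omega))
    · intro m' hm'
      exact hcutj (i' + m') (by omega)
    · intro m' hm'
      exact hne3 (i' + m') (by omega)
  have hNc := chain V N par m g hpinj htops hchain
  have hWc : W.card ≤ m * (g + 1) := by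
    have h5 := card_sdiff_add_card_eq_card hNW
    rw [mul_add, mul_one]
    omega
  have hall : univ.filter (fun v => (cut s t S (fun u => decide (u = v))).Nonempty) ⊆ X ∪ W := by
    intro v hv
    rw [mem_filter] at hv
    by_cases hvX : v ∈ X
    · exact mem_union_left _ hvX
    · exact mem_union_right _ ((mW v).2 ⟨hvX, hv.2⟩)
  have h6 := (card_le_card hall).trans (card_union_le _ _)
  omega

end Pool.Agent.H16.FV
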