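import Pool.Agent.H16.FV.Kern
import Mathlib.LinearAlgebra.FiniteDimensional.Lemmas
import Mathlib.LinearAlgebra.Dimension.Constructions
import Mathlib.Algebra.Field.ZMod

/-!
Translations: isthmuses, cycles, circuits.
-/

set_option autoImplicit false

namespace Pool.Agent.H16.FV

open Finset Pool.Agent.TH362.TF Pool.Agent.TH362.TF.Four Q116.FF

variable {V E : Type} [Fintype V] [DecidableEq V] [Fintype E] [DecidableEq E]

/-- joined by a path with edges in `A` -/
def Lk {V E : Type} (s t : E → V) (A : Set E) (u v : V) : Prop :=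
  Relation.ReflTransGen (fun x y => ∃ e ∈ A, (s e = x ∧ t e = y) ∨ (s e = y ∧ t e = x)) u v

/-- no isthmus -/
def Ni {V E : Type} (s t : E → V) : Prop := ∀ e, Lk s t {e}ᶜ (s e) (t e)

/-- two cycles -/
def TC {V E : Type} [DecidableEq V] [Fintype E] [DecidableEq E] (s t : E → V) : Prop :=
  ∃ C₁ C₂ : Finset E, (∀ v, Even (dg s t C₁ v)) ∧ (∀ v, Even (dg s t C₂ v)) ∧ C₁ ∪ C₂ = univ

/-- the set `X` meets all circuits except for the loops -/
def Mt {V E : Type} [DecidableEq V] (s t : E → V) (X : Finset V) : Prop :=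
  ∀ C : Finset E, C.Nonempty → (∀ v, Even (dg s t C v)) → ∃ e ∈ C, s e = t e ∨ s e ∈ X ∨ t e ∈ X

theorem n1_of_ni {s t : E → V} (h : Ni s t) : N1 s t univ := by
  intro x hx
  obtain ⟨e, he⟩ := card_eq_one.1 hx
  have hstep : ∀ u v, (∃ f ∈ ({e}ᶜ : Set E), (s f = u ∧ t f = v) ∨ (s f = v ∧ t f = u)) →
      x u = x v := by
    rintro u v ⟨f, hf, hfe⟩
    by_contra hne
    have hmem : f ∈ cut s t univ x := by
      simp only [cut, Finset.mem_filter, Finset.mem_univ, true_and]
      rcases hfe with ⟨rfl, rfl⟩ | ⟨rfl, rfl⟩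
      · exact hne
      · exact fun h => hne h.symm
    rw [he, Finset.mem_singleton] at hmem
    exact hf (by rw [hmem]; rfl)
  have hlink : ∀ u v, Lk s t {e}ᶜ u v → x u = x v := by
    intro u v huv
    induction huv with
    | refl => rfl
    | tail _ h2 ih => exact ih.trans (hstep _ _ h2)
  have h1 : e ∈ cut s t univ x := by rw [he]; exact Finset.mem_singleton_self e
  simp only [cut, Finset.mem_filter, Finset.mem_univ, true_and] at h1
  exact h1 (hlink _ _ (h e))

theorem ni_of_n1 {s t : E → V} (h : N1 s t univ) : Ni s t := by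
  classical
  intro e
  by_contra hno
  apply h (fun v => decide (Lk s t {e}ᶜ (s e) v))
  rw [card_eq_one]
  refine ⟨e, ?_⟩
  ext f
  simp only [cut, mem_filter, mem_univ, true_and, mem_singleton]
  constructor
  · intro hf
    by_contra hfe
    apply hf
    rw [decide_eq_decide]
    constructor
    · exact fun h1 => Relation.ReflTransGen.tail h1 ⟨f, hfe, Or.inl ⟨rfl, rfl⟩⟩
    · exact fun h1 => Relation.ReflTransGen.tail h1 ⟨f, hfe, Or.inr ⟨rfl, rfl⟩⟩
  · rintro rfl
    intro h1
    rw [decide_eq_decide] at h1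
    exact hno (h1.1 Relation.ReflTransGen.refl)

theorem dg_cast (s t : E → V) (C : Finset E) (v : V) :
    ((dg s t C v : ℕ) : ZMod 2) = ∑ e, ((if s e = v then (if e ∈ C then 1 else 0) else 0) +
      (if t e = v then (if e ∈ C then 1 else 0) else 0)) := by
  unfold dg
  push_cast
  rw [← sum_filter_add_sum_filter_not univ (fun e => e ∈ C)]
  have h1 : univ.filter (fun e => e ∈ C) = C := by ext; simp
  rw [h1]
  have h2 : ∑ e ∈ univ.filter (fun e => ¬ e ∈ C), ((if s e = v then (if e ∈ C then (1 : ZMod 2)
      else 0) else 0) + (if t e = v then (if e ∈ C then 1 else 0) else 0)) = 0 := by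
    refine sum_eq_zero fun e he => ?_
    rw [mem_filter] at he
    simp [he.2]
  rw [h2, add_zero]
  refine sum_congr rfl fun e he => ?_
  simp [he]

theorem even_iff (s t : E → V) (C : Finset E) (v : V) :
    Even (dg s t C v) ↔ ∑ e, ((if s e = v then (if e ∈ C then (1 : ZMod 2) else 0) else 0) +
      (if t e = v then (if e ∈ C then 1 else 0) else 0)) = 0 := by
  rw [← dg_cast, ZMod.natCast_eq_zero_iff_even]

theorem z2 (x : ZMod 2) : (if x = 1 then (1 : ZMod 2) else 0) = x := by
  revert x; decide

theorem tc_iff (s t : E → V) : TC s t ↔ NZ s t univ := by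
  constructor
  · rintro ⟨C₁, C₂, h1, h2, h3⟩
    refine ⟨fun e => (if e ∈ C₁ then 1 else 0, if e ∈ C₂ then 1 else 0), ?_, ?_⟩
    · intro e _ h4
      have h5 : e ∈ C₁ ∪ C₂ := by rw [h3]; exact mem_univ e
      rw [Prod.mk_eq_zero] at h4
      rcases mem_union.1 h5 with h6 | h6
      · simp [h6] at h4
      · simp [h6] at h4
    · intro v
      unfold Cons
      apply Prod.ext
      · rw [Prod.fst_sum, Prod.fst_zero]
        refine Eq.trans (sum_congr rfl fun e _ => ?_) ((even_iff s t C₁ v).1 (h1 v))
        by_cases ha : s e = v <;> by_cases hb : t e = v <;> simp [ha, hb]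
      · rw [Prod.snd_sum, Prod.snd_zero]
        refine Eq.trans (sum_congr rfl fun e _ => ?_) ((even_iff s t C₂ v).1 (h2 v))
        by_cases ha : s e = v <;> by_cases hb : t e = v <;> simp [ha, hb]
  · rintro ⟨φ, h1, h2⟩
    refine ⟨univ.filter (fun e => (φ e).1 = 1), univ.filter (fun e => (φ e).2 = 1), ?_, ?_, ?_⟩
    · intro v
      rw [even_iff]
      have h3 := congrArg Prod.fst (h2 v)
      rw [Prod.fst_sum] at h3
      refine Eq.trans (sum_congr rfl fun e _ => ?_) h3
      have h4 : (if e ∈ univ.filter (fun e => (φ e).1 = 1) then (1 : ZMod 2) else 0) = (φ e).1 := by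
        rw [← z2 (φ e).1]
        simp only [mem_filter, mem_univ, true_and]
      rw [h4]
      by_cases ha : s e = v <;> by_cases hb : t e = v <;> simp [ha, hb]
    · intro v
      rw [even_iff]
      have h3 := congrArg Prod.snd (h2 v)
      rw [Prod.snd_sum] at h3
      refine Eq.trans (sum_congr rfl fun e _ => ?_) h3
      have h4 : (if e ∈ univ.filter (fun e => (φ e).2 = 1) then (1 : ZMod 2) else 0) = (φ e).2 := by
        rw [← z2 (φ e).2]
        simp only [mem_filter, mem_univ, true_and]
      rw [h4]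
      by_cases ha : s e = v <;> by_cases hb : t e = v <;> simp [ha, hb]
    · ext e
      simp only [mem_union, mem_filter, mem_univ, true_and, iff_true]
      have h3 := h1 e (mem_univ e)
      revert h3
      generalize φ e = y
      revert y
      decide

/-- A nonempty set of edges without loops and without vertices of degree one contains a nonempty
cycle. -/
theorem exists_cycle {s t : E → V} {D : Finset E} (hD : D.Nonempty) (hl : ∀ e ∈ D, s e ≠ t e)
    (h1 : ∀ v, dg s t D v ≠ 1) :
    ∃ C ⊆ D, C.Nonempty ∧ ∀ v, Even (dg s t C v) := by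
  classical
  set W : Finset V := univ.filter (fun v => dg s t D v ≠ 0) with hW
  have hsum : ∑ v, dg s t D v = 2 * D.card := by
    unfold dg
    rw [sum_comm, mul_comm, ← smul_eq_mul, ← sum_const]
    refine sum_congr rfl fun e _ => ?_
    rw [sum_add_distrib, sum_ite_eq, sum_ite_eq]
    simp
  have hsumW : ∑ v ∈ W, dg s t D v = 2 * D.card := by
    rw [← hsum, hW, sum_filter]
    refine sum_congr rfl fun v _ => ?_
    by_cases h : dg s t D v = 0 <;> simp [h]
  have hWc : W.card ≤ D.card := by
    have h2 : ∑ v ∈ W, 2 ≤ ∑ v ∈ W, dg s t D v := by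
      refine sum_le_sum fun v hv => ?_
      rw [hW, mem_filter] at hv
      have := h1 v
      have := hv.2
      omega
    rw [hsumW, sum_const, smul_eq_mul] at h2
    omega
  have hmem : ∀ e ∈ D, ∀ v, (s e = v ∨ t e = v) → v ∈ W := by
    intro e he v hv
    rw [hW, mem_filter]
    refine ⟨mem_univ _, ?_⟩
    unfold dg
    have h3 : 0 < ((if s e = v then 1 else 0) + (if t e = v then 1 else 0) : ℕ) := by
      rcases hv with hv | hv
      · rw [if_pos hv]; omega
      · rw [if_pos hv]; omega
    have h4 := single_le_sum (f := fun e => ((if s e = v then 1 else 0) +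
      (if t e = v then 1 else 0) : ℕ)) (fun _ _ => Nat.zero_le _) he
    have h5 := h3.trans_le h4
    omega
  obtain ⟨e0, he0⟩ := hD
  set v0 := s e0 with hv0
  have hv0W : v0 ∈ W := hmem e0 he0 v0 (Or.inl rfl)
  -- the linear map
  let L : ({e // e ∈ D} → ZMod 2) →ₗ[ZMod 2] ({v // v ∈ W.erase v0} → ZMod 2) :=
    { toFun := fun g v => ∑ e, ((if s e.1 = v.1 then g e else 0) + (if t e.1 = v.1 then g e else 0))
      map_add' := by
        intro g g'
        funext v
        simp only [Pi.add_apply]
        rw [← sum_add_distrib]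
        refine sum_congr rfl fun e _ => ?_
        by_cases ha : s e.1 = v.1 <;> by_cases hb : t e.1 = v.1 <;> simp [ha, hb]
        ring
      map_smul' := by
        intro c g
        funext v
        simp only [Pi.smul_apply, smul_eq_mul, RingHom.id_apply]
        rw [mul_sum]
        refine sum_congr rfl fun e _ => ?_
        by_cases ha : s e.1 = v.1 <;> by_cases hb : t e.1 = v.1 <;> simp [ha, hb]
        ring }
  have hlt : Module.finrank (ZMod 2) ({v // v ∈ W.erase v0} → ZMod 2) <
      Module.finrank (ZMod 2) ({e // e ∈ D} → ZMod 2) := by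
    rw [Module.finrank_fintype_fun_eq_card, Module.finrank_fintype_fun_eq_card, Fintype.card_coe,
      Fintype.card_coe, card_erase_of_mem hv0W]
    have := card_pos.2 ⟨v0, hv0W⟩
    omega
  have hker : LinearMap.ker L ≠ ⊥ := LinearMap.ker_ne_bot_of_finrank_lt (K := ZMod 2)
    (V := {e // e ∈ D} → ZMod 2) (V₂ := {v // v ∈ W.erase v0} → ZMod 2) (f := L) hlt
  obtain ⟨g, hg, hg0⟩ := Submodule.exists_mem_ne_zero_of_ne_bot hker
  have hLg : ∀ v ∈ W.erase v0, ∑ e : {e // e ∈ D}, ((if s e.1 = v then g e else 0) +
      (if t e.1 = v then g e else 0)) = 0 := by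
    intro v hv
    exact congrFun (LinearMap.mem_ker.1 hg) ⟨v, hv⟩
  set g' : E → ZMod 2 := fun e => if h : e ∈ D then g ⟨e, h⟩ else 0 with hg'
  set C : Finset E := univ.filter (fun e => g' e = 1) with hC
  have hCD : C ⊆ D := by
    intro e he
    rw [hC, mem_filter] at he
    by_contra hno
    have := he.2
    rw [hg'] at this
    simp [hno] at this
  have hsg : ∀ v, ∑ e, ((if s e = v then g' e else 0) + (if t e = v then g' e else 0)) =
      ∑ e : {e // e ∈ D}, ((if s e.1 = v then g e else 0) + (if t e.1 = v then g e else 0)) := by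
    intro v
    rw [← sum_subset (subset_univ D)]
    · rw [← sum_coe_sort D]
      refine sum_congr rfl fun e _ => ?_
      have : g' e.1 = g e := by
        show (if h : e.1 ∈ D then g ⟨e.1, h⟩ else 0) = g e
        rw [dif_pos e.2]
      rw [this]
    · intro e _ he
      have : g' e = 0 := dif_neg he
      rw [this]
      simp
  have hz : ∀ v, v ≠ v0 →
      ∑ e, ((if s e = v then g' e else 0) + (if t e = v then g' e else 0)) = 0 := by
    intro v hv
    by_cases hvW : v ∈ W
    · rw [hsg]; exact hLg v (mem_erase.2 ⟨hv, hvW⟩)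
    · refine sum_eq_zero fun e _ => ?_
      by_cases he : e ∈ D
      · rw [if_neg (fun h => hvW (hmem e he v (Or.inl h))),
          if_neg (fun h => hvW (hmem e he v (Or.inr h))), add_zero]
      · have : g' e = 0 := dif_neg he
        rw [this]; simp
  have htot : ∑ v, ∑ e, ((if s e = v then g' e else 0) + (if t e = v then g' e else 0)) = 0 := by
    rw [sum_comm]
    refine sum_eq_zero fun e _ => ?_
    rw [sum_add_distrib, sum_ite_eq, sum_ite_eq]
    simp only [mem_univ, if_true]
    generalize g' e = x
    revert x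
    decide
  have hall : ∀ v, ∑ e, ((if s e = v then g' e else 0) + (if t e = v then g' e else 0)) = 0 := by
    intro v
    by_cases hv : v = v0
    · rw [hv]
      rw [← add_sum_erase univ _ (mem_univ v0)] at htot
      rw [sum_eq_zero (s := univ.erase v0) (fun v hv => hz v (mem_erase.1 hv).1), add_zero] at htot
      exact htot
    · exact hz v hv
  refine ⟨C, hCD, ?_, ?_⟩
  · obtain ⟨e, he⟩ := Function.ne_iff.1 hg0
    refine ⟨e.1, ?_⟩
    rw [hC, mem_filter]
    refine ⟨mem_univ _, ?_⟩
    have h5 : g' e.1 = g e := by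
      show (if h : e.1 ∈ D then g ⟨e.1, h⟩ else 0) = g e
      rw [dif_pos e.2]
    rw [h5]
    revert he
    show g e ≠ 0 → g e = 1
    generalize g e = x
    revert x
    decide
  · intro v
    rw [even_iff]
    refine Eq.trans (sum_congr rfl fun e _ => ?_) (hall v)
    have h4 : (if e ∈ C then (1 : ZMod 2) else 0) = g' e := by
      rw [hC]
      simp only [mem_filter, mem_univ, true_and]
      exact z2 _
    rw [h4]

theorem fb_of_mt {s t : E → V} {X : Finset V} (h : Mt s t X) : Fb s t univ X := by
  intro D _ hne hD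
  by_contra hcon
  push Not at hcon
  obtain ⟨C, hC, h1, h2⟩ := exists_cycle hne (fun e he => (hD e he).1) hcon
  obtain ⟨e, he, h3⟩ := h C h1 h2
  obtain ⟨h4, h5, h6⟩ := hD e (hC he)
  tauto

theorem mt_of_fb {s t : E → V} {X : Finset V} (h : Fb s t univ X) : Mt s t X := by
  intro C hne hC
  by_contra hcon
  push Not at hcon
  obtain ⟨v, hv⟩ := h C (subset_univ _) hne hcon
  have h1 : dg s t C v = 1 := hv
  have h2 := hC v
  rw [h1] at h2
  exact absurd h2 (by decide)

end Pool.Agent.H16.FV
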