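import Pool.Agent.H16.FV.Stm

set_option autoImplicit false

namespace Pool.Agent.H16.FV

open Finset Pool.Agent.TH362.TF Pool.Agent.TH362.TF.Four

/-- the degree of `v` in `D` -/
def dg {V E : Type} [DecidableEq V] (s t : E → V) (D : Finset E) (v : V) : ℕ :=
  ∑ e ∈ D, ((if s e = v then 1 else 0) + (if t e = v then 1 else 0))

theorem dg_quot {V E : Type} [Fintype V] [DecidableEq V] (s t : E → V) (D : Finset E) (f : V → V)
    (v : V) : dg (fun e => f (s e)) (fun e => f (t e)) D v =
      ∑ u ∈ univ.filter (fun u => f u = v), dg s t D u := by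
  unfold dg
  rw [Finset.sum_comm]
  refine Finset.sum_congr rfl fun e _ => ?_
  rw [Finset.sum_add_distrib, Finset.sum_ite_eq, Finset.sum_ite_eq]
  simp only [Finset.mem_filter, Finset.mem_univ, true_and]

theorem dg_zero {V E : Type} [DecidableEq V] {s t : E → V} {D : Finset E} {v : V}
    (h : ∀ e ∈ D, s e ≠ v ∧ t e ≠ v) : dg s t D v = 0 := by
  unfold dg
  refine sum_eq_zero fun e he => ?_
  rw [if_neg (h e he).1, if_neg (h e he).2]
  rfl

theorem fbq : S_FBQ := by
  classical
  intro V E _ _ _ s t S X hF
  refine ⟨?_, ?_⟩
  · intro T a hTX ha D hD hne hD2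
    have h1 : ∀ e ∈ D, s e ∉ T ∧ t e ∉ T := by
      intro e he
      obtain ⟨_, h3, h4⟩ := hD2 e he
      constructor
      · intro h
        apply h3
        show Q116.FF.mrg T a (s e) ∈ _
        unfold Q116.FF.mrg
        rw [if_pos h]
        exact mem_insert_self _ _
      · intro h
        apply h4
        show Q116.FF.mrg T a (t e) ∈ _
        unfold Q116.FF.mrg
        rw [if_pos h]
        exact mem_insert_self _ _
    have hs : ∀ e ∈ D, Q116.FF.mrg T a (s e) = s e := fun e he => if_neg (h1 e he).1
    have ht : ∀ e ∈ D, Q116.FF.mrg T a (t e) = t e := fun e he => if_neg (h1 e he).2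
    obtain ⟨v, hv⟩ := hF D hD hne (by
      intro e he
      obtain ⟨h2, h3, h4⟩ := hD2 e he
      beta_reduce at h2 h3 h4
      rw [hs e he, ht e he] at h2
      rw [hs e he] at h3
      rw [ht e he] at h4
      simp only [mem_insert, mem_sdiff, not_or, not_and, not_not] at h3 h4
      refine ⟨h2, fun h => (h1 e he).1 (h3.2 h), fun h => (h1 e he).2 (h4.2 h)⟩)
    refine ⟨v, ?_⟩
    refine Eq.trans (sum_congr rfl fun e he => ?_) hv
    simp only [hs e he, ht e he]
  · intro u w e₀ huw hu hw he₀ hE D hD hne hD2
    by_contra hcon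
    push Not at hcon
    have hmem : ∀ y, Q116.FF.mrg {u, w} u y = if y = w then u else y := by
      intro y
      unfold Q116.FF.mrg
      by_cases h1 : y = u
      · subst h1
        simp
      · by_cases h2 : y = w
        · subst h2; simp
        · simp [h1, h2]
    have hX : ∀ e ∈ D, s e ≠ t e ∧ s e ∉ X ∧ t e ∉ X := by
      intro e he
      obtain ⟨h2, h3, h4⟩ := hD2 e he
      refine ⟨fun h => h2 (congrArg _ h), ?_, ?_⟩
      · intro h
        apply h3
        show Q116.FF.mrg {u, w} u (s e) ∈ X
        rw [hmem, if_neg (fun h5 : s e = w => hw (h5 ▸ h))]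
        exact h
      · intro h
        apply h4
        show Q116.FF.mrg {u, w} u (t e) ∈ X
        rw [hmem, if_neg (fun h5 : t e = w => hw (h5 ▸ h))]
        exact h
    have he₀D : e₀ ∉ D := by
      intro h
      apply (hD2 e₀ h).1
      show Q116.FF.mrg {u, w} u (s e₀) = Q116.FF.mrg {u, w} u (t e₀)
      rcases hE with ⟨h1, h2⟩ | ⟨h1, h2⟩
      · rw [h1, h2, hmem, hmem, if_neg huw, if_pos rfl]
      · rw [h1, h2, hmem, hmem, if_neg huw, if_pos rfl]
    have hq : ∀ y, dg (fun e => Q116.FF.mrg {u, w} u (s e)) (fun e => Q116.FF.mrg {u, w} u (t e))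
        D y = ∑ z ∈ univ.filter (fun z => Q116.FF.mrg {u, w} u z = y), dg s t D z :=
      dg_quot s t D _
    have hqu : dg s t D u + dg s t D w ≠ 1 := by
      have h1 := hcon u
      have h2 := hq u
      have h3 : univ.filter (fun z => Q116.FF.mrg {u, w} u z = u) = {u, w} := by
        ext z
        simp only [mem_filter, mem_univ, true_and, mem_insert, mem_singleton, hmem]
        by_cases h4 : z = w
        · simp [h4]
        · simp [h4]
      rw [h3, sum_pair huw] at h2
      intro h5
      exact h1 (h2.trans h5)
    have hqy : ∀ y, y ≠ u → y ≠ w → dg s t D y ≠ 1 := by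
      intro y h4 h5
      have h1 := hcon y
      have h2 := hq y
      have h3 : univ.filter (fun z => Q116.FF.mrg {u, w} u z = y) = {y} := by
        ext z
        simp only [mem_filter, mem_univ, true_and, mem_singleton, hmem]
        by_cases h6 : z = w
        · rw [if_pos h6]
          constructor
          · intro h7; exact absurd h7.symm h4
          · intro h7; exact absurd (h7.symm.trans h6) h5
        · rw [if_neg h6]
      rw [h3, sum_singleton] at h2
      intro h5
      exact h1 (h2.trans h5)
    by_cases hb : dg s t D u ≠ 1 ∧ dg s t D w ≠ 1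
    · obtain ⟨v, hv⟩ := hF D hD hne hX
      by_cases h1 : v = u
      · subst h1; exact hb.1 hv
      · by_cases h2 : v = w
        · subst h2; exact hb.2 hv
        · exact hqy v h1 h2 hv
    · have hins : ∀ y, dg s t (insert e₀ D) y =
          ((if u = y then 1 else 0) + (if w = y then 1 else 0)) + dg s t D y := by
        intro y
        unfold dg
        rw [sum_insert he₀D]
        congr 1
        rcases hE with ⟨h1, h2⟩ | ⟨h1, h2⟩
        · rw [h1, h2]
        · rw [h1, h2, add_comm]
      obtain ⟨v, hv⟩ := hF (insert e₀ D) (insert_subset he₀ hD) (insert_nonempty _ _) (by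
        intro e he
        rcases mem_insert.1 he with rfl | he
        · rcases hE with ⟨h1, h2⟩ | ⟨h1, h2⟩
          · rw [h1, h2]; exact ⟨huw, hu, hw⟩
          · rw [h1, h2]; exact ⟨huw.symm, hw, hu⟩
        · exact hX e he)
      have hv' : dg s t (insert e₀ D) v = 1 := hv
      rw [hins] at hv'
      by_cases h1 : v = u
      · subst h1
        rw [if_pos rfl, if_neg huw.symm] at hv'
        have : dg s t D v = 0 := by omega
        rw [this] at hqu hb
        apply hb
        exact ⟨by omega, by omega⟩
      · by_cases h2 : v = w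
        · subst h2
          rw [if_pos rfl, if_neg huw] at hv'
          have : dg s t D v = 0 := by omega
          rw [this] at hqu hb
          apply hb
          exact ⟨by omega, by omega⟩
        · rw [if_neg (Ne.symm h1), if_neg (Ne.symm h2)] at hv'
          exact hqy v h1 h2 (by omega)

end Pool.Agent.H16.FV
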