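import Pool.Agent.H16.FV.Res

/-!
The three forms of the kernel theorem.
-/

set_option autoImplicit false

namespace Pool.Agent.H16.FV

open Finset Pool.Agent.TH362.TF Pool.Agent.TH362.TF.Four Q116.FF

section
variable {V E : Type} [DecidableEq V] [Fintype E] [DecidableEq E]

/-- the edges which join `v` to another vertex -/
def lnk (s t : E → V) (v : V) : Finset E :=
  univ.filter (fun e => (s e = v ∧ t e ≠ v) ∨ (s e ≠ v ∧ t e = v))

/-- no short circuits except for the loops, and no vertices of degree one or two -/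
structure Rdu (s t : E → V) : Prop where
  girth : ∀ C : Finset E, C.Nonempty → (∀ v, Even (dg s t C v)) → (∀ e ∈ C, s e ≠ t e) →
    5 ≤ C.card
  deg : ∀ v, (lnk s t v).Nonempty → 3 ≤ (lnk s t v).card

theorem lnk_cut (s t : E → V) (v : V) : lnk s t v = cut s t univ (fun u => decide (u = v)) := by
  unfold lnk cut
  apply filter_congr
  intro e _
  by_cases h1 : s e = v <;> by_cases h2 : t e = v <;> simp [h1, h2]

end

variable {V E : Type} [Fintype V] [DecidableEq V] [Fintype E] [DecidableEq E]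

theorem kernel {s t : E → V} {k : ℕ} (hn : Ni s t) {X : Finset V} (hX : X.card ≤ k)
    (hM : Mt s t X) :
    ∃ f : V → V, (∀ u w, f u = f w → Lk s t {e | f (s e) = f u ∧ f (t e) = f u} u w) ∧
      (TC (fun e => f (s e)) (fun e => f (t e)) ↔ TC s t) ∧
      (∃ X' : Finset V, X'.card ≤ k ∧ Mt (fun e => f (s e)) (fun e => f (t e)) X') ∧
      Rdu (fun e => f (s e)) (fun e => f (t e)) ∧
      (univ.filter (fun v => (lnk (fun e => f (s e)) (fun e => f (t e)) v).Nonempty)).card ≤
        Bd k ∧ CC s t univ f := by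
  classical
  obtain ⟨f, h1, h2, ⟨X', h3, h4⟩, h5, h6⟩ := kern (n1_of_ni hn) hX (fb_of_mt hM)
  refine ⟨f, ?_, ?_, ⟨X', h3, mt_of_fb h4.fb⟩, ⟨?_, ?_⟩, ?_, h1⟩
  · intro u w huw
    have h7 := (lk_cls (f := f) (B := {f u}) (x := f u) rfl rfl (h1 u w huw)).2
    exact h7
  · rw [tc_iff, tc_iff]
    exact h2
  · intro C hne hC hl
    refine girth (s := fun e => f (s e)) (t := fun e => f (t e)) ?_ ?_ ?_ hne hC hl
    · exact fun a b e e' hab => h4.par a b e e' hab (mem_univ _) (mem_univ _)
    · exact fun a b c hab hbc hca e1 e2 e3 => h5 a b c hab hbc hca e1 (mem_univ _) e2 (mem_univ _)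
        e3 (mem_univ _)
    · exact fun a b c d q1 q2 q3 q4 q5 q6 e1 e2 e3 e4 => h4.quad a b c d q1 q2 q3 q4 q5 q6
        e1 (mem_univ _) e2 (mem_univ _) e3 (mem_univ _) e4 (mem_univ _)
  · intro v hv
    rw [lnk_cut] at hv ⊢
    exact h4.deg v hv
  · simp only [lnk_cut]
    exact h6

/-- The contraction of one edge. -/
def ctr {V : Type} [DecidableEq V] (a b v : V) : V := if v = b then a else v

theorem critical {s t : E → V} {k : ℕ} (hn : Ni s t) (hT : ¬ TC s t)
    (hc : ∀ e, s e ≠ t e → TC (fun e' => ctr (s e) (t e) (s e')) (fun e' => ctr (s e) (t e) (t e')))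
    {X : Finset V} (hX : X.card ≤ k) (hM : Mt s t X) :
    Rdu s t ∧ (univ.filter (fun v => (lnk s t v).Nonempty)).card ≤ Bd k := by
  classical
  obtain ⟨f, _, h2, _, h4, h5, h6⟩ := kernel hn hX hM
  have hTf : ¬ NZ (fun e => f (s e)) (fun e => f (t e)) univ := by
    rw [← tc_iff, h2]; exact hT
  have hstep : ∀ e, f (s e) = f (t e) → s e = t e := by
    intro e he
    by_contra hne
    apply hTf
    have h7 := nz_quot f ((tc_iff _ _).1 (hc e hne))
    have h8 : ∀ v, f (ctr (s e) (t e) v) = f v := by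
      intro v
      unfold ctr
      split_ifs with h
      · rw [h, he]
      · rfl
    simpa only [h8] using h7
  have hinj : ∀ u w, f u = f w → u = w := by
    intro u w huw
    have h7 := h6 u w huw
    induction h7 with
    | refl => rfl
    | @tail y z _ hyz ih =>
      have h8 := hyz.1
      rw [ih (huw.trans h8.symm)]
      obtain ⟨_, e, _, ⟨k1, k2⟩ | ⟨k1, k2⟩⟩ := hyz
      · rw [← k1, ← k2]
        apply hstep
        rw [k1, k2]; exact h8
      · rw [← k1, ← k2]
        symm
        apply hstep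
        rw [k1, k2]; exact h8.symm
  have hinj' : Function.Injective f := fun u w h => hinj u w h
  have hlnk : ∀ v, lnk (fun e => f (s e)) (fun e => f (t e)) (f v) = lnk s t v := by
    intro v
    unfold lnk
    apply filter_congr
    intro e _
    simp only [hinj'.eq_iff, ne_eq]
  have hdg : ∀ (C : Finset E) v, dg (fun e => f (s e)) (fun e => f (t e)) C (f v) = dg s t C v := by
    intro C v
    unfold dg
    refine sum_congr rfl fun e _ => ?_
    simp only [hinj'.eq_iff]
  refine ⟨⟨?_, ?_⟩, ?_⟩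
  · intro C hne hC hl
    refine h4.girth C hne ?_ (fun e he h => hl e he (hinj' h))
    intro v
    obtain ⟨u, rfl⟩ := (Finite.injective_iff_surjective.1 hinj') v
    rw [hdg]
    exact hC u
  · intro v hv
    rw [← hlnk] at hv ⊢
    exact h4.deg _ hv
  · refine le_trans ?_ h5
    refine card_le_card_of_injOn f ?_ (fun a _ b _ hab => hinj' hab)
    intro v hv
    rw [mem_coe, mem_filter] at hv ⊢
    refine ⟨mem_univ _, ?_⟩
    rw [hlnk]
    exact hv.2

/-- The reduction to finitely many graphs. -/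
theorem reduction (k : ℕ)
    (H : ∀ (V E : Type) [Fintype V] [DecidableEq V] [Fintype E] [DecidableEq E] (s t : E → V),
      Fintype.card V ≤ Bd k → (∀ e, s e ≠ t e) →
      (∀ C : Finset E, C.Nonempty → (∀ v, Even (dg s t C v)) → 5 ≤ C.card) →
      (∀ v, 3 ≤ dg s t univ v) → Ni s t → (∃ X : Finset V, X.card ≤ k ∧ Mt s t X) → ¬ PM s t →
      TC s t)
    {s t : E → V} (hn : Ni s t) {X : Finset V} (hX : X.card ≤ k)
    (hM : Mt s t X) (hP : ¬ PM s t) : TC s t := by
  classical
  obtain ⟨f, _, h2, ⟨X', hX', hM'⟩, h4, h5, h6⟩ := kernel hn hX hM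
  rw [← h2]
  set s1 : E → V := fun e => f (s e) with hs1
  set t1 : E → V := fun e => f (t e) with ht1
  have hn1 : N1 s1 t1 univ := by
    have := quot_n1 (f := f) (Subset.refl univ) (fun e h1 h2 => absurd h1 h2) (n1_of_ni hn)
    exact this
  have hse : ∀ e : {e // s1 e ≠ t1 e}, (lnk s1 t1 (s1 e.1)).Nonempty := fun e =>
    ⟨e.1, by unfold lnk; rw [mem_filter]; exact ⟨mem_univ _, Or.inl ⟨rfl, e.2.symm⟩⟩⟩
  have hte : ∀ e : {e // s1 e ≠ t1 e}, (lnk s1 t1 (t1 e.1)).Nonempty := fun e =>
    ⟨e.1, by unfold lnk; rw [mem_filter]; exact ⟨mem_univ _, Or.inr ⟨e.2, rfl⟩⟩⟩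
  let s' : {e // s1 e ≠ t1 e} → {v // (lnk s1 t1 v).Nonempty} := fun e => ⟨s1 e.1, hse e⟩
  let t' : {e // s1 e ≠ t1 e} → {v // (lnk s1 t1 v).Nonempty} := fun e => ⟨t1 e.1, hte e⟩
  have hi : Function.Injective (fun v : {v // (lnk s1 t1 v).Nonempty} => v.1) :=
    Subtype.val_injective
  have hj : Function.Injective (fun e : {e // s1 e ≠ t1 e} => e.1) := Subtype.val_injective
  have hs : ∀ e : {e // s1 e ≠ t1 e}, s1 e.1 = (s' e).1 := fun _ => rfl
  have ht : ∀ e : {e // s1 e ≠ t1 e}, t1 e.1 = (t' e).1 := fun _ => rfl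
  have hl : ∀ e, (∀ e' : {e // s1 e ≠ t1 e}, e'.1 ≠ e) → s1 e = t1 e := by
    intro e he
    by_contra hne
    exact he ⟨e, hne⟩ rfl
  have hTC : TC s' t' := by
    refine H _ _ s' t' ?_ ?_ ?_ ?_ ?_ ?_ ?_
    · rw [Fintype.card_subtype]
      exact h5
    · intro e he
      exact e.2 (congrArg Subtype.val he)
    · intro C hne hC
      have h7 := h4.girth (C.image (fun e => e.1)) (hne.image _)
        (even_map (s := s1) (t := t1) hi hj hs ht hC) ?_
      · rwa [card_image_of_injective _ hj] at h7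
      · intro e he
        obtain ⟨e', _, rfl⟩ := mem_image.1 he
        exact e'.2
    · intro v
      have h7 := h4.deg v.1 v.2
      have h8 : dg s' t' univ v = (lnk s1 t1 v.1).card := by
        have h9 := dg_map (s := s1) (t := t1) hi hj hs ht univ v
        rw [← h9]
        unfold dg lnk
        rw [card_filter, sum_image (fun a _ b _ hab => hj hab)]
        rw [← sum_subset (subset_univ ((univ : Finset {e // s1 e ≠ t1 e}).image (fun e => e.1)))]
        · rw [sum_image (fun a _ b _ hab => hj hab)]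
          refine sum_congr rfl fun e _ => ?_
          have he := e.2
          by_cases ha : s1 e.1 = v.1 <;> by_cases hb : t1 e.1 = v.1
          · exact absurd (ha.trans hb.symm) he
          · simp [ha, hb]
          · simp [ha, hb]
          · simp [ha, hb]
        · intro e _ he
          have h10 : s1 e = t1 e := hl e (fun e' h => he (mem_image.2 ⟨e', mem_univ _, h⟩))
          rw [h10]
          by_cases hb : t1 e = v.1 <;> simp [hb]
      rw [h8]
      exact h7
    · exact ni_of_n1 (n1_map (s := s1) (t := t1) hi hj hs ht hl hn1)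
    · obtain ⟨X'', h7, h8⟩ := mt_map (s := s1) (t := t1) hi hj hs ht hM'
      exact ⟨X'', h7.trans hX', h8⟩
    · intro h7
      exact hP (pm_quot h6 (pm_map (s := s1) (t := t1) _ hi _ hs ht h7))
  rw [tc_iff] at hTC ⊢
  exact nz_map (s := s1) (t := t1) hi hj hs ht hl hTC

end Pool.Agent.H16.FV
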