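import Pool.Agent.H16.FV.Bas

set_option autoImplicit false

namespace Pool.Agent.H16.FV

open Finset Pool.Agent.TH362.TF Pool.Agent.TH362.TF.Four

theorem solve : S_SOLVE := by
  classical
  intro V E _ _ _ s t S n v x c d hn hv hx hc hd hcut h3 hW a₀ ha₀ hNZ
  set T := (range n).image v ∪ (range n).image x with hT
  set C := (Ico 1 n).image c ∪ (range n).image d with hC
  have vT : ∀ m, m < n → v m ∈ T := fun m hm =>
    mem_union_left _ (mem_image_of_mem _ (mem_range.2 hm))
  have xT : ∀ m, m < n → x m ∈ T := fun m hm =>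
    mem_union_right _ (mem_image_of_mem _ (mem_range.2 hm))
  have mc : ∀ m, m < n → ∀ e, (e = c m ∨ e = c (m + 1) ∨ e = d m) →
      e ∈ S ∧ (s e = v m ∨ t e = v m) := by
    intro m hm e he
    have h1 : e ∈ cut s t S (fun u => decide (u = v m)) := by
      rw [hcut m hm]
      simp only [mem_insert, mem_singleton]
      exact he
    unfold cut at h1
    rw [mem_filter] at h1
    refine ⟨h1.1, ?_⟩
    by_contra h2
    push Not at h2
    exact h1.2 (by simp [h2.1, h2.2])
  have hc' : ∀ m, 1 ≤ m → m < n → Ends s t (v (m - 1)) (v m) (c m) := by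
    intro m h1 h2
    have := hc (m - 1) (by omega)
    rwa [Nat.sub_add_cancel h1] at this
  have incE : ∀ (u w y : V) (e : E), Ends s t u w e → (s e = y ∨ t e = y) → y = u ∨ y = w := by
    rintro u w y e (⟨h1, h2⟩ | ⟨h1, h2⟩) (h | h)
    · exact Or.inl (h.symm.trans h1)
    · exact Or.inr (h.symm.trans h2)
    · exact Or.inr (h.symm.trans h1)
    · exact Or.inl (h.symm.trans h2)
  have hCS : C ⊆ S := by
    intro e he
    rcases mem_union.1 he with h | h
    · obtain ⟨m, hm, rfl⟩ := mem_image.1 h
      rw [mem_Ico] at hm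
      exact (mc m hm.2 _ (Or.inl rfl)).1
    · obtain ⟨m, hm, rfl⟩ := mem_image.1 h
      exact (mc m (mem_range.1 hm) _ (Or.inr (Or.inr rfl))).1
  have hCT : ∀ e ∈ C, s e ∈ T ∧ t e ∈ T := by
    intro e he
    rcases mem_union.1 he with h | h
    · obtain ⟨m, hm, rfl⟩ := mem_image.1 h
      rw [mem_Ico] at hm
      exact Q116.FF.ends_mem (hc' m hm.1 hm.2) (vT _ (by omega)) (vT _ hm.2)
    · obtain ⟨m, hm, rfl⟩ := mem_image.1 h
      rw [mem_range] at hm
      exact Q116.FF.ends_mem (hd m hm) (vT _ hm) (xT _ hm)
  obtain ⟨φ, φ1, φ2, φ3⟩ := Q116.FF.setup ha₀ hCS hCT hNZ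
  have c0 : c 0 ∉ C := by
    intro he
    rcases mem_union.1 he with h | h
    · obtain ⟨m, hm, h5⟩ := mem_image.1 h
      rw [mem_Ico] at hm
      have h6 := incE _ _ (v 0) _ (hc' m hm.1 hm.2) (h5 ▸ (mc 0 (by omega) _ (Or.inl rfl)).2)
      rcases h6 with h6 | h6
      · have := hv 0 (by omega) (m - 1) (by omega) h6
        have h7 : m = 1 := by omega
        subst h7
        exact (h3 0 (by omega)).1 h5.symm
      · have := hv 0 (by omega) m (by omega) h6
        omega
    · obtain ⟨m, hm, h5⟩ := mem_image.1 h
      rw [mem_range] at hm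
      have h6 := incE _ _ (v 0) _ (hd m hm) (h5 ▸ (mc 0 (by omega) _ (Or.inl rfl)).2)
      rcases h6 with h6 | h6
      · have := hv 0 (by omega) m (by omega) h6
        subst this
        exact (h3 0 (by omega)).2.1 h5.symm
      · exact hx m hm 0 (by omega) h6.symm
  have cn : c n ∉ C := by
    have hn1 : n - 1 + 1 = n := by omega
    have hinc : s (c n) = v (n - 1) ∨ t (c n) = v (n - 1) := by
      have := (mc (n - 1) (by omega) (c n) (Or.inr (Or.inl (by rw [hn1])))).2
      exact this
    intro he
    rcases mem_union.1 he with h | h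
    · obtain ⟨m, hm, h5⟩ := mem_image.1 h
      rw [mem_Ico] at hm
      have h6 := incE _ _ (v (n - 1)) _ (hc' m hm.1 hm.2) (h5 ▸ hinc)
      rcases h6 with h6 | h6
      · have := hv (n - 1) (by omega) (m - 1) (by omega) h6
        omega
      · have := hv (n - 1) (by omega) m (by omega) h6
        subst this
        exact (h3 (n - 1) (by omega)).1 (by rw [hn1]; exact h5)
    · obtain ⟨m, hm, h5⟩ := mem_image.1 h
      rw [mem_range] at hm
      have h6 := incE _ _ (v (n - 1)) _ (hd m hm) (h5 ▸ hinc)
      rcases h6 with h6 | h6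
      · have := hv (n - 1) (by omega) m (by omega) h6
        subst this
        exact (h3 (n - 1) (by omega)).2.2 (by rw [hn1]; exact h5.symm)
      · exact hx m hm (n - 1) (by omega) h6.symm
  have cC : ∀ m, 1 ≤ m → m < n → c m ∈ C := fun m h1 h2 =>
    mem_union_left _ (mem_image_of_mem _ (mem_Ico.2 ⟨h1, h2⟩))
  have dC : ∀ m, m < n → d m ∈ C := fun m h1 =>
    mem_union_right _ (mem_image_of_mem _ (mem_range.2 h1))
  have hB : ∀ m, m < n → B s t (S \ C) φ (v m) =
      (if m = 0 then φ (c 0) else 0) + (if m = n - 1 then φ (c n) else 0) := by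
    intro m hm
    have h5 := cons_cut s t (S \ C) φ (v m)
    have h6 : cut s t (S \ C) (fun u => decide (u = v m)) =
        ({c m, c (m + 1), d m} : Finset E).filter (fun e => e ∉ C) := by
      rw [← hcut m hm]
      unfold cut
      ext e
      simp only [mem_filter, mem_sdiff]
      tauto
    rw [h6, sum_filter, sum_insert (by simp [(h3 m hm).1, (h3 m hm).2.1]),
      sum_pair (h3 m hm).2.2] at h5
    have h7 : B s t (S \ C) φ (v m) = _ := h5
    rw [h7]
    simp only [dC m hm, not_true_eq_false, if_false, add_zero]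
    by_cases hm0 : m = 0
    · subst hm0
      rw [if_pos c0, if_pos rfl]
      by_cases hm1 : 0 = n - 1
      · omega
      · rw [if_neg hm1, if_neg (fun h => h (cC (0 + 1) (by omega) (by omega)))]
    · rw [if_neg hm0, if_neg (fun h => h (cC m (by omega) hm))]
      by_cases hm1 : m = n - 1
      · rw [if_pos hm1]
        have : m + 1 = n := by omega
        rw [this, if_pos cn]
      · rw [if_neg hm1, if_neg (fun h => h (cC (m + 1) (by omega) (by omega)))]
  have hα : φ (c 0) ≠ 0 := φ1 _ (mem_sdiff.2 ⟨(mc 0 (by omega) _ (Or.inl rfl)).1, c0⟩)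
  have hβ : φ (c n) ≠ 0 := by
    refine φ1 _ (mem_sdiff.2 ⟨?_, cn⟩)
    have hn1 : n - 1 + 1 = n := by omega
    exact (mc (n - 1) (by omega) (c n) (Or.inr (Or.inl (by rw [hn1])))).1
  have injv : Set.InjOn v (range n) := by
    intro i hi j hj h
    exact hv i (mem_range.1 hi) j (mem_range.1 hj) h
  have hdisj : Disjoint ((range n).image v) ((range n).image x) := by
    rw [disjoint_left]
    intro u h1 h2
    obtain ⟨i, hi, rfl⟩ := mem_image.1 h1
    obtain ⟨j, hj, h4⟩ := mem_image.1 h2
    exact hx j (mem_range.1 hj) i (mem_range.1 hi) h4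
  have hsum : ∑ y, (if y ∈ (range n).image x then B s t (S \ C) φ y else 0) =
      φ (c 0) + φ (c n) := by
    rw [← sum_filter]
    have h5 : univ.filter (fun y => y ∈ (range n).image x) = (range n).image x := by
      ext y; simp
    rw [h5]
    rw [hT, sum_union hdisj, sum_image injv] at φ3
    rw [sum_congr rfl (fun m hm => hB m (mem_range.1 hm)), sum_add_distrib, sum_ite_eq',
      sum_ite_eq', if_pos (mem_range.2 (by omega)), if_pos (mem_range.2 (by omega))] at φ3
    exact (Q116.FF.eq_of_addF φ3).symm
  obtain ⟨a, a0, an, a1, a2, a3⟩ := hW (φ (c 0)) (φ (c n)) hα hβ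
    (fun y => if y ∈ (range n).image x then B s t (S \ C) φ y else 0) (fun y hy => by
      rw [if_neg]
      intro h
      obtain ⟨m, hm, h4⟩ := mem_image.1 h
      exact hy m (mem_range.1 hm) h4) hsum
  have injc : Set.InjOn c (Ico 1 n) := by
    intro i hi j hj h
    rw [coe_Ico, Set.mem_Ico] at hi hj
    have key : ∀ i j, 1 ≤ i → i < n → 1 ≤ j → j < n → c i = c j → i ≤ j := by
      intro i j hi1 hi2 hj1 hj2 h
      have h5 := incE _ _ (v i) _ (hc' j hj1 hj2) (h ▸ (mc i hi2 _ (Or.inl rfl)).2)
      rcases h5 with h5 | h5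
      · have := hv i hi2 (j - 1) (by omega) h5
        omega
      · have := hv i hi2 j hj2 h5
        omega
    exact le_antisymm (key i j hi.1 hi.2 hj.1 hj.2 h) (key j i hj.1 hj.2 hi.1 hi.2 h.symm)
  have injd : Set.InjOn d (range n) := by
    intro i hi j hj h
    rw [coe_range, Set.mem_Iio] at hi hj
    have h5 := incE _ _ (v i) _ (hd j hj) (h ▸ (mc i hi _ (Or.inr (Or.inr rfl))).2)
    rcases h5 with h5 | h5
    · exact hv i hi j hj h5
    · exact absurd h5.symm (hx j hj i hi)
  have hcd : Disjoint ((Ico 1 n).image c) ((range n).image d) := by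
    rw [disjoint_left]
    intro u h1 h2
    obtain ⟨i, hi, rfl⟩ := mem_image.1 h1
    obtain ⟨j, hj, h4⟩ := mem_image.1 h2
    rw [mem_Ico] at hi
    rw [mem_range] at hj
    have hi' : s (c i) = v i ∨ t (c i) = v i := (mc i hi.2 _ (Or.inl rfl)).2
    have h5 := incE _ _ (v i) _ (hd j hj) (h4 ▸ hi')
    rcases h5 with h5 | h5
    · have := hv i hi.2 j hj h5
      subst this
      exact (h3 i hj).2.1 h4.symm
    · exact hx j hj i hi.2 h5.symm
  set ψ : E → F := fun e => (∑ m ∈ Ico 1 n, if c m = e then a m else 0) +
    ∑ m ∈ range n, if d m = e then a m + a (m + 1) else 0 with hψ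
  have ψc : ∀ m ∈ Ico 1 n, ψ (c m) = a m := by
    intro m hm
    have h5 : ∑ i ∈ Ico 1 n, (if c i = c m then a i else 0) = a m := by
      rw [sum_eq_single m]
      · rw [if_pos rfl]
      · intro i hi hne
        rw [if_neg (fun h => hne (injc hi hm h))]
      · intro h; exact absurd hm h
    have h6 : ∑ i ∈ range n, (if d i = c m then a i + a (i + 1) else 0) = 0 := by
      refine sum_eq_zero fun i hi => ?_
      rw [if_neg]
      intro h
      exact (disjoint_left.1 hcd) (mem_image_of_mem c hm) (h ▸ mem_image_of_mem d hi)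
    show (∑ i ∈ Ico 1 n, if c i = c m then a i else 0) +
      ∑ i ∈ range n, (if d i = c m then a i + a (i + 1) else 0) = a m
    rw [h5, h6, add_zero]
  have ψd : ∀ m ∈ range n, ψ (d m) = a m + a (m + 1) := by
    intro m hm
    have h5 : ∑ i ∈ range n, (if d i = d m then a i + a (i + 1) else 0) = a m + a (m + 1) := by
      rw [sum_eq_single m]
      · rw [if_pos rfl]
      · intro i hi hne
        rw [if_neg (fun h => hne (injd hi hm h))]
      · intro h; exact absurd hm h
    have h6 : ∑ i ∈ Ico 1 n, (if c i = d m then a i else 0) = 0 := by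
      refine sum_eq_zero fun i hi => ?_
      rw [if_neg]
      intro h
      exact (disjoint_left.1 hcd) (mem_image_of_mem c hi) (h ▸ mem_image_of_mem d hm)
    show (∑ i ∈ Ico 1 n, if c i = d m then a i else 0) +
      ∑ i ∈ range n, (if d i = d m then a i + a (i + 1) else 0) = a m + a (m + 1)
    rw [h5, h6, zero_add]
  refine Q116.FF.finish hCS φ ψ φ1 ?_ ?_
  · intro e he
    rcases mem_union.1 he with h | h
    · obtain ⟨m, hm, rfl⟩ := mem_image.1 h
      rw [ψc m hm]
      rw [mem_Ico] at hm
      exact a1 m hm.2.le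
    · obtain ⟨m, hm, rfl⟩ := mem_image.1 h
      rw [ψd m hm]
      intro h5
      exact a2 m (mem_range.1 hm) (Q116.FF.eq_of_addF h5)
  · intro u
    have hBC : B s t C ψ u = (∑ m ∈ Ico 1 n, ((if v (m - 1) = u then a m else 0) +
        (if v m = u then a m else 0))) + ∑ m ∈ range n, ((if v m = u then a m + a (m + 1) else 0) +
        (if x m = u then a m + a (m + 1) else 0)) := by
      unfold B
      rw [hC, sum_union hcd, sum_image injc, sum_image injd]
      congr 1
      · refine sum_congr rfl fun m hm => ?_
        rw [ψc m hm]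
        rw [mem_Ico] at hm
        exact Q116.FF.ends_F (hc' m hm.1 hm.2) u (a m)
      · refine sum_congr rfl fun m hm => ?_
        rw [ψd m hm]
        exact Q116.FF.ends_F (hd m (mem_range.1 hm)) u _
    rw [hBC, sum_add_distrib, sum_add_distrib]
    by_cases huv : u ∈ (range n).image v
    · obtain ⟨i, hi, rfl⟩ := mem_image.1 huv
      rw [mem_range] at hi
      have e4 : ∑ m ∈ range n, (if x m = v i then a m + a (m + 1) else 0) = 0 := by
        refine sum_eq_zero fun m hm => ?_
        rw [if_neg (hx m (mem_range.1 hm) i hi)]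
      have e3 : ∑ m ∈ range n, (if v m = v i then a m + a (m + 1) else 0) = a i + a (i + 1) := by
        rw [sum_eq_single i]
        · rw [if_pos rfl]
        · intro j hj hne
          rw [if_neg (fun h => hne (hv j (mem_range.1 hj) i hi h))]
        · intro h; exact absurd (mem_range.2 hi) h
      have e2 : ∑ m ∈ Ico 1 n, (if v m = v i then a m else 0) = if i = 0 then 0 else a i := by
        by_cases hi0 : i = 0
        · rw [if_pos hi0]
          refine sum_eq_zero fun m hm => ?_
          rw [mem_Ico] at hm
          rw [if_neg]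
          intro h
          have := hv m hm.2 i hi h
          omega
        · rw [if_neg hi0, sum_eq_single i]
          · rw [if_pos rfl]
          · intro j hj hne
            rw [mem_Ico] at hj
            rw [if_neg (fun h => hne (hv j hj.2 i hi h))]
          · intro h; exact absurd (mem_Ico.2 ⟨by omega, hi⟩) h
      have e1 : ∑ m ∈ Ico 1 n, (if v (m - 1) = v i then a m else 0) =
          if i = n - 1 then 0 else a (i + 1) := by
        by_cases hi0 : i = n - 1
        · rw [if_pos hi0]
          refine sum_eq_zero fun m hm => ?_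
          rw [mem_Ico] at hm
          rw [if_neg]
          intro h
          have := hv (m - 1) (by omega) i hi h
          omega
        · rw [if_neg hi0, sum_eq_single (i + 1)]
          · rw [Nat.add_sub_cancel, if_pos rfl]
          · intro j hj hne
            rw [mem_Ico] at hj
            rw [if_neg]
            intro h
            have := hv (j - 1) (by omega) i hi h
            omega
          · intro h; exact absurd (mem_Ico.2 ⟨by omega, by omega⟩) h
      rw [hB i hi, e1, e2, e3, e4]
      by_cases hi0 : i = 0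
      · have hi1 : i ≠ n - 1 := by omega
        rw [if_pos hi0, if_neg hi1, if_neg hi1, if_pos hi0, hi0, a0]
        have k1 := dbl (φ (c 0))
        have k2 := dbl (a (0 + 1))
        linear_combination k1 + k2
      · rw [if_neg hi0, if_neg hi0]
        by_cases hi1 : i = n - 1
        · rw [if_pos hi1, if_pos hi1]
          have h6 : i + 1 = n := by omega
          rw [h6, an]
          have k1 := dbl (φ (c n))
          have k2 := dbl (a i)
          linear_combination k1 + k2
        · rw [if_neg hi1, if_neg hi1]
          have k1 := dbl (a i)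
          have k2 := dbl (a (i + 1))
          linear_combination k1 + k2
    · have z : ∀ m, m < n → v m ≠ u := fun m hm h =>
        huv (h ▸ mem_image_of_mem v (mem_range.2 hm))
      have e3 : ∑ m ∈ range n, (if v m = u then a m + a (m + 1) else 0) = 0 := by
        refine sum_eq_zero fun m hm => ?_
        rw [if_neg (z m (mem_range.1 hm))]
      have e2 : ∑ m ∈ Ico 1 n, (if v m = u then a m else 0) = 0 := by
        refine sum_eq_zero fun m hm => ?_
        rw [mem_Ico] at hm
        rw [if_neg (z m hm.2)]
      have e1 : ∑ m ∈ Ico 1 n, (if v (m - 1) = u then a m else 0) = 0 := by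
        refine sum_eq_zero fun m hm => ?_
        rw [mem_Ico] at hm
        rw [if_neg (z (m - 1) (by omega))]
      rw [e1, e2, e3, ← sum_filter, a3 u, zero_add, zero_add, zero_add]
      by_cases hux : u ∈ (range n).image x
      · simp only [hux, if_true]
        exact dbl _
      · simp only [hux, if_false, add_zero]
        exact φ2 u (by rw [hT, mem_union]; tauto)

end Pool.Agent.H16.FV
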