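import Pool.Agent.H16.FV.Fbq
import Pool.Agent.H16.FV.Solve

/-!
Contractions which keep the answer, and minimal ones.
-/

set_option autoImplicit false

namespace Pool.Agent.H16.FV

open Finset Pool.Agent.TH362.TF Pool.Agent.TH362.TF.Four Q116.FF

variable {V E : Type} [Fintype V] [DecidableEq V] [DecidableEq E]

/-- the classes of `f` are connected -/
def CC (s t : E → V) (S : Finset E) (f : V → V) : Prop :=
  ∀ u w, f u = f w → Relation.ReflTransGen (fun x y => f x = f y ∧ ∃ e ∈ S, Ends s t x y e) u w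

/-- the vertex set `T` is connected -/
def CT (s t : E → V) (S : Finset E) (T : Finset V) : Prop :=
  ∀ u ∈ T, ∀ w ∈ T, Relation.ReflTransGen (fun x y => x ∈ T ∧ y ∈ T ∧ ∃ e ∈ S, Ends s t x y e) u w

theorem ends_sy {s t : E → V} {u v : V} {e : E} (h : Ends s t u v e) : Ends s t v u e := Or.symm h

theorem cc_mrg {s t : E → V} {S : Finset E} {f : V → V} (h : CC s t S f) {T : Finset V} {a : V}
    (ha : a ∈ T) (hT : CT (fun e => f (s e)) (fun e => f (t e)) S T) :
    CC s t S (fun v => mrg T a (f v)) := by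
  intro u w huw
  have mono : ∀ {x y : V}, Relation.ReflTransGen
      (fun x y => f x = f y ∧ ∃ e ∈ S, Ends s t x y e) x y →
      Relation.ReflTransGen (fun x y => mrg T a (f x) = mrg T a (f y) ∧ ∃ e ∈ S, Ends s t x y e)
        x y := by
    intro x y hxy
    induction hxy with
    | refl => exact Relation.ReflTransGen.refl
    | tail _ hpq ih => exact ih.tail ⟨congrArg _ hpq.1, hpq.2⟩
  have hin : ∀ x, f x ∈ T → mrg T a (f x) = a := fun x hx => if_pos hx
  have hout : ∀ x, f x ∉ T → mrg T a (f x) = f x := fun x hx => if_neg hx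
  by_cases hu : f u ∈ T
  · have hw : f w ∈ T := by
      by_contra hw
      have h1 := huw
      simp only [hin u hu, hout w hw] at h1
      exact hw (h1 ▸ ha)
    have key : ∀ y, Relation.ReflTransGen (fun x y => x ∈ T ∧ y ∈ T ∧ ∃ e ∈ S,
        Ends (fun e => f (s e)) (fun e => f (t e)) x y e) (f u) y → ∀ w, f w = y →
        Relation.ReflTransGen (fun x y => mrg T a (f x) = mrg T a (f y) ∧
          ∃ e ∈ S, Ends s t x y e) u w := by
      intro y hy
      induction hy with
      | refl => exact fun w hw => mono (h u w hw.symm)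
      | @tail y z _ hyz ih =>
        intro w hw
        obtain ⟨hy1, hz1, e, he, k⟩ := hyz
        rcases k with ⟨k1, k2⟩ | ⟨k1, k2⟩
        · refine ((ih (s e) k1).tail ⟨?_, e, he, Or.inl ⟨rfl, rfl⟩⟩).trans
            (mono (h (t e) w (k2.trans hw.symm)))
          rw [hin _ (by rw [show f (s e) = y from k1]; exact hy1),
            hin _ (by rw [show f (t e) = z from k2]; exact hz1)]
        · refine ((ih (t e) k2).tail ⟨?_, e, he, Or.inr ⟨rfl, rfl⟩⟩).trans
            (mono (h (s e) w (k1.trans hw.symm)))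
          rw [hin _ (by rw [show f (t e) = y from k2]; exact hy1),
            hin _ (by rw [show f (s e) = z from k1]; exact hz1)]
    exact key (f w) (hT _ hu _ hw) w rfl
  · have hw : f w ∉ T := by
      intro hw
      have h1 := huw
      simp only [hin w hw, hout u hu] at h1
      exact hu (h1 ▸ ha)
    apply mono
    apply h
    have h1 := huw
    simp only [hout u hu, hout w hw] at h1
    exact h1

/-- a contraction which keeps the answer and the feedback vertex number -/
structure Gd (s t : E → V) (S : Finset E) (k : ℕ) (f : V → V) : Prop where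
  cc : CC s t S f
  nz : NZ (fun e => f (s e)) (fun e => f (t e)) S → NZ s t S
  fb : ∃ X : Finset V, X.card ≤ k ∧ Fb (fun e => f (s e)) (fun e => f (t e)) S X

/-- a contraction of this kind with as few edges as possible -/
structure Mn (s t : E → V) (S : Finset E) (k : ℕ) (f : V → V) : Prop extends Gd s t S k f where
  mn : ∀ g, Gd s t S k g → nl (fun e => f (s e)) (fun e => f (t e)) S ≤
    nl (fun e => g (s e)) (fun e => g (t e)) S

theorem exists_mn {s t : E → V} {S : Finset E} {k : ℕ} {X : Finset V} (hX : X.card ≤ k)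
    (h : Fb s t S X) : ∃ f, Mn s t S k f := by
  classical
  have h0 : Gd s t S k (fun v => v) := by
    refine ⟨?_, fun h => h, X, hX, h⟩
    intro u w huw
    have : u = w := huw
    rw [this]
  have hne : {n | ∃ f, Gd s t S k f ∧ nl (fun e => f (s e)) (fun e => f (t e)) S = n}.Nonempty :=
    ⟨_, _, h0, rfl⟩
  obtain ⟨f, h1, h2⟩ := Nat.sInf_mem hne
  refine ⟨f, h1, fun g hg => ?_⟩
  rw [h2]
  exact Nat.sInf_le ⟨g, hg, rfl⟩

/-- the identification of a connected set `T` which keeps the feedback vertex number cannot keep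
the answer -/
theorem Mn.no {s t : E → V} {S : Finset E} {k : ℕ} {f : V → V} (h : Mn s t S k f) {T : Finset V}
    {a x y : V} {e : E} (ha : a ∈ T) (hT : CT (fun e => f (s e)) (fun e => f (t e)) S T)
    (hfb : ∃ X' : Finset V, X'.card ≤ k ∧ Fb (fun e => mrg T a (f (s e)))
      (fun e => mrg T a (f (t e))) S X')
    (he : e ∈ S) (hxy : x ≠ y) (hx : x ∈ T) (hy : y ∈ T)
    (k1 : Ends (fun e => f (s e)) (fun e => f (t e)) x y e)
    (hnz : NZ (fun e => mrg T a (f (s e))) (fun e => mrg T a (f (t e))) S →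
      NZ (fun e => f (s e)) (fun e => f (t e)) S) : False := by
  have h1 : Gd s t S k (fun v => mrg T a (f v)) := by
    refine ⟨cc_mrg h.cc ha hT, fun h2 => h.nz (hnz h2), hfb⟩
  have h2 := h.mn _ h1
  have h3 := nl_lt (a := a) he hxy hx hy k1
  exact absurd h2 (not_le.2 h3)

theorem fb_meet {s t : E → V} {S : Finset E} {X T : Finset V} {k : ℕ} {a : V} (h : Fb s t S X)
    (hX : X.card ≤ k) (ha : a ∈ T) (hT : (T ∩ X).Nonempty) :
    ∃ X' : Finset V, X'.card ≤ k ∧ Fb (fun e => mrg T a (s e)) (fun e => mrg T a (t e)) S X' := by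
  refine ⟨insert a (X \ T), ?_, (fbq V E s t S X h).1 T a hT ha⟩
  have h1 := card_insert_le a (X \ T)
  have h2 : (X \ T).card + (T ∩ X).card = X.card := by
    rw [inter_comm, card_sdiff_add_card_inter]
  have h3 := card_pos.2 hT
  omega

/-- `X` meets each circuit -/
theorem fb_circ {s t : E → V} {S : Finset E} {X T : Finset V} (h : Fb s t S X) {D : Finset E}
    (hD : D ⊆ S) (hne : D.Nonempty) (h1 : ∀ e ∈ D, s e ≠ t e) (h2 : ∀ e ∈ D, s e ∈ T ∧ t e ∈ T)
    (h3 : ∀ v, Even (dg s t D v)) : (T ∩ X).Nonempty := by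
  by_contra hcon
  rw [not_nonempty_iff_eq_empty] at hcon
  have h4 : ∀ v ∈ T, v ∉ X := fun v hv hx => by
    have : v ∈ T ∩ X := mem_inter.2 ⟨hv, hx⟩
    rw [hcon] at this
    simp at this
  obtain ⟨v, hv⟩ := h D hD hne (fun e he => ⟨h1 e he, h4 _ (h2 e he).1, h4 _ (h2 e he).2⟩)
  have h5 := h3 v
  have h6 : dg s t D v = 1 := hv
  rw [h6] at h5
  exact absurd h5 (by decide)

theorem dg_ends {s t : E → V} {u w : V} {x : E} (h : Ends s t u w x) (v : V) :
    ((if s x = v then 1 else 0) + (if t x = v then 1 else 0) : ℕ) =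
      (if u = v then 1 else 0) + (if w = v then 1 else 0) := by
  rcases h with ⟨h1, h2⟩ | ⟨h1, h2⟩
  · rw [h1, h2]
  · rw [h1, h2, add_comm]

theorem ne_of_ends {s t : E → V} {a b : V} {e : E} (hab : a ≠ b) (k : Ends s t a b e) :
    s e ≠ t e := by
  rcases k with ⟨h1, h2⟩ | ⟨h1, h2⟩
  · rw [h1, h2]; exact hab
  · rw [h1, h2]; exact hab.symm

end Pool.Agent.H16.FV
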