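import Mathlib.Data.Sym.Sym2
import Mathlib.Data.Finset.Card
import Mathlib.LinearAlgebra.Span.Basic
import Pool.Agent.H16.FV.L.Lift

/-!
# PROJECT FV (helper16): nowhere-zero 4-flows of graphs with a small feedback vertex set

THEOREM.  For every `k` there is an explicit `N k` such that every bridgeless multigraph in which
some `k` vertices meet all circuits can be contracted (connected classes!) to a graph with at most
`N k` vertices such that one has a nowhere-zero 4-flow iff the other has.  So for every `k` Tutte's
4-flow conjecture for graphs with feedback vertex number at most `k` is a finite problem (flower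
snarks show that this fails for bounded treewidth), and the cographic tangential 2-blocks of such
graphs have at most `M k` elements.

Stubs.  Each statement is a `def S_... : Prop`; a stub is a theorem `xyz : S_XYZ` in a file
`Pool/Agent/H16/FV/XYZ.lean` which imports this file.
-/

set_option autoImplicit false

namespace Pool.Agent.H16.FV

open Finset Pool.Agent.TH362.TF Pool.Agent.TH362.TF.Four

/-- the unordered pair of the labels at the positions `m` and `m + 1` -/
def ty {V : Type} (l : ℕ → V) (m : ℕ) : Sym2 V := s(l m, l (m + 1))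

/-- WALK (60 lines).  A walk on the triangle of the nonzero elements of `F = ZMod 2 × ZMod 2` with
prescribed values at some times, no two of which are consecutive.

Proof.  Recursively from left to right: at a time `i` with `v i = some x` take `x`; at another time
take an element different from `0`, from `a (i - 1)` and from the value prescribed at time `i + 1`
(if any).  The element chosen before a prescribed time is different from the prescribed value. -/
def S_WALK : Prop :=
  ∀ (n : ℕ) (v : ℕ → Option F), (∀ i x, v i = some x → x ≠ 0) →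
    (∀ i, (v i).isSome → v (i + 1) = none) →
    ∃ a : ℕ → F, (∀ i, i ≤ n → a i ≠ 0) ∧ (∀ i, i < n → a i ≠ a (i + 1)) ∧
      ∀ i, i ≤ n → ∀ x, v i = some x → a i = x

/-- PICK (40 lines).  Greedy choice of elements with distances at least four.

Proof.  Induction on `Q` (`Finset.induction_on`): given `j` on `Q`, the new element must avoid at
most `7 * Q.card` numbers (`j q - 3, ..., j q + 3`), and `O q₀` has at least `7 * (Q.card + 1)`
elements. -/
def S_PICK : Prop :=
  ∀ (ι : Type) [DecidableEq ι] (Q : Finset ι) (O : ι → Finset ℕ),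
    (∀ q ∈ Q, 7 * Q.card ≤ (O q).card) →
    ∃ j : ι → ℕ, (∀ q ∈ Q, j q ∈ O q) ∧
      ∀ q ∈ Q, ∀ q' ∈ Q, q ≠ q' → j q + 4 ≤ j q' ∨ j q' + 4 ≤ j q

/-- SPAN (80 lines).  Let `J` be a finite set of positions with vectors
`w j = c j · (1_{l j} + 1_{l (j+1)})`, such that for each position `m < n - 1` there are `j₁, j₂ ∈ J`
with the same pair of labels and `c j₁ = (1,0)`, `c j₂ = (0,1)`.  Then every `p : V → F` with sum
zero and support in `{l 0, ..., l (n-1)}` is the sum of `w j` over a subset (coefficients
`θ : ℕ → ZMod 2`).

Proof.  Let `D` be the `ZMod 2`-span of the vectors `w j`, `j ∈ J`, in `V → F` (functions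
`Pi.single`-like: `fun y => (if l j = y then c j else 0) + (if l (j+1) = y then c j else 0)`).  For
`m < n - 1` and every `z : F` the vector `z (1_{l m} + 1_{l (m+1)})` is in `D` (combine `j₁`, `j₂`;
the pair of labels is unordered, addition is commutative), hence by induction
`z (1_{l 0} + 1_{l m}) ∈ D` for all `m < n`.  Write `p` as the sum over `y` in the image of
`p y (1_y + 1_{l 0})` (as `∑ p = 0` the coefficient at `l 0` is right).  Finally use
`Submodule.mem_span_finset` or an induction on the span to get `θ`. -/
def S_SPAN : Prop :=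
  ∀ (V : Type) [DecidableEq V] [Fintype V] (l : ℕ → V) (n : ℕ) (J : Finset ℕ) (c : ℕ → F),
    1 ≤ n →
    (∀ m, m + 1 < n → ∃ j₁ ∈ J, ∃ j₂ ∈ J, ty l j₁ = ty l m ∧ ty l j₂ = ty l m ∧
      c j₁ = (1, 0) ∧ c j₂ = (0, 1)) →
    ∀ p : V → F, (∀ y, (∀ m, m < n → l m ≠ y) → p y = 0) → ∑ y, p y = 0 →
    ∃ θ : ℕ → ZMod 2, ∀ y, p y = ∑ j ∈ J, θ j • ((if l j = y then c j else 0) +
      (if l (j + 1) = y then c j else 0))

/-- LEMW (200 lines; uses WALK, PICK, SPAN as hypotheses).  Let `l 0, ..., l (n - 1)` be a sequence
of labels such that each unordered pair of consecutive labels occurs at least `14 q + 8` times,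
where `q` is the number of these pairs.  Then for all nonzero `α, β` and every `p : V → F` with
support in the labels and sum `α + β` there is a walk `a 0 = α, ..., a n = β` of nonzero elements,
consecutive ones different, such that for each label `y` the sum of `a m + a (m + 1)` over the
positions `m` of `y` is `p y`.

Proof.  PICK with `Q = (types) × Bool` (at most `2 q` elements) and `O (P, _)` = the positions
`m ∈ [2, n - 4]` with `ty l m = P` (at least `14 q + 8 - 2 - 3` of them): positions `j (P, b)` with
distances at least four.  `c (j (P, true)) = (1,0)`, `c (j (P, false)) = (0,1)`.  WALK with `v 0 = α`,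
`v n = β`, `v j = v (j + 2) = c j` for the chosen `j` (all other times free; prescribed times are not
consecutive): a walk `a⁰`.  For `θ : ℕ → ZMod 2` let `a (j + 1) = a⁰ (j + 1) + θ j • c j` for `j ∈ J`
and `a i = a⁰ i` otherwise; this is again such a walk since `{c j, a⁰ (j+1), a⁰ (j+1) + c j}` are the
three nonzero elements and both neighbours of the time `j + 1` have value `c j`.  The sum at the
label `y` changes by `∑ j ∈ J, θ j • (c j [l j = y] + c j [l (j+1) = y])`.  The difference of `p` and
the sums for `a⁰` has sum zero (`∑ m < n, (a m + a (m+1)) = a 0 + a n` telescopes), so SPAN gives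
`θ`. -/
def S_LEMW : Prop :=
  ∀ (V : Type) [DecidableEq V] [Fintype V] (l : ℕ → V) (n q : ℕ), 2 ≤ n →
    ((range (n - 1)).image (ty l)).card ≤ q →
    (∀ m, m < n - 1 → 14 * q + 8 ≤ ((range (n - 1)).filter (fun i => ty l i = ty l m)).card) →
    ∀ α β : F, α ≠ 0 → β ≠ 0 → ∀ p : V → F, (∀ y, (∀ m, m < n → l m ≠ y) → p y = 0) →
      ∑ y, p y = α + β →
      ∃ a : ℕ → F, a 0 = α ∧ a n = β ∧ (∀ i, i ≤ n → a i ≠ 0) ∧ (∀ i, i < n → a i ≠ a (i + 1)) ∧
        ∀ y, ∑ m ∈ (range n).filter (fun m => l m = y), (a m + a (m + 1)) = p y

/-- the bound of the pigeonhole argument -/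
def G (M : ℕ) : ℕ → ℕ
  | 0 => 1
  | r + 1 => M * (G M r + 1)

/-- PIG (80 lines).  In a long sequence with few types of consecutive pairs there is an interval
`[i', i' + n')`, `n' ≥ 2`, in which each type that occurs occurs at least `M` times.

Proof.  Induction on `r`.  For `r = 0` there is no position `m ∈ [i, i + n - 1)`, but `n ≥ 2`.
Step: if each type that occurs in the interval occurs `M` times, take the interval.  Otherwise some
type `P` occurs fewer than `M` times.  The interval contains `M` consecutive blocks
`[i + b L, i + (b + 1) L)`, `b < M`, `L = G M r + 1`; if each block had a position `m` with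
`m, m + 1` in the block of type `P`, then `P` would occur at least `M` times.  Take a block without
the type `P`: at most `r` types (erase `P`), length `L > G M r`; induction. -/
def S_PIG : Prop :=
  ∀ (V : Type) [DecidableEq V] (l : ℕ → V) (M r i n : ℕ), 1 ≤ M →
    ((Ico i (i + n - 1)).image (ty l)).card ≤ r → G M r < n →
    ∃ i' n', i ≤ i' ∧ i' + n' ≤ i + n ∧ 2 ≤ n' ∧
      ∀ m ∈ Ico i' (i' + n' - 1),
        M ≤ ((Ico i' (i' + n' - 1)).filter (fun j => ty l j = ty l m)).card

/-- SOLVE (150 lines).  A path `v 0, ..., v (n-1)` of vertices of degree three with edges `c m`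
(between `v (m-1)` and `v m`; `c 0` and `c n` lead out of the path) and `d m` (from `v m` to the
vertex `x m` outside of the path).  If the conclusion of LEMW holds for the labels `x` then the
contraction of `T = {v m} ∪ {x m}` preserves the non-existence of nowhere-zero flows.

Proof.  `Q116.FF.setup` with `C = {c 1, ..., c (n-1)} ∪ {d 0, ..., d (n-1)}`: values `φ` outside `C`,
`B s t (S \ C) φ = 0` outside `T`, sum zero on `T`.  By `cons_cut` (TF/Cub or Four; see `deg_two`
in `Q163/FL/Dom4` for a similar computation) `B s t (S \ C) φ (v m) = 0` for `0 < m < n - 1`, and it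
is `φ (c 0)`, `φ (c n)` for `m = 0`, `n - 1` (if `n = 1` excluded by `2 ≤ n`).  Apply the
hypothesis with `α = φ (c 0)`, `β = φ (c n)`, `p y = B s t (S \ C) φ y` for `y` in the image of `x`
(0 elsewhere).  `Q116.FF.finish` with `ψ (c m) = a m`, `ψ (d m) = a m + a (m + 1)` (as `v` is
injective, the edges are distinct). -/
def S_SOLVE : Prop :=
  ∀ (V E : Type) [Fintype V] [DecidableEq V] [DecidableEq E] (s t : E → V) (S : Finset E)
    (n : ℕ) (v x : ℕ → V) (c d : ℕ → E), 2 ≤ n →
    (∀ i, i < n → ∀ j, j < n → v i = v j → i = j) →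
    (∀ i, i < n → ∀ j, j < n → x i ≠ v j) →
    (∀ m, m + 1 < n → Ends s t (v m) (v (m + 1)) (c (m + 1))) →
    (∀ m, m < n → Ends s t (v m) (x m) (d m)) →
    (∀ m, m < n → cut s t S (fun u => decide (u = v m)) = {c m, c (m + 1), d m}) →
    (∀ m, m < n → c m ≠ c (m + 1) ∧ c m ≠ d m ∧ c (m + 1) ≠ d m) →
    (∀ α β : F, α ≠ 0 → β ≠ 0 → ∀ p : V → F, (∀ y, (∀ m, m < n → x m ≠ y) → p y = 0) →
      ∑ y, p y = α + β →
      ∃ a : ℕ → F, a 0 = α ∧ a n = β ∧ (∀ i, i ≤ n → a i ≠ 0) ∧ (∀ i, i < n → a i ≠ a (i + 1)) ∧
        ∀ y, ∑ m ∈ (range n).filter (fun m => x m = y), (a m + a (m + 1)) = p y) →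
    ∀ a₀ ∈ (range n).image v ∪ (range n).image x,
      NZ (fun e => Q116.FF.mrg ((range n).image v ∪ (range n).image x) a₀ (s e))
        (fun e => Q116.FF.mrg ((range n).image v ∪ (range n).image x) a₀ (t e)) S →
      NZ s t S

/-- The set `X` of vertices meets all circuits which are not loops: each nonempty set of edges which
are not loops and have no end in `X` has a vertex of degree one. -/
def Fb {V E : Type} [DecidableEq V] (s t : E → V) (S : Finset E) (X : Finset V) : Prop :=
  ∀ D ⊆ S, D.Nonempty → (∀ e ∈ D, s e ≠ t e ∧ s e ∉ X ∧ t e ∉ X) →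
    ∃ v, ∑ e ∈ D, ((if s e = v then 1 else 0) + (if t e = v then 1 else 0)) = 1

/-- ORI (80 lines).  Orientation of the forest outside of `X`: each edge `e` gets one of its ends
`c e` (the lower end), different edges get different ends, and the other end has larger rank.

Proof.  Induction on `D ⊆ D₀` (all subsets of the set of the edges in question; say on `D.card`):
a vertex `v` of degree one in `D` is on exactly one edge `e ∈ D` (`e` is not a loop); take `(c, r)`
for `D.erase e` and put `c e = v`, and change the rank: `r' v = 0`, `r' u = r u + 1` for `u ≠ v`.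
`v` is on no edge of `D.erase e`, so `c` stays injective and the ranks stay fine. -/
def S_ORI : Prop :=
  ∀ (V E : Type) [Fintype V] [DecidableEq V] [DecidableEq E] (s t : E → V) (S : Finset E)
    (X : Finset V), Fb s t S X →
    ∃ (c p : E → V) (r : V → ℕ),
      (∀ e ∈ S, s e ≠ t e → s e ∉ X → t e ∉ X → Ends s t (c e) (p e) e ∧ r (c e) < r (p e)) ∧
      ∀ e ∈ S, s e ≠ t e → s e ∉ X → t e ∉ X →
        ∀ e' ∈ S, s e' ≠ t e' → s e' ∉ X → t e' ∉ X → c e = c e' → e = e'

/-- FBQ (100 lines).  The property `Fb` under the identification of a vertex set `T` which meets `X`,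
and of the two ends of an edge outside of `X`.

Proof of (1).  Let `D` be nonempty, without loops in the quotient, no end in `X'`, and no vertex of
degree one in the quotient.  No edge of `D` has an end in `T` (it would be `a ∈ X'`), and none has
an end in `X`; the degrees in `D` are the same before and after.
Proof of (2).  The degrees in `D` are the same except at `u`, `w`; the degree of `u` in the quotient
is the sum `deg u + deg w ≠ 1`, that of `w` is 0.  If neither `deg u` nor `deg w` is 1 then `D`
contradicts `Fb`.  Otherwise, say `deg u = 1`; then `deg w ≥ 1`, and `insert e₀ D` contradicts `Fb`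
(`e₀ ∉ D` since it becomes a loop). -/
def S_FBQ : Prop :=
  ∀ (V E : Type) [Fintype V] [DecidableEq V] [DecidableEq E] (s t : E → V) (S : Finset E)
    (X : Finset V), Fb s t S X →
    (∀ (T : Finset V) (a : V), (T ∩ X).Nonempty → a ∈ T →
      Fb (fun e => Q116.FF.mrg T a (s e)) (fun e => Q116.FF.mrg T a (t e)) S (insert a (X \ T))) ∧
    ∀ u w e₀, u ≠ w → u ∉ X → w ∉ X → e₀ ∈ S → Ends s t u w e₀ →
      Fb (fun e => Q116.FF.mrg {u, w} u (s e)) (fun e => Q116.FF.mrg {u, w} u (t e)) S X

/-- CHAIN (60 lines).  `p` is injective on the elements of `N` with value in `N`, at most `m`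
elements of `N` have value outside of `N`, and no chain `v, p v, ..., p^g v` with `g + 1` elements
stays in `N`.  Then `N` has at most `m * g` elements.

Proof.  `N j = {v ∈ N : v, p v, ..., p^j v ∈ N, p^(j+1) v ∉ N}`.  `p` maps `N (j+1)` injectively
into `N j`, so `(N j).card ≤ (N 0).card ≤ m`, and `N` is the union of `N 0, ..., N (g - 1)`. -/
def S_CHAIN : Prop :=
  ∀ (V : Type) [DecidableEq V] (N : Finset V) (p : V → V) (m g : ℕ),
    (∀ u ∈ N, ∀ w ∈ N, p u ∈ N → p u = p w → u = w) →
    (N.filter (fun u => p u ∉ N)).card ≤ m →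
    (∀ u, ¬ ∀ j, j ≤ g → p^[j] u ∈ N) →
    N.card ≤ m * g

end Pool.Agent.H16.FV
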