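import Mathlib.Algebra.CharP.Two
import Mathlib.Tactic.Abel
import Mathlib.Tactic.Ring
import Pool.Agent.H16.FV.Stm

set_option autoImplicit false

/-!
# Walks with prescribed sums at the labels
-/

namespace Pool.Agent.H16.FV

open Finset Pool.Agent.TH362.TF Pool.Agent.TH362.TF.Four

namespace LEMW

theorem add_self (x : F) : x + x = 0 := by
  revert x
  decide

theorem ne_add {x y : F} (h : x ≠ y) : x + y ≠ 0 := by
  revert h
  revert x y
  decide

theorem add_ne {x y : F} (h : x ≠ 0) : x + y ≠ y := by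
  revert h
  revert x y
  decide

/-- the positions -/
theorem exists_pos (h2 : S_PICK) {V : Type} [DecidableEq V] (l : ℕ → V) (n q : ℕ)
    (hq : ((range (n - 1)).image (ty l)).card ≤ q)
    (hM : ∀ m, m < n - 1 →
      14 * q + 8 ≤ ((range (n - 1)).filter (fun i => ty l i = ty l m)).card) :
    ∃ (J : Finset ℕ) (c : ℕ → F), (∀ j ∈ J, 2 ≤ j ∧ j + 4 ≤ n) ∧
      (∀ j ∈ J, ∀ j' ∈ J, j ≠ j' → j + 4 ≤ j' ∨ j' + 4 ≤ j) ∧ (∀ j ∈ J, c j ≠ 0) ∧
      ∀ m, m + 1 < n → ∃ j₁ ∈ J, ∃ j₂ ∈ J, ty l j₁ = ty l m ∧ ty l j₂ = ty l m ∧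
        c j₁ = (1, 0) ∧ c j₂ = (0, 1) := by
  classical
  set Ty : Finset (Sym2 V) := (range (n - 1)).image (ty l) with hTy
  set Q : Finset (Sym2 V × Bool) := Ty ×ˢ (univ : Finset Bool) with hQ
  set O : Sym2 V × Bool → Finset ℕ := fun P =>
    (range (n - 1)).filter (fun i => ty l i = P.1 ∧ 2 ≤ i ∧ i + 4 ≤ n) with hO
  have hQc : Q.card ≤ 2 * q := by
    rw [hQ, card_product, card_univ, Fintype.card_bool]
    omega
  obtain ⟨j, hj1, hj2⟩ := h2 (Sym2 V × Bool) Q O (by
    intro P hP
    rw [hQ, mem_product] at hP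
    obtain ⟨m, hm, hmP⟩ := mem_image.1 hP.1
    have e1 := hM m (mem_range.1 hm)
    have e2 : (range (n - 1)).filter (fun i => ty l i = ty l m) ⊆
        O P ∪ (({0, 1, n - 3, n - 2} : Finset ℕ)) := by
      intro i hi
      rw [mem_filter, mem_range] at hi
      by_cases h : 2 ≤ i ∧ i + 4 ≤ n
      · refine mem_union_left _ ?_
        rw [hO]
        simp only
        rw [mem_filter, mem_range]
        exact ⟨hi.1, hi.2.trans hmP, h⟩
      · refine mem_union_right _ ?_
        simp only [mem_insert, mem_singleton]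
        omega
    have e3 := (card_le_card e2).trans (card_union_le _ _)
    have e4 : ({0, 1, n - 3, n - 2} : Finset ℕ).card ≤ 4 := card_le_four
    omega)
  have hjO : ∀ P ∈ Q, ty l (j P) = P.1 ∧ 2 ≤ j P ∧ j P + 4 ≤ n := by
    intro P hP
    have := hj1 P hP
    rw [hO] at this
    exact (mem_filter.1 this).2
  have hinj : ∀ P ∈ Q, ∀ P' ∈ Q, j P = j P' → P = P' := by
    intro P hP P' hP' h
    by_contra hne
    rcases hj2 P hP P' hP' hne with h' | h' <;> omega
  refine ⟨Q.image j, fun i => if ∃ P ∈ Ty, j (P, true) = i then (1, 0) else (0, 1), ?_, ?_, ?_, ?_⟩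
  · intro i hi
    obtain ⟨P, hP, rfl⟩ := mem_image.1 hi
    exact (hjO P hP).2
  · intro i hi i' hi' hne
    obtain ⟨P, hP, rfl⟩ := mem_image.1 hi
    obtain ⟨P', hP', rfl⟩ := mem_image.1 hi'
    exact hj2 P hP P' hP' fun h => hne (by rw [h])
  · intro i _
    simp only
    split_ifs <;> decide
  · intro m hm
    have hmT : ty l m ∈ Ty := mem_image.2 ⟨m, mem_range.2 (by omega), rfl⟩
    have hQb : ∀ b : Bool, (ty l m, b) ∈ Q := fun b => mem_product.2 ⟨hmT, mem_univ _⟩
    refine ⟨j (ty l m, true), mem_image_of_mem _ (hQb true), j (ty l m, false),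
      mem_image_of_mem _ (hQb false), (hjO _ (hQb true)).1, (hjO _ (hQb false)).1, ?_, ?_⟩
    · simp only
      rw [if_pos ⟨_, hmT, rfl⟩]
    · simp only
      rw [if_neg]
      rintro ⟨P, hP, h⟩
      have := hinj _ (mem_product.2 ⟨hP, mem_univ true⟩) _ (hQb false) h
      simp at this

theorem telescope (a : ℕ → F) (n : ℕ) : ∑ m ∈ range n, (a m + a (m + 1)) = a 0 + a n := by
  induction n with
  | zero => rw [Finset.sum_range_zero, add_self]
  | succ n ih =>
    rw [Finset.sum_range_succ, ih]
    have := add_self (a n)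
    calc a 0 + a n + (a n + a (n + 1)) = a 0 + (a n + a n) + a (n + 1) := by abel
      _ = a 0 + a (n + 1) := by rw [this, add_zero]

end LEMW

open LEMW in
theorem lemw (h1 : S_WALK) (h2 : S_PICK) (h3 : S_SPAN) : S_LEMW := by
  intro V _ _ l n q hn hq hM α β hα hβ p hp hsum
  classical
  obtain ⟨J, c, hJ1, hJ2, hJ3, hJ4⟩ := exists_pos h2 l n q hq hM
  have hn6 : 6 ≤ n := by
    obtain ⟨j, hj, -⟩ := hJ4 0 (by omega)
    have := hJ1 j hj
    omega
  have hsep : ∀ j ∈ J, ∀ j' ∈ J, j' ≠ j + 1 ∧ j' ≠ j + 2 ∧ j' ≠ j + 3 := by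
    intro j hj j' hj'
    by_cases h : j = j'
    · omega
    · have := hJ2 j hj j' hj' h
      omega
  -- the walk
  set v : ℕ → Option F := fun i => if i = 0 then some α else if i = n then some β else
    if i ∈ J then some (c i) else if 2 ≤ i ∧ i - 2 ∈ J then some (c (i - 2)) else none with hv
  have hv0 : v 0 = some α := by simp [hv]
  have hvn : v n = some β := by
    have : n ≠ 0 := by omega
    simp [hv, this]
  have hvJ : ∀ j ∈ J, v j = some (c j) := by
    intro j hj
    have h4 := hJ1 j hj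
    have h5 : j ≠ 0 := by omega
    have h6 : j ≠ n := by omega
    simp only [hv, h5, h6, hj, if_true, if_false]
  have hvJ2 : ∀ j ∈ J, v (j + 2) = some (c j) := by
    intro j hj
    have h4 := hJ1 j hj
    have h5 : j + 2 ≠ 0 := by omega
    have h6 : j + 2 ≠ n := by omega
    have h7 : j + 2 ∉ J := fun h => (hsep j hj _ h).2.1 rfl
    have h8 : 2 ≤ j + 2 ∧ j + 2 - 2 ∈ J := ⟨by omega, by simpa using hj⟩
    simp only [hv, h5, h6, h7, if_false]
    rw [if_pos h8]
    simp
  obtain ⟨a0, ha1, ha2, ha3⟩ := h1 n v (by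
    intro i x hx
    simp only [hv] at hx
    split_ifs at hx with c1 c2 c3 c4
    · exact (Option.some.inj hx) ▸ hα
    · exact (Option.some.inj hx) ▸ hβ
    · exact (Option.some.inj hx) ▸ hJ3 _ c3
    · exact (Option.some.inj hx) ▸ hJ3 _ c4.2) (by
    intro i hi
    have hi' : i = 0 ∨ i = n ∨ i ∈ J ∨ (2 ≤ i ∧ i - 2 ∈ J) := by
      by_contra hcon
      push Not at hcon
      obtain ⟨c1, c2, c3, c4⟩ := hcon
      have : v i = none := by
        simp only [hv, c1, c2, c3, if_false]
        rw [if_neg]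
        rintro ⟨c5, c6⟩
        exact c4 c5 c6
      rw [this] at hi
      simp at hi
    have key : i + 1 ≠ 0 ∧ i + 1 ≠ n ∧ i + 1 ∉ J ∧ ¬ (2 ≤ i + 1 ∧ i + 1 - 2 ∈ J) := by
      refine ⟨by omega, ?_, ?_, ?_⟩
      · rcases hi' with c1 | c1 | c1 | c1
        · omega
        · omega
        · have := hJ1 _ c1
          omega
        · have := hJ1 _ c1.2
          omega
      · intro hmem
        have e0 := hJ1 _ hmem
        rcases hi' with c1 | c1 | c1 | c1
        · omega
        · omega
        · exact (hsep _ c1 _ hmem).1 rfl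
        · exact (hsep _ c1.2 _ hmem).2.2 (by omega)
      · rintro ⟨e1, hmem⟩
        have e0 := hJ1 _ hmem
        rcases hi' with c1 | c1 | c1 | c1
        · omega
        · omega
        · exact (hsep _ hmem _ c1).1 (by omega)
        · exact (hsep _ c1.2 _ hmem).1 (by omega)
    simp only [hv]
    rw [if_neg key.1, if_neg key.2.1, if_neg key.2.2.1, if_neg key.2.2.2])
  have ha0 : a0 0 = α := ha3 0 (by omega) _ hv0
  have han : a0 n = β := ha3 n le_rfl _ hvn
  have haJ : ∀ j ∈ J, a0 j = c j := fun j hj => ha3 j (by have := hJ1 j hj; omega) _ (hvJ j hj)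
  have haJ2 : ∀ j ∈ J, a0 (j + 2) = c j := fun j hj =>
    ha3 (j + 2) (by have := hJ1 j hj; omega) _ (hvJ2 j hj)
  -- the corrections
  set p0 : V → F := fun y => ∑ m ∈ (range n).filter (fun m => l m = y), (a0 m + a0 (m + 1))
    with hp0
  obtain ⟨θ, hθ⟩ := h3 V l n J c (by omega) hJ4 (fun y => p y + p0 y) (by
    intro y hy
    rw [hp y hy, zero_add]
    simp only [hp0]
    rw [Finset.filter_false_of_mem, Finset.sum_empty]
    intro m hm
    exact hy m (mem_range.1 hm)) (by
    rw [Finset.sum_add_distrib, hsum]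
    have e1 : ∑ y, p0 y = ∑ m ∈ range n, (a0 m + a0 (m + 1)) := by
      simp only [hp0]
      rw [Finset.sum_fiberwise_eq_sum_filter]
      simp
    rw [e1, telescope, ha0, han]
    exact add_self _)
  set δ : ℕ → F := fun i => if 1 ≤ i ∧ i - 1 ∈ J then θ (i - 1) • c (i - 1) else 0 with hδ
  have hδJ : ∀ j ∈ J, δ (j + 1) = θ j • c j := by
    intro j hj
    have : 1 ≤ j + 1 ∧ j + 1 - 1 ∈ J := ⟨by omega, by simpa using hj⟩
    simp only [hδ]
    rw [if_pos this]
    simp
  have hδN : ∀ i, (∀ j ∈ J, i ≠ j + 1) → δ i = 0 := by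
    intro i hi
    simp only [hδ]
    rw [if_neg]
    rintro ⟨e1, e2⟩
    exact hi _ e2 (by omega)
  have hδj : ∀ j ∈ J, δ j = 0 := fun j hj => hδN j fun j' hj' => (hsep j' hj' j hj).1
  have hδj2 : ∀ j ∈ J, δ (j + 2) = 0 := fun j hj => hδN _ fun j' hj' h =>
    (hsep j hj j' hj').1 (by omega)
  have hθ2 : ∀ j, θ j = 0 ∨ θ j = 1 := fun j => by
    generalize θ j = t
    revert t
    decide
  refine ⟨fun i => a0 i + δ i, ?_, ?_, ?_, ?_, ?_⟩
  · simp only
    rw [ha0, hδN 0 (fun j _ => by omega), add_zero]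
  · simp only
    rw [han, hδN n (fun j hj => by have := hJ1 j hj; omega), add_zero]
  · intro i hi
    simp only
    by_cases h : ∃ j ∈ J, i = j + 1
    · obtain ⟨j, hj, rfl⟩ := h
      rw [hδJ j hj]
      have e1 : a0 j ≠ a0 (j + 1) := ha2 j (by omega)
      rw [haJ j hj] at e1
      rcases hθ2 j with e | e
      · rw [e, zero_smul, add_zero]
        exact ha1 _ hi
      · rw [e, one_smul]
        exact ne_add (fun h => e1 h.symm)
    · push Not at h
      rw [hδN i h, add_zero]
      exact ha1 i hi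
  · intro i hi
    simp only
    by_cases h : i ∈ J
    · rw [hδj i h, add_zero, hδJ i h, haJ i h]
      have e1 : a0 i ≠ a0 (i + 1) := ha2 i hi
      rw [haJ i h] at e1
      rcases hθ2 i with e | e
      · rw [e, zero_smul, add_zero]
        exact e1
      · rw [e, one_smul]
        exact (add_ne (ha1 _ (by omega))).symm
    · by_cases h' : ∃ j ∈ J, i = j + 1
      · obtain ⟨j, hj, rfl⟩ := h'
        rw [hδJ j hj, show j + 1 + 1 = j + 2 by ring, hδj2 j hj, add_zero, haJ2 j hj]
        have e1 : a0 (j + 1) ≠ a0 (j + 2) := ha2 (j + 1) hi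
        rw [haJ2 j hj] at e1
        rcases hθ2 j with e | e
        · rw [e, zero_smul, add_zero]
          exact e1
        · rw [e, one_smul]
          exact add_ne (ha1 _ (by omega))
      · push Not at h'
        rw [hδN i h', hδN (i + 1) (fun j hj hij => h (by
          have : i = j := by omega
          rwa [this])), add_zero, add_zero]
        exact ha2 i hi
  · intro y
    have e1 : ∑ m ∈ (range n).filter (fun m => l m = y), (a0 m + δ m + (a0 (m + 1) + δ (m + 1))) =
        p0 y + (∑ m ∈ (range n).filter (fun m => l m = y), δ m +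
          ∑ m ∈ (range n).filter (fun m => l m = y), δ (m + 1)) := by
      simp only [hp0]
      rw [← Finset.sum_add_distrib, ← Finset.sum_add_distrib]
      refine Finset.sum_congr rfl fun m _ => ?_
      abel
    have e2 : ∑ m ∈ (range n).filter (fun m => l m = y), δ (m + 1) =
        ∑ j ∈ J, θ j • (if l j = y then c j else 0) := by
      rw [Finset.sum_filter, ← Finset.sum_subset (s₁ := J)]
      · refine Finset.sum_congr rfl fun j hj => ?_
        rw [hδJ j hj]
        split_ifs <;> simp
      · intro j hj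
        have := hJ1 j hj
        exact mem_range.2 (by omega)
      · intro m _ hm
        rw [hδN (m + 1) (fun j hj hij => hm (by
          have : m = j := by omega
          rwa [this]))]
        simp
    have e3 : ∑ m ∈ (range n).filter (fun m => l m = y), δ m =
        ∑ j ∈ J, θ j • (if l (j + 1) = y then c j else 0) := by
      rw [Finset.sum_filter, ← Finset.sum_subset (s₁ := J.image (· + 1))]
      · rw [Finset.sum_image (fun a _ b _ h => by simpa using h)]
        refine Finset.sum_congr rfl fun j hj => ?_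
        rw [hδJ j hj]
        split_ifs <;> simp
      · intro i hi
        obtain ⟨j, hj, rfl⟩ := mem_image.1 hi
        have := hJ1 j hj
        exact mem_range.2 (by omega)
      · intro m _ hm
        rw [hδN m (fun j hj hij => hm (mem_image.2 ⟨j, hj, hij.symm⟩))]
        simp
    have e4 : p y = p0 y + (∑ j ∈ J, θ j • (if l (j + 1) = y then c j else 0) +
        ∑ j ∈ J, θ j • (if l j = y then c j else 0)) := by
      have e5 := hθ y
      simp only [smul_add, Finset.sum_add_distrib] at e5
      rw [add_comm (∑ j ∈ J, θ j • (if l (j + 1) = y then c j else 0)), ← e5]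
      have := add_self (p0 y)
      calc p y = p y + 0 := (add_zero _).symm
        _ = p0 y + (p y + p0 y) := by rw [← this]; abel
    rw [e4]
    simp only
    rw [e1, e2, e3]

end Pool.Agent.H16.FV
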