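import Pool.Agent.H16.FV.Stm

/-!
Greedy choice of elements with distances at least four (stub FV-PICK).
-/

set_option autoImplicit false

namespace Pool.Agent.H16.FV

open Finset

theorem pick : S_PICK := by
  intro ι _ Q O
  induction Q using Finset.induction_on with
  | empty => exact fun _ => ⟨fun _ => 0, by simp, by simp⟩
  | insert q0 Q hq ih =>
    intro h
    have hc : (insert q0 Q).card = Q.card + 1 := card_insert_of_notMem hq
    obtain ⟨j, hj1, hj2⟩ := ih (fun q hq' => by
      have := h q (mem_insert_of_mem hq'); omega)
    have hb : (Q.biUnion (fun q => Icc (j q - 3) (j q + 3))).card ≤ 7 * Q.card := by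
      calc (Q.biUnion (fun q => Icc (j q - 3) (j q + 3))).card
          ≤ ∑ q ∈ Q, (Icc (j q - 3) (j q + 3)).card := card_biUnion_le
        _ ≤ ∑ q ∈ Q, 7 := sum_le_sum (fun q _ => by rw [Nat.card_Icc]; omega)
        _ = 7 * Q.card := by rw [sum_const, smul_eq_mul, Nat.mul_comm]
    have hex : ∃ x ∈ O q0, x ∉ Q.biUnion (fun q => Icc (j q - 3) (j q + 3)) := by
      by_contra hcon
      push Not at hcon
      have h1 := card_le_card (show O q0 ⊆ Q.biUnion (fun q => Icc (j q - 3) (j q + 3)) from hcon)
      have h2 := h q0 (mem_insert_self _ _)
      omega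
    obtain ⟨x, hx, hxb⟩ := hex
    have hfar : ∀ q ∈ Q, j q + 4 ≤ x ∨ x + 4 ≤ j q := by
      intro q hq'
      by_contra hcon
      apply hxb
      rw [mem_biUnion]
      refine ⟨q, hq', ?_⟩
      rw [mem_Icc]
      omega
    have hne : ∀ q ∈ Q, q ≠ q0 := fun q hq' h' => hq (h' ▸ hq')
    refine ⟨fun q => if q = q0 then x else j q, ?_, ?_⟩
    · intro q hq'
      by_cases h0 : q = q0
      · subst h0
        simpa using hx
      · simp only [h0, if_false]
        rcases mem_insert.1 hq' with h1 | h1
        · exact absurd h1 h0
        · exact hj1 q h1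
    · intro q hq' q' hq'' hqq
      by_cases h0 : q = q0
      · by_cases h1 : q' = q0
        · exact absurd (h0.trans h1.symm) hqq
        · simp only [h0, h1, if_true, if_false]
          rcases mem_insert.1 hq'' with h2 | h2
          · exact absurd h2 h1
          · exact (hfar q' h2).symm
      · have hqQ : q ∈ Q := by
          rcases mem_insert.1 hq' with h2 | h2
          · exact absurd h2 h0
          · exact h2
        by_cases h1 : q' = q0
        · simp only [h0, h1, if_true, if_false]
          exact hfar q hqQ
        · simp only [h0, h1, if_false]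
          have hqQ' : q' ∈ Q := by
            rcases mem_insert.1 hq'' with h2 | h2
            · exact absurd h2 h1
            · exact h2
          exact hj2 q hqQ q' hqQ' hqq

end Pool.Agent.H16.FV
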