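import Pool.Agent.H16.FV.Stm
import Mathlib.LinearAlgebra.Finsupp.LinearCombination
import Mathlib.LinearAlgebra.Span.Basic

/-! # Project FV, stub FV-SPAN (helper82) -/

set_option autoImplicit false

namespace Pool.Agent.H16.FV

open Finset Pool.Agent.TH362.TF Pool.Agent.TH362.TF.Four

/-- the vector with value `z` at `y` -/
def dl {V : Type} [DecidableEq V] (y : V) (z : F) : V → F := fun y' => if y = y' then z else 0

lemma dl_add {V : Type} [DecidableEq V] (y : V) (z w : F) : dl y (z + w) = dl y z + dl y w := by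
  funext y'
  by_cases h : y = y' <;> simp [dl, h]

lemma dl_smul {V : Type} [DecidableEq V] (y : V) (a : ZMod 2) (z : F) :
    dl y (a • z) = a • dl y z := by
  funext y'
  by_cases h : y = y' <;> simp [dl, h]

lemma dl_zero {V : Type} [DecidableEq V] (y : V) : dl y (0 : F) = 0 := by
  funext y'
  simp [dl]

lemma ff_add_self : ∀ z : F, z + z = 0 := by decide

lemma ff_split : ∀ z : F, z = z.1 • ((1, 0) : F) + z.2 • ((0, 1) : F) := by decide

lemma fun_add_self {V : Type} (f : V → F) : f + f = 0 := by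
  funext y
  exact ff_add_self (f y)

theorem span : S_SPAN := by
  intro V _ _ l n J c hn hJ p hp hsum
  let w : ℕ → V → F := fun j => dl (l j) (c j) + dl (l (j + 1)) (c j)
  let D : Submodule (ZMod 2) (V → F) := Submodule.span (ZMod 2) (w '' (J : Set ℕ))
  have hw : ∀ j ∈ J, w j ∈ D := fun j hj => Submodule.subset_span ⟨j, hj, rfl⟩
  have hedge1 : ∀ m j (z : F), j ∈ J → ty l j = ty l m → c j = z →
      dl (l m) z + dl (l (m + 1)) z ∈ D := by
    intro m j z hj hty hc
    have h1 := hw j hj
    simp only [w] at h1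
    rw [hc] at h1
    unfold ty at hty
    rw [Sym2.eq_iff] at hty
    rcases hty with ⟨h2, h3⟩ | ⟨h2, h3⟩
    · rwa [h2, h3] at h1
    · rw [h2, h3, add_comm] at h1
      exact h1
  have hedge : ∀ m, m + 1 < n → ∀ z : F, dl (l m) z + dl (l (m + 1)) z ∈ D := by
    intro m hm z
    obtain ⟨j₁, hj₁, j₂, hj₂, h1, h2, h3, h4⟩ := hJ m hm
    have e1 := D.smul_mem z.1 (hedge1 m j₁ _ hj₁ h1 h3)
    have e2 := D.smul_mem z.2 (hedge1 m j₂ _ hj₂ h2 h4)
    have e3 : dl (l m) z + dl (l (m + 1)) z =
        z.1 • (dl (l m) ((1, 0) : F) + dl (l (m + 1)) (1, 0)) +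
        z.2 • (dl (l m) ((0, 1) : F) + dl (l (m + 1)) (0, 1)) := by
      conv_lhs => rw [ff_split z]
      rw [dl_add, dl_add, dl_smul, dl_smul, dl_smul, dl_smul, smul_add, smul_add]
      abel
    rw [e3]
    exact D.add_mem e1 e2
  have hpath : ∀ m, m < n → ∀ z : F, dl (l 0) z + dl (l m) z ∈ D := by
    intro m
    induction m with
    | zero =>
      intro _ z
      rw [fun_add_self]
      exact D.zero_mem
    | succ m ih =>
      intro hm z
      have h1 := D.add_mem (ih (by omega) z) (hedge m hm z)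
      have h2 : dl (l 0) z + dl (l m) z + (dl (l m) z + dl (l (m + 1)) z) =
          dl (l 0) z + (dl (l m) z + dl (l m) z) + dl (l (m + 1)) z := by abel
      rw [h2, fun_add_self, add_zero] at h1
      exact h1
  have hdecomp : p = ∑ y, (dl (l 0) (p y) + dl y (p y)) := by
    rw [Finset.sum_add_distrib]
    have h1 : ∑ y, dl (l 0) (p y) = 0 := by
      funext y'
      rw [Finset.sum_apply]
      by_cases h : l 0 = y'
      · simp only [dl, h, if_true]
        simpa using hsum
      · simp [dl, h]
    have h2 : ∑ y, dl y (p y) = p := by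
      funext y'
      rw [Finset.sum_apply]
      simp [dl]
    rw [h1, h2, zero_add]
  have hpD : p ∈ D := by
    rw [hdecomp]
    refine D.sum_mem fun y _ => ?_
    by_cases h : ∃ m, m < n ∧ l m = y
    · obtain ⟨m, hm, rfl⟩ := h
      exact hpath m hm _
    · push Not at h
      rw [hp y h, dl_zero, dl_zero, add_zero]
      exact D.zero_mem
  obtain ⟨θ, hθ⟩ := (Submodule.mem_span_image_finset_iff_exists_fun' (ZMod 2)).1 hpD
  refine ⟨θ, fun y => ?_⟩
  rw [← hθ, Finset.sum_apply]
  rfl

end Pool.Agent.H16.FV
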