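import Pool.Agent.H16.FV.Stm

/-! # Project FV, stub FV-WALK (helper82) -/

set_option autoImplicit false

namespace Pool.Agent.H16.FV

open Finset Pool.Agent.TH362.TF Pool.Agent.TH362.TF.Four

lemma walk_pick : ∀ x y : F, ∃ b : F, b ≠ 0 ∧ b ≠ x ∧ b ≠ y := by decide

lemma walk_pick' (x : F) (o : Option F) : ∃ b : F, b ≠ 0 ∧ b ≠ x ∧ ∀ y, o = some y → b ≠ y := by
  cases o with
  | none =>
    obtain ⟨b, h1, h2, _⟩ := walk_pick x 0
    exact ⟨b, h1, h2, by simp⟩
  | some y =>
    obtain ⟨b, h1, h2, h3⟩ := walk_pick x y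
    refine ⟨b, h1, h2, fun z hz => ?_⟩
    cases hz
    exact h3

lemma walk_aux (v : ℕ → Option F) (hv : ∀ i x, v i = some x → x ≠ 0)
    (hn : ∀ i, (v i).isSome → v (i + 1) = none) (n : ℕ) :
    ∃ a : ℕ → F, (∀ i, i ≤ n → a i ≠ 0) ∧ (∀ i, i < n → a i ≠ a (i + 1)) ∧
      (∀ i, i ≤ n → ∀ x, v i = some x → a i = x) ∧ ∀ x, v (n + 1) = some x → a n ≠ x := by
  induction n with
  | zero =>
    cases h0 : v 0 with
    | none =>
      obtain ⟨b, h1, _, h3⟩ := walk_pick' 0 (v 1)
      refine ⟨fun _ => b, fun i _ => h1, fun i hi => absurd hi (Nat.not_lt_zero i), ?_, ?_⟩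
      · intro i hi x hx
        obtain rfl : i = 0 := by omega
        rw [h0] at hx
        cases hx
      · intro x hx
        exact h3 x hx
    | some z =>
      refine ⟨fun _ => z, fun i _ => hv 0 z h0, fun i hi => absurd hi (Nat.not_lt_zero i), ?_, ?_⟩
      · intro i hi x hx
        obtain rfl : i = 0 := by omega
        rw [h0] at hx
        cases hx
        rfl
      · intro x hx
        rw [hn 0 (by rw [h0]; rfl)] at hx
        cases hx
  | succ n ih =>
    obtain ⟨a, h1, h2, h3, h4⟩ := ih
    have key : ∃ b : F, b ≠ 0 ∧ a n ≠ b ∧ (∀ x, v (n + 1) = some x → b = x) ∧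
        ∀ x, v (n + 1 + 1) = some x → b ≠ x := by
      cases h0 : v (n + 1) with
      | none =>
        obtain ⟨b, g1, g2, g3⟩ := walk_pick' (a n) (v (n + 1 + 1))
        exact ⟨b, g1, g2.symm, by simp, g3⟩
      | some z =>
        refine ⟨z, hv _ z h0, h4 z h0, ?_, ?_⟩
        · intro x hx
          cases hx
          rfl
        · intro x hx
          rw [hn (n + 1) (by rw [h0]; rfl)] at hx
          cases hx
    obtain ⟨b, g1, g2, g3, g4⟩ := key
    refine ⟨fun i => if i ≤ n then a i else b, ?_, ?_, ?_, ?_⟩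
    · intro i _
      by_cases h : i ≤ n
      · simp only [h, if_true]
        exact h1 i h
      · simp only [h, if_false]
        exact g1
    · intro i hi
      by_cases h : i + 1 ≤ n
      · have h' : i ≤ n := by omega
        simp only [h, h', if_true]
        exact h2 i (by omega)
      · obtain rfl : i = n := by omega
        simp only [le_refl, if_true, h, if_false]
        exact g2
    · intro i hi x hx
      by_cases h : i ≤ n
      · simp only [h, if_true]
        exact h3 i h x hx
      · obtain rfl : i = n + 1 := by omega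
        simp only [h, if_false]
        exact g3 x hx
    · intro x hx
      have h : ¬ n + 1 ≤ n := by omega
      simp only [h, if_false]
      exact g4 x hx

theorem walk : S_WALK := by
  intro n v hv hn
  obtain ⟨a, h1, h2, h3, _⟩ := walk_aux v hv hn n
  exact ⟨a, h1, h2, h3⟩

end Pool.Agent.H16.FV
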