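import Pool.Agent.H16.FV.Cnt
import Pool.Agent.H16.FV.LEMW
import Pool.Agent.H16.FV.Walk
import Pool.Agent.H16.FV.Pick
import Pool.Agent.H16.FV.Span

/-!
The kernel theorem.
-/

set_option autoImplicit false

namespace Pool.Agent.H16.FV

open Finset Pool.Agent.TH362.TF Pool.Agent.TH362.TF.Four Q116.FF

variable {V E : Type} [Fintype V] [DecidableEq V] [DecidableEq E]

/-- the bound for the number of the vertices -/
def Bd (k : ℕ) : ℕ := k + 2 * k * (k - 1) * (7 * k ^ 2 + 7 * k + 9) ^ (k * (k + 1) / 2)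

theorem G_le (M r : ℕ) : G M r + 1 ≤ 2 * (M + 1) ^ r := by
  induction r with
  | zero => simp [G]
  | succ r ih =>
    have h1 : G M (r + 1) + 1 ≤ (M + 1) * (G M r + 1) := by
      show M * (G M r + 1) + 1 ≤ _
      nlinarith
    calc G M (r + 1) + 1 ≤ (M + 1) * (G M r + 1) := h1
      _ ≤ (M + 1) * (2 * (M + 1) ^ r) := Nat.mul_le_mul_left _ ih
      _ = 2 * (M + 1) ^ (r + 1) := by ring

theorem le_Bd (k : ℕ) : k + 2 * k.choose 2 * (G (Mq ((k + 1).choose 2)) ((k + 1).choose 2) + 1) ≤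
    Bd k := by
  have h1 : 2 * k.choose 2 = k * (k - 1) := by
    rw [Nat.choose_two_right]
    exact Nat.mul_div_cancel' (Nat.even_mul_pred_self k).two_dvd
  have h2 : 2 * (k + 1).choose 2 = k * (k + 1) := by
    rw [Nat.choose_two_right, Nat.add_sub_cancel, mul_comm (k + 1) k]
    exact Nat.mul_div_cancel' (Nat.even_mul_succ_self k).two_dvd
  have h3 : (k + 1).choose 2 = k * (k + 1) / 2 := by
    rw [← h2]; omega
  have h4 : Mq ((k + 1).choose 2) + 1 = 7 * k ^ 2 + 7 * k + 9 := by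
    unfold Mq
    have : 14 * (k + 1).choose 2 = 7 * (k * (k + 1)) := by rw [← h2]; ring
    rw [this]; ring
  have h5 := G_le (Mq ((k + 1).choose 2)) ((k + 1).choose 2)
  rw [h4] at h5
  unfold Bd
  rw [← h3, h1]
  refine Nat.add_le_add_left ?_ k
  calc k * (k - 1) * (G (Mq ((k + 1).choose 2)) ((k + 1).choose 2) + 1) ≤
      k * (k - 1) * (2 * (7 * k ^ 2 + 7 * k + 9) ^ (k + 1).choose 2) := Nat.mul_le_mul_left _ h5
    _ = 2 * k * (k - 1) * (7 * k ^ 2 + 7 * k + 9) ^ (k + 1).choose 2 := by ring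

theorem nz_quot {s t : E → V} {S : Finset E} (f : V → V) (h : NZ s t S) :
    NZ (fun e => f (s e)) (fun e => f (t e)) S := by
  obtain ⟨φ, h1, h2⟩ := h
  refine ⟨φ, h1, fun v => ?_⟩
  show B (fun e => f (s e)) (fun e => f (t e)) S φ v = 0
  rw [B_quot]
  exact sum_eq_zero fun u _ => h2 u

/-- The kernel theorem. -/
theorem kern {s t : E → V} {S : Finset E} (hn : N1 s t S) {k : ℕ} {X : Finset V}
    (hX : X.card ≤ k) (hF : Fb s t S X) :
    ∃ f : V → V, CC s t S f ∧
      (NZ (fun e => f (s e)) (fun e => f (t e)) S ↔ NZ s t S) ∧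
      (∃ X' : Finset V, X'.card ≤ k ∧ Rd (fun e => f (s e)) (fun e => f (t e)) S X') ∧
      (∀ a b c, a ≠ b → b ≠ c → c ≠ a → ∀ e1 ∈ S, ∀ e2 ∈ S, ∀ e3 ∈ S,
        Ends (fun e => f (s e)) (fun e => f (t e)) a b e1 →
        Ends (fun e => f (s e)) (fun e => f (t e)) b c e2 →
        Ends (fun e => f (s e)) (fun e => f (t e)) c a e3 → False) ∧
      (univ.filter (fun v => (cut (fun e => f (s e)) (fun e => f (t e)) S
        (fun u => decide (u = v))).Nonempty)).card ≤ Bd k := by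
  classical
  obtain ⟨f, hf⟩ := exists_mn hX hF
  have hq : N1 (fun e => f (s e)) (fun e => f (t e)) S :=
    quot_n1 (Subset.refl S) (fun e h1 h2 => absurd h1 h2) hn
  obtain ⟨X', hX', hF'⟩ := hf.fb
  have hR : Rd (fun e => f (s e)) (fun e => f (t e)) S X' := by
    refine ⟨?_, ?_, ?_, hF', ?_⟩
    · intro a b e e' hab he he' k1 k2
      exact hf.par hab he he' k1 k2
    · intro a b c d hab hbc hcd hda hac hbd e1 m1 e2 m2 e3 m3 e4 m4 k1 k2 k3 k4
      exact hf.quad hab hbc hcd hda hac hbd m1 m2 m3 m4 k1 k2 k3 k4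
    · intro v hv
      have h1 := hq (fun u => decide (u = v))
      have h2 := hf.deg2 v
      have h3 := card_pos.2 hv
      omega
    · intro n v x c d hP hx hW
      exact hf.path hX' hF' hP hx hW
  refine ⟨f, hf.cc, ⟨hf.nz, nz_quot f⟩, ⟨X', hX', hR⟩, ?_, ?_⟩
  · intro a b c hab hbc hca e1 m1 e2 m2 e3 m3 k1 k2 k3
    exact hf.tri hab hbc hca m1 m2 m3 k1 k2 k3
  · exact (hR.count (lemw walk pick span) hX').trans (le_Bd k)

end Pool.Agent.H16.FV
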