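import Pool.Agent.H16.FV.Str

/-!
Minimal contractions: no long paths of vertices of degree three which are attached to `X`.
-/

set_option autoImplicit false

namespace Pool.Agent.H16.FV

open Finset Pool.Agent.TH362.TF Pool.Agent.TH362.TF.Four Q116.FF

variable {V E : Type} [Fintype V] [DecidableEq V] [DecidableEq E]

/-- the conclusion of the lemma LEMW -/
def WalkSum {V : Type} [DecidableEq V] [Fintype V] (n : ℕ) (x : ℕ → V) : Prop :=
  ∀ α β : F, α ≠ 0 → β ≠ 0 → ∀ p : V → F, (∀ y, (∀ m, m < n → x m ≠ y) → p y = 0) →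
      ∑ y, p y = α + β →
      ∃ a : ℕ → F, a 0 = α ∧ a n = β ∧ (∀ i, i ≤ n → a i ≠ 0) ∧ (∀ i, i < n → a i ≠ a (i + 1)) ∧
        ∀ y, ∑ m ∈ (range n).filter (fun m => x m = y), (a m + a (m + 1)) = p y

/-- a path of vertices of degree three -/
structure Pa (s t : E → V) (S : Finset E) (n : ℕ) (v x : ℕ → V) (c d : ℕ → E) : Prop where
  two : 2 ≤ n
  inj : ∀ i, i < n → ∀ j, j < n → v i = v j → i = j
  hx : ∀ i, i < n → ∀ j, j < n → x i ≠ v j
  hc : ∀ m, m + 1 < n → Ends s t (v m) (v (m + 1)) (c (m + 1))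
  hd : ∀ m, m < n → Ends s t (v m) (x m) (d m)
  hcut : ∀ m, m < n → cut s t S (fun u => decide (u = v m)) = {c m, c (m + 1), d m}
  h3 : ∀ m, m < n → c m ≠ c (m + 1) ∧ c m ≠ d m ∧ c (m + 1) ≠ d m

theorem Mn.path {s t : E → V} {S : Finset E} {k : ℕ} {f : V → V} (h : Mn s t S k f)
    {X : Finset V} (hX : X.card ≤ k) (hF : Fb (fun e => f (s e)) (fun e => f (t e)) S X)
    {n : ℕ} {v x : ℕ → V} {c d : ℕ → E}
    (hP : Pa (fun e => f (s e)) (fun e => f (t e)) S n v x c d) (hxX : ∀ m, m < n → x m ∈ X)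
    (hW : WalkSum n x) : False := by
  classical
  obtain ⟨hn, hv, hx, hc, hd, hcut, h3⟩ := hP
  have h0 : v 0 ∈ (range n).image v ∪ (range n).image x :=
    mem_union_left _ (mem_image_of_mem _ (mem_range.2 (by omega)))
  have vT : ∀ m, m < n → v m ∈ (range n).image v ∪ (range n).image x := fun m hm =>
    mem_union_left _ (mem_image_of_mem _ (mem_range.2 hm))
  have xT : ∀ m, m < n → x m ∈ (range n).image v ∪ (range n).image x := fun m hm =>
    mem_union_right _ (mem_image_of_mem _ (mem_range.2 hm))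
  have mS : ∀ m, m < n → c m ∈ S ∧ c (m + 1) ∈ S ∧ d m ∈ S := by
    intro m hm
    have key : ∀ e, (e = c m ∨ e = c (m + 1) ∨ e = d m) → e ∈ S := by
      intro e he
      have h1 : e ∈ cut (fun e => f (s e)) (fun e => f (t e)) S (fun u => decide (u = v m)) := by
        rw [hcut m hm]
        simp only [mem_insert, mem_singleton]
        exact he
      unfold cut at h1
      exact (mem_filter.1 h1).1
    exact ⟨key _ (Or.inl rfl), key _ (Or.inr (Or.inl rfl)), key _ (Or.inr (Or.inr rfl))⟩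
  have hreach : ∀ m, m < n → Relation.ReflTransGen (fun y z =>
      y ∈ (range n).image v ∪ (range n).image x ∧ z ∈ (range n).image v ∪ (range n).image x ∧
        ∃ e ∈ S, Ends (fun e => f (s e)) (fun e => f (t e)) y z e) (v 0) (v m) := by
    intro m
    induction m with
    | zero => exact fun _ => Relation.ReflTransGen.refl
    | succ m ih =>
      intro hm
      exact (ih (by omega)).tail ⟨vT _ (by omega), vT _ hm, c (m + 1), (mS m (by omega)).2.1,
        hc m hm⟩
  have hT : CT (fun e => f (s e)) (fun e => f (t e)) S ((range n).image v ∪ (range n).image x) := by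
    apply ct_root (r := v 0)
    intro u hu
    rcases mem_union.1 hu with hu | hu
    · obtain ⟨m, hm, rfl⟩ := mem_image.1 hu
      exact hreach m (mem_range.1 hm)
    · obtain ⟨m, hm, rfl⟩ := mem_image.1 hu
      have hm' := mem_range.1 hm
      exact (hreach m hm').tail ⟨vT _ hm', xT _ hm', d m, (mS m hm').2.2, hd m hm'⟩
  refine h.no (a := v 0) h0 hT (fb_meet hF hX h0 ⟨x 0, mem_inter.2 ⟨xT 0 (by omega),
    hxX 0 (by omega)⟩⟩) (mS 0 (by omega)).2.1 (x := v 0) (y := v 1) ?_ h0 (vT 1 (by omega))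
    (hc 0 (by omega)) ?_
  · intro h4
    have := hv 0 (by omega) 1 (by omega) h4
    omega
  · exact solve V E _ _ S n v x c d hn hv hx hc hd hcut h3 hW (v 0) h0

end Pool.Agent.H16.FV
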