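import Pool.Agent.H16.FV.Conv

/-!
Circuits with at most four edges, restriction to the essential part, Petersen minors.
-/

set_option autoImplicit false

namespace Pool.Agent.H16.FV

open Finset Pool.Agent.TH362.TF Pool.Agent.TH362.TF.Four Q116.FF

section girth
variable {V E : Type} [Fintype V] [DecidableEq V] [DecidableEq E]

theorem other {s t : E → V} {C : Finset E} (hC : ∀ v, Even (dg s t C v))
    (hl : ∀ e ∈ C, s e ≠ t e) {e : E} (he : e ∈ C) {v u : V} (hvu : v ≠ u)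
    (k : Ends s t v u e) : ∃ e' ∈ C, e' ≠ e ∧ ∃ w, w ≠ v ∧ Ends s t v w e' := by
  by_contra hcon
  push Not at hcon
  have h1 : dg s t C v = 1 := by
    unfold dg
    rw [← add_sum_erase C _ he]
    have h2 : ((if s e = v then 1 else 0) + (if t e = v then 1 else 0) : ℕ) = 1 := by
      rw [dg_ends k]
      simp [hvu.symm]
    rw [h2]
    refine Nat.add_eq_left.2 (sum_eq_zero fun e' he' => ?_)
    rw [mem_erase] at he'
    have h3 : s e' ≠ v := fun h4 => hcon e' he'.2 he'.1 (t e')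
      (fun h5 => hl e' he'.2 (h4.trans h5.symm)) (Or.inl ⟨h4, rfl⟩)
    have h4 : t e' ≠ v := fun h4 => hcon e' he'.2 he'.1 (s e')
      (fun h5 => hl e' he'.2 (h5.trans h4.symm)) (Or.inr ⟨rfl, h4⟩)
    rw [if_neg h3, if_neg h4, add_zero]
  have h2 := hC v
  rw [h1] at h2
  exact absurd h2 (by decide)

theorem girth {s t : E → V}
    (hpar : ∀ a b e e', a ≠ b → Ends s t a b e → Ends s t a b e' → e = e')
    (htri : ∀ a b c, a ≠ b → b ≠ c → c ≠ a → ∀ e1 e2 e3, Ends s t a b e1 → Ends s t b c e2 →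
      Ends s t c a e3 → False)
    (hquad : ∀ a b c d, a ≠ b → b ≠ c → c ≠ d → d ≠ a → a ≠ c → b ≠ d → ∀ e1 e2 e3 e4,
      Ends s t a b e1 → Ends s t b c e2 → Ends s t c d e3 → Ends s t d a e4 → False)
    {C : Finset E} (hne : C.Nonempty) (hC : ∀ v, Even (dg s t C v))
    (hl : ∀ e ∈ C, s e ≠ t e) : 5 ≤ C.card := by
  obtain ⟨e1, m1⟩ := hne
  have hab : s e1 ≠ t e1 := hl e1 m1
  generalize ha : s e1 = a at hab
  generalize hb : t e1 = b at hab
  have k1 : Ends s t a b e1 := Or.inl ⟨ha, hb⟩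
  obtain ⟨e2, m2, n21, c, hcb, k2⟩ := other hC hl m1 hab.symm (ends_sy k1)
  have hca : c ≠ a := by
    rintro rfl
    exact n21 (hpar _ _ _ _ hcb k1 (ends_sy k2)).symm
  obtain ⟨e3, m3, n32, d, hdc, k3⟩ := other hC hl m2 hcb (ends_sy k2)
  have hdb : d ≠ b := by
    rintro rfl
    exact n32 (hpar _ _ _ _ hcb k3 (ends_sy k2))
  have hda : d ≠ a := by
    rintro rfl
    exact htri _ _ _ hab hcb.symm hca _ _ _ k1 k2 k3
  obtain ⟨e4, m4, n43, x, hxd, k4⟩ := other hC hl m3 hdc (ends_sy k3)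
  have hxc : x ≠ c := by
    rintro rfl
    exact n43 (hpar _ _ _ _ hdc k4 (ends_sy k3))
  have hxb : x ≠ b := by
    rintro rfl
    exact htri _ _ _ hcb.symm hdc.symm hdb _ _ _ k2 k3 k4
  have hxa : x ≠ a := by
    rintro rfl
    exact hquad _ _ _ _ hab hcb.symm hdc.symm hda hca.symm hdb.symm _ _ _ _ k1 k2 k3 k4
  obtain ⟨e5, m5, n54, y, hyx, k5⟩ := other hC hl m4 hxd (ends_sy k4)
  have key : ∀ {p q r z : V} {e e' : E}, Ends s t p q e → Ends s t r z e' → p ≠ r → q ≠ r →
      e ≠ e' := by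
    rintro p q r z e _ h1 h2 h3 h4 rfl
    rcases ends_inj h1 h2 with ⟨h5, _⟩ | ⟨_, h5⟩
    · exact h3 h5
    · exact h4 h5
  have n13 : e1 ≠ e3 := key k1 k3 hca.symm hcb.symm
  have n14 : e1 ≠ e4 := key k1 k4 hda.symm hdb.symm
  have n15 : e1 ≠ e5 := key k1 k5 hxa.symm hxb.symm
  have n24 : e2 ≠ e4 := key k2 k4 hdb.symm hdc.symm
  have n25 : e2 ≠ e5 := key k2 k5 hxb.symm hxc.symm
  have n35 : e3 ≠ e5 := key k3 k5 hxc.symm hxd.symm
  have hsub : ({e1, e2, e3, e4, e5} : Finset E) ⊆ C := by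
    intro e he
    simp only [mem_insert, mem_singleton] at he
    rcases he with rfl | rfl | rfl | rfl | rfl <;> assumption
  have hcard : ({e1, e2, e3, e4, e5} : Finset E).card = 5 := by
    rw [card_insert_of_notMem, card_insert_of_notMem, card_insert_of_notMem, card_pair n54.symm]
    · simp [n43.symm, n35]
    · simp [n32.symm, n24, n25]
    · simp [n21.symm, n13, n14, n15]
  rw [← hcard]
  exact card_le_card hsub

end girth

section minor
variable {V E : Type}

/-- a Petersen minor -/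
def PM (s t : E → V) : Prop :=
  ∃ B : {p : Finset (Fin 5) // p.card = 2} → Set V,
    (∀ i, (B i).Nonempty ∧ ∀ u ∈ B i, ∀ v ∈ B i, Lk s t {e | s e ∈ B i ∧ t e ∈ B i} u v) ∧
    (∀ i j, i ≠ j → Disjoint (B i) (B j)) ∧
    ∀ i j, Disjoint i.1 j.1 → ∃ e, (s e ∈ B i ∧ t e ∈ B j) ∨ (s e ∈ B j ∧ t e ∈ B i)

theorem lk_cls [Fintype E] {s t : E → V} {f : V → V} {B : Set V} {x : V} (hx : x ∈ B) {u w : V}
    (hu : f u = x) (h : Relation.ReflTransGen
      (fun x y => f x = f y ∧ ∃ e ∈ (univ : Finset E), Ends s t x y e) u w) :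
    f w = x ∧ Lk s t {e | f (s e) ∈ B ∧ f (t e) ∈ B} u w := by
  induction h with
  | refl => exact ⟨hu, Relation.ReflTransGen.refl⟩
  | @tail y z _ hyz ih =>
    obtain ⟨h1, e, _, k⟩ := hyz
    have h2 : f z = x := h1.symm.trans ih.1
    refine ⟨h2, Relation.ReflTransGen.tail ih.2 ⟨e, ?_, k⟩⟩
    rcases k with ⟨k1, k2⟩ | ⟨k1, k2⟩
    · exact ⟨by rw [k1, ih.1]; exact hx, by rw [k2, h2]; exact hx⟩
    · exact ⟨by rw [k1, h2]; exact hx, by rw [k2, ih.1]; exact hx⟩

theorem lk_lift [Fintype E] {s t : E → V} {f : V → V} (h : CC s t univ f) {B : Set V} {x y : V}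
    (hx : x ∈ B) (hxy : Lk (fun e => f (s e)) (fun e => f (t e)) {e | f (s e) ∈ B ∧ f (t e) ∈ B}
      x y) :
    y ∈ B ∧ ∀ u w, f u = x → f w = y → Lk s t {e | f (s e) ∈ B ∧ f (t e) ∈ B} u w := by
  induction hxy with
  | refl => exact ⟨hx, fun u w hu hw => (lk_cls hx hu (h u w (hu.trans hw.symm))).2⟩
  | @tail y z _ hyz ih =>
    obtain ⟨e, he, k⟩ := hyz
    have hz : z ∈ B := by
      rcases k with ⟨_, k2⟩ | ⟨k1, _⟩
      · rw [← k2]; exact he.2
      · rw [← k1]; exact he.1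
    refine ⟨hz, fun u w hu hw => ?_⟩
    rcases k with ⟨k1, k2⟩ | ⟨k1, k2⟩
    · refine Relation.ReflTransGen.trans (Relation.ReflTransGen.tail (ih.2 u (s e) hu k1)
        ⟨e, he, Or.inl ⟨rfl, rfl⟩⟩) (lk_cls hz k2 (h (t e) w (Eq.trans k2 hw.symm))).2
    · refine Relation.ReflTransGen.trans (Relation.ReflTransGen.tail (ih.2 u (t e) hu k2)
        ⟨e, he, Or.inr ⟨rfl, rfl⟩⟩) (lk_cls hz k1 (h (s e) w (Eq.trans k1 hw.symm))).2

theorem pm_quot [Fintype E] {s t : E → V} {f : V → V} (h : CC s t univ f)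
    (hp : PM (fun e => f (s e)) (fun e => f (t e))) : PM s t := by
  obtain ⟨B, h1, h2, h3⟩ := hp
  refine ⟨fun i => f ⁻¹' B i, fun i => ⟨?_, ?_⟩, ?_, ?_⟩
  · have hj : ∃ j : {p : Finset (Fin 5) // p.card = 2}, Disjoint i.1 j.1 := by
      revert i; decide
    obtain ⟨j, hj⟩ := hj
    obtain ⟨e, ⟨he, _⟩ | ⟨_, he⟩⟩ := h3 i j hj
    · exact ⟨s e, he⟩
    · exact ⟨t e, he⟩
  · intro u hu v hv
    have h4 : Lk (fun e => f (s e)) (fun e => f (t e)) {e | f (s e) ∈ B i ∧ f (t e) ∈ B i}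
      (f u) (f v) := (h1 i).2 (f u) hu (f v) hv
    exact (lk_lift (x := f u) (B := B i) h hu h4).2 u v rfl rfl
  · intro i j hij
    exact Disjoint.preimage f (h2 i j hij)
  · exact h3

theorem pm_map {V' E' : Type} {s t : E → V} {s' t' : E' → V'} (i : V' → V)
    (hi : Function.Injective i) (j : E' → E) (hs : ∀ e, s (j e) = i (s' e))
    (ht : ∀ e, t (j e) = i (t' e)) (hp : PM s' t') : PM s t := by
  obtain ⟨B, h1, h2, h3⟩ := hp
  refine ⟨fun p => i '' B p, fun p => ⟨(h1 p).1.image i, ?_⟩, ?_, ?_⟩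
  · rintro _ ⟨u, hu, rfl⟩ _ ⟨v, hv, rfl⟩
    have h4 := (h1 p).2 u hu v hv
    induction h4 with
    | refl => exact Relation.ReflTransGen.refl
    | @tail y z hy hyz ih =>
      obtain ⟨e, he, k⟩ := hyz
      have hyB : y ∈ B p := by
        rcases k with ⟨k1, _⟩ | ⟨_, k2⟩
        · rw [← k1]; exact he.1
        · rw [← k2]; exact he.2
      refine Relation.ReflTransGen.tail (ih hyB) ⟨j e, ?_, ?_⟩
      · exact ⟨by rw [hs]; exact Set.mem_image_of_mem i he.1,
          by rw [ht]; exact Set.mem_image_of_mem i he.2⟩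
      · rw [hs, ht]
        rcases k with ⟨k1, k2⟩ | ⟨k1, k2⟩
        · exact Or.inl ⟨by rw [k1], by rw [k2]⟩
        · exact Or.inr ⟨by rw [k1], by rw [k2]⟩
  · intro p q hpq
    exact Set.disjoint_image_of_injective hi (h2 p q hpq)
  · intro p q hpq
    obtain ⟨e, ⟨a, b⟩ | ⟨a, b⟩⟩ := h3 p q hpq
    · exact ⟨j e, Or.inl ⟨by rw [hs]; exact Set.mem_image_of_mem i a,
        by rw [ht]; exact Set.mem_image_of_mem i b⟩⟩
    · exact ⟨j e, Or.inr ⟨by rw [hs]; exact Set.mem_image_of_mem i a,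
        by rw [ht]; exact Set.mem_image_of_mem i b⟩⟩

end minor

section restrict
variable {V E V' E' : Type} [Fintype V] [DecidableEq V] [Fintype E] [DecidableEq E]
  [Fintype V'] [DecidableEq V'] [Fintype E'] [DecidableEq E']

theorem dg_map {s t : E → V} {s' t' : E' → V'} {i : V' → V} (hi : Function.Injective i)
    {j : E' → E} (hj : Function.Injective j) (hs : ∀ e, s (j e) = i (s' e))
    (ht : ∀ e, t (j e) = i (t' e)) (C : Finset E') (v : V') :
    dg s t (C.image j) (i v) = dg s' t' C v := by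
  unfold dg
  rw [sum_image (fun a _ b _ hab => hj hab)]
  refine sum_congr rfl fun e _ => ?_
  rw [hs, ht]
  simp only [hi.eq_iff]

theorem even_map {s t : E → V} {s' t' : E' → V'} {i : V' → V} (hi : Function.Injective i)
    {j : E' → E} (hj : Function.Injective j) (hs : ∀ e, s (j e) = i (s' e))
    (ht : ∀ e, t (j e) = i (t' e)) {C : Finset E'} (hC : ∀ v, Even (dg s' t' C v)) (v : V) :
    Even (dg s t (C.image j) v) := by
  by_cases hv : ∃ v', i v' = v
  · obtain ⟨v', rfl⟩ := hv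
    rw [dg_map hi hj hs ht]
    exact hC v'
  · have h1 : dg s t (C.image j) v = 0 := by
      apply dg_zero
      intro e he
      obtain ⟨e', _, rfl⟩ := mem_image.1 he
      rw [hs, ht]
      exact ⟨fun h => hv ⟨_, h⟩, fun h => hv ⟨_, h⟩⟩
    rw [h1]
    exact Even.zero

theorem nz_map {s t : E → V} {s' t' : E' → V'} {i : V' → V} (hi : Function.Injective i)
    {j : E' → E} (hj : Function.Injective j) (hs : ∀ e, s (j e) = i (s' e))
    (ht : ∀ e, t (j e) = i (t' e)) (hl : ∀ e, (∀ e', j e' ≠ e) → s e = t e)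
    (h : NZ s' t' univ) : NZ s t univ := by
  classical
  obtain ⟨φ, h1, h2⟩ := h
  set ψ : E → F := fun e => if h : ∃ e', j e' = e then φ h.choose else (1, 0) with hψ
  have ψj : ∀ e', ψ (j e') = φ e' := by
    intro e'
    have h3 : ∃ e'', j e'' = j e' := ⟨e', rfl⟩
    show (if h : ∃ e'', j e'' = j e' then φ h.choose else (1, 0)) = φ e'
    rw [dif_pos h3]
    exact congrArg φ (hj h3.choose_spec)
  have ψn : ∀ e, (∀ e', j e' ≠ e) → ψ e = (1, 0) := by
    intro e he
    exact dif_neg (fun ⟨e', h⟩ => he e' h)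
  refine ⟨ψ, ?_, ?_⟩
  · intro e _
    by_cases he : ∃ e', j e' = e
    · obtain ⟨e', rfl⟩ := he
      rw [ψj]
      exact h1 e' (mem_univ _)
    · push Not at he
      rw [ψn e he]
      decide
  · intro v
    unfold Cons
    rw [← sum_subset (subset_univ (univ.image j))]
    · rw [sum_image (fun a _ b _ hab => hj hab)]
      by_cases hv : ∃ v', i v' = v
      · obtain ⟨v', rfl⟩ := hv
        refine Eq.trans (sum_congr rfl fun e _ => ?_) (h2 v')
        rw [hs, ht, ψj]
        simp only [hi.eq_iff]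
      · refine sum_eq_zero fun e _ => ?_
        rw [hs, ht, if_neg (fun h => hv ⟨_, h⟩), if_neg (fun h => hv ⟨_, h⟩), add_zero]
    · intro e _ he
      have h3 : ∀ e', j e' ≠ e := fun e' h => he (mem_image.2 ⟨e', mem_univ _, h⟩)
      rw [hl e h3]
      exact dbl _

theorem cut_map {s t : E → V} {s' t' : E' → V'} {i : V' → V}
    {j : E' → E} (hj : Function.Injective j) (hs : ∀ e, s (j e) = i (s' e))
    (ht : ∀ e, t (j e) = i (t' e)) (hl : ∀ e, (∀ e', j e' ≠ e) → s e = t e) (x : V → Bool) :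
    (cut s' t' univ (fun v => x (i v))).card = (cut s t univ x).card := by
  rw [← card_image_of_injective _ hj]
  congr 1
  ext e
  simp only [cut, mem_image, mem_filter, mem_univ, true_and]
  constructor
  · rintro ⟨e', h1, rfl⟩
    rw [hs, ht]
    exact h1
  · intro h1
    by_cases he : ∃ e', j e' = e
    · obtain ⟨e', rfl⟩ := he
      rw [hs, ht] at h1
      exact ⟨e', h1, rfl⟩
    · push Not at he
      rw [hl e he] at h1
      exact absurd rfl h1

theorem n1_map {s t : E → V} {s' t' : E' → V'} {i : V' → V} (hi : Function.Injective i)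
    {j : E' → E} (hj : Function.Injective j) (hs : ∀ e, s (j e) = i (s' e))
    (ht : ∀ e, t (j e) = i (t' e)) (hl : ∀ e, (∀ e', j e' ≠ e) → s e = t e)
    (h : N1 s t univ) : N1 s' t' univ := by
  classical
  intro x hx
  set y : V → Bool := fun v => if h : ∃ v', i v' = v then x h.choose else false with hy
  have hyi : (fun v => y (i v)) = x := by
    funext v'
    have h3 : ∃ v'', i v'' = i v' := ⟨v', rfl⟩
    show (if h : ∃ v'', i v'' = i v' then x h.choose else false) = x v'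
    rw [dif_pos h3]
    exact congrArg x (hi h3.choose_spec)
  apply h y
  rw [← cut_map hj hs ht hl, hyi]
  exact hx

theorem mt_map {s t : E → V} {s' t' : E' → V'} {i : V' → V} (hi : Function.Injective i)
    {j : E' → E} (hj : Function.Injective j) (hs : ∀ e, s (j e) = i (s' e))
    (ht : ∀ e, t (j e) = i (t' e)) {X : Finset V} (h : Mt s t X) :
    ∃ X' : Finset V', X'.card ≤ X.card ∧ Mt s' t' X' := by
  refine ⟨univ.filter (fun v => i v ∈ X), ?_, ?_⟩
  · refine card_le_card_of_injOn i ?_ (fun a _ b _ hab => hi hab)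
    intro v hv
    rw [mem_coe, mem_filter] at hv
    exact hv.2
  · intro C hne hC
    obtain ⟨e, he, h1⟩ := h (C.image j) (hne.image j) (even_map hi hj hs ht hC)
    obtain ⟨e', he', rfl⟩ := mem_image.1 he
    refine ⟨e', he', ?_⟩
    rw [hs, ht] at h1
    simp only [mem_filter, mem_univ, true_and]
    rcases h1 with h1 | h1 | h1
    · exact Or.inl (hi h1)
    · exact Or.inr (Or.inl h1)
    · exact Or.inr (Or.inr h1)

end restrict

end Pool.Agent.H16.FV
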