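import Pool.Agent.H16.FV.Gd

/-!
Minimal contractions: no circuits of length at most four, no vertices of degree two.
-/

set_option autoImplicit false

namespace Pool.Agent.H16.FV

open Finset Pool.Agent.TH362.TF Pool.Agent.TH362.TF.Four Q116.FF

variable {V E : Type} [Fintype V] [DecidableEq V] [DecidableEq E]

theorem ct_root {s t : E → V} {S : Finset E} {T : Finset V} {r : V}
    (h : ∀ u ∈ T, Relation.ReflTransGen
      (fun x y => x ∈ T ∧ y ∈ T ∧ ∃ e ∈ S, Ends s t x y e) r u) : CT s t S T := by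
  have sym : ∀ {x y : V}, Relation.ReflTransGen
      (fun x y => x ∈ T ∧ y ∈ T ∧ ∃ e ∈ S, Ends s t x y e) x y → Relation.ReflTransGen
      (fun x y => x ∈ T ∧ y ∈ T ∧ ∃ e ∈ S, Ends s t x y e) y x := by
    intro x y hxy
    induction hxy with
    | refl => exact Relation.ReflTransGen.refl
    | tail _ hpq ih =>
      obtain ⟨h1, h2, e, he, k⟩ := hpq
      exact Relation.ReflTransGen.head ⟨h2, h1, e, he, ends_sy k⟩ ih
  intro u hu w hw
  exact (sym (h u hu)).trans (h w hw)

theorem Mn.par {s t : E → V} {S : Finset E} {k : ℕ} {f : V → V} (h : Mn s t S k f) {a b : V}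
    {e e' : E} (hab : a ≠ b) (he : e ∈ S) (he' : e' ∈ S)
    (k1 : Ends (fun e => f (s e)) (fun e => f (t e)) a b e)
    (k2 : Ends (fun e => f (s e)) (fun e => f (t e)) a b e') : e = e' := by
  by_contra hne
  obtain ⟨X, hX, hF⟩ := h.fb
  have hT : CT (fun e => f (s e)) (fun e => f (t e)) S {a, b} := by
    apply ct_root (r := a)
    intro u hu
    rw [mem_insert, mem_singleton] at hu
    rcases hu with rfl | rfl
    · exact Relation.ReflTransGen.refl
    · exact Relation.ReflTransGen.single ⟨by simp, by simp, e, he, k1⟩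
  refine h.no (a := a) (T := {a, b}) (by simp) hT ?_ he hab (by simp) (by simp) k1
    (digon hab he he' hne k1 k2)
  refine fb_meet hF hX (by simp) (fb_circ hF (D := {e, e'}) ?_ ⟨e, by simp⟩ ?_ ?_ ?_)
  · intro x; simp only [mem_insert, mem_singleton]; rintro (rfl | rfl) <;> assumption
  · intro x; simp only [mem_insert, mem_singleton]
    rintro (rfl | rfl)
    · exact ne_of_ends hab k1
    · exact ne_of_ends hab k2
  · intro x; simp only [mem_insert, mem_singleton]
    rintro (rfl | rfl)
    · have := ends_mem (T := {a, b}) k1 (by simp) (by simp)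
      simpa using this
    · have := ends_mem (T := {a, b}) k2 (by simp) (by simp)
      simpa using this
  · intro v
    unfold dg
    rw [sum_pair hne, dg_ends k1, dg_ends k2, ← two_mul]
    exact even_two_mul _

theorem Mn.tri {s t : E → V} {S : Finset E} {k : ℕ} {f : V → V} (h : Mn s t S k f) {a b c : V}
    {e1 e2 e3 : E} (hab : a ≠ b) (hbc : b ≠ c) (hca : c ≠ a) (h1 : e1 ∈ S) (h2 : e2 ∈ S)
    (h3 : e3 ∈ S) (k1 : Ends (fun e => f (s e)) (fun e => f (t e)) a b e1)
    (k2 : Ends (fun e => f (s e)) (fun e => f (t e)) b c e2)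
    (k3 : Ends (fun e => f (s e)) (fun e => f (t e)) c a e3) : False := by
  have n12 : e1 ≠ e2 := by
    rintro rfl
    rcases ends_inj k1 k2 with ⟨x, _⟩ | ⟨x, _⟩
    · exact hab x
    · exact hca x.symm
  have n13 : e1 ≠ e3 := by
    rintro rfl
    rcases ends_inj k1 k3 with ⟨x, _⟩ | ⟨_, x⟩
    · exact hca x.symm
    · exact hbc x
  have n23 : e2 ≠ e3 := by
    rintro rfl
    rcases ends_inj k2 k3 with ⟨x, _⟩ | ⟨x, _⟩
    · exact hbc x
    · exact hab x.symm
  obtain ⟨X, hX, hF⟩ := h.fb
  have hT : CT (fun e => f (s e)) (fun e => f (t e)) S {a, b, c} := by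
    apply ct_root (r := a)
    intro u hu
    simp only [mem_insert, mem_singleton] at hu
    rcases hu with rfl | rfl | rfl
    · exact Relation.ReflTransGen.refl
    · exact Relation.ReflTransGen.single ⟨by simp, by simp, e1, h1, k1⟩
    · exact Relation.ReflTransGen.single ⟨by simp, by simp, e3, h3, ends_sy k3⟩
  refine h.no (a := a) (T := {a, b, c}) (by simp) hT ?_ h1 hab (by simp) (by simp) k1
    (triangle hab hbc hca h1 h2 h3 k1 k2 k3)
  refine fb_meet hF hX (by simp) (fb_circ hF (D := {e1, e2, e3}) ?_ ⟨e1, by simp⟩ ?_ ?_ ?_)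
  · intro x; simp only [mem_insert, mem_singleton]; rintro (rfl | rfl | rfl) <;> assumption
  · intro x; simp only [mem_insert, mem_singleton]
    rintro (rfl | rfl | rfl)
    · exact ne_of_ends hab k1
    · exact ne_of_ends hbc k2
    · exact ne_of_ends hca k3
  · intro x; simp only [mem_insert, mem_singleton]
    rintro (rfl | rfl | rfl)
    · have := ends_mem (T := {a, b, c}) k1 (by simp) (by simp)
      simpa using this
    · have := ends_mem (T := {a, b, c}) k2 (by simp) (by simp)
      simpa using this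
    · have := ends_mem (T := {a, b, c}) k3 (by simp) (by simp)
      simpa using this
  · intro v
    unfold dg
    rw [sum_insert (by simp [n12, n13]), sum_pair n23, dg_ends k1, dg_ends k2, dg_ends k3]
    refine ⟨(if a = v then 1 else 0) + (if b = v then 1 else 0) + (if c = v then 1 else 0), ?_⟩
    ring

theorem Mn.quad {s t : E → V} {S : Finset E} {k : ℕ} {f : V → V} (h : Mn s t S k f)
    {a b c d : V} {e1 e2 e3 e4 : E} (hab : a ≠ b) (hbc : b ≠ c) (hcd : c ≠ d) (hda : d ≠ a)
    (hac : a ≠ c) (hbd : b ≠ d) (h1 : e1 ∈ S) (h2 : e2 ∈ S)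
    (h3 : e3 ∈ S) (h4 : e4 ∈ S) (k1 : Ends (fun e => f (s e)) (fun e => f (t e)) a b e1)
    (k2 : Ends (fun e => f (s e)) (fun e => f (t e)) b c e2)
    (k3 : Ends (fun e => f (s e)) (fun e => f (t e)) c d e3)
    (k4 : Ends (fun e => f (s e)) (fun e => f (t e)) d a e4) : False := by
  have n12 : e1 ≠ e2 := by
    rintro rfl
    rcases ends_inj k1 k2 with ⟨x, _⟩ | ⟨x, _⟩
    · exact hab x
    · exact hac x
  have n13 : e1 ≠ e3 := by
    rintro rfl
    rcases ends_inj k1 k3 with ⟨x, _⟩ | ⟨x, _⟩
    · exact hac x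
    · exact hda x.symm
  have n14 : e1 ≠ e4 := by
    rintro rfl
    rcases ends_inj k1 k4 with ⟨x, _⟩ | ⟨_, x⟩
    · exact hda x.symm
    · exact hbd x
  have n23 : e2 ≠ e3 := by
    rintro rfl
    rcases ends_inj k2 k3 with ⟨x, _⟩ | ⟨x, _⟩
    · exact hbc x
    · exact hbd x
  have n24 : e2 ≠ e4 := by
    rintro rfl
    rcases ends_inj k2 k4 with ⟨x, _⟩ | ⟨x, _⟩
    · exact hbd x
    · exact hab x.symm
  have n34 : e3 ≠ e4 := by
    rintro rfl
    rcases ends_inj k3 k4 with ⟨x, _⟩ | ⟨x, _⟩
    · exact hcd x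
    · exact hac x.symm
  obtain ⟨X, hX, hF⟩ := h.fb
  have hT : CT (fun e => f (s e)) (fun e => f (t e)) S {a, b, c, d} := by
    apply ct_root (r := a)
    intro u hu
    simp only [mem_insert, mem_singleton] at hu
    rcases hu with rfl | rfl | rfl | rfl
    · exact Relation.ReflTransGen.refl
    · exact Relation.ReflTransGen.single ⟨by simp, by simp, e1, h1, k1⟩
    · exact (Relation.ReflTransGen.single ⟨by simp, by simp, e1, h1, k1⟩).tail
        ⟨by simp, by simp, e2, h2, k2⟩
    · exact Relation.ReflTransGen.single ⟨by simp, by simp, e4, h4, ends_sy k4⟩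
  refine h.no (a := a) (T := {a, b, c, d}) (by simp) hT ?_ h1 hab (by simp) (by simp) k1
    (Q116.FF.quad hab hbc hcd hda hac hbd h1 h2 h3 h4 k1 k2 k3 k4)
  refine fb_meet hF hX (by simp) (fb_circ hF (D := {e1, e2, e3, e4}) ?_ ⟨e1, by simp⟩ ?_ ?_ ?_)
  · intro x; simp only [mem_insert, mem_singleton]; rintro (rfl | rfl | rfl | rfl) <;> assumption
  · intro x; simp only [mem_insert, mem_singleton]
    rintro (rfl | rfl | rfl | rfl)
    · exact ne_of_ends hab k1
    · exact ne_of_ends hbc k2
    · exact ne_of_ends hcd k3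
    · exact ne_of_ends hda k4
  · intro x; simp only [mem_insert, mem_singleton]
    rintro (rfl | rfl | rfl | rfl)
    · have := ends_mem (T := {a, b, c, d}) k1 (by simp) (by simp)
      simpa using this
    · have := ends_mem (T := {a, b, c, d}) k2 (by simp) (by simp)
      simpa using this
    · have := ends_mem (T := {a, b, c, d}) k3 (by simp) (by simp)
      simpa using this
    · have := ends_mem (T := {a, b, c, d}) k4 (by simp) (by simp)
      simpa using this
  · intro v
    unfold dg
    rw [sum_insert (by simp [n12, n13, n14]), sum_insert (by simp [n23, n24]), sum_pair n34,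
      dg_ends k1, dg_ends k2, dg_ends k3, dg_ends k4]
    refine ⟨(if a = v then 1 else 0) + (if b = v then 1 else 0) + (if c = v then 1 else 0) +
      (if d = v then 1 else 0), ?_⟩
    ring

theorem Mn.deg2 {s t : E → V} {S : Finset E} {k : ℕ} {f : V → V} (h : Mn s t S k f) (v : V) :
    (cut (fun e => f (s e)) (fun e => f (t e)) S (fun x => decide (x = v))).card ≠ 2 := by
  intro hv
  obtain ⟨X, hX, hF⟩ := h.fb
  obtain ⟨e1, e2, hne, hcut⟩ := card_eq_two.1 hv
  have hm : e1 ∈ cut (fun e => f (s e)) (fun e => f (t e)) S (fun x => decide (x = v)) := by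
    rw [hcut]; simp
  obtain ⟨m1, m2, m3⟩ := cut_ends.1 hm
  set u := oth (fun e => f (s e)) (fun e => f (t e)) v e1 with hu
  have hT : CT (fun e => f (s e)) (fun e => f (t e)) S {u, v} := by
    apply ct_root (r := u)
    intro x hx
    rw [mem_insert, mem_singleton] at hx
    rcases hx with hx | hx
    · rw [hx]
    · rw [hx]
      exact Relation.ReflTransGen.single ⟨by simp, by simp, e1, m1, ends_sy m3⟩
  refine h.no (a := u) (T := {u, v}) (by simp) hT ?_ m1 m2 (by simp) (by simp) (ends_sy m3)
    (deg_two m2 m3 hne hcut)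
  by_cases hTX : (({u, v} : Finset V) ∩ X).Nonempty
  · exact fb_meet hF hX (by simp) hTX
  · rw [not_nonempty_iff_eq_empty] at hTX
    have hno : ∀ x ∈ ({u, v} : Finset V), x ∉ X := fun x h1 h2 => by
      have : x ∈ ({u, v} : Finset V) ∩ X := mem_inter.2 ⟨h1, h2⟩
      rw [hTX] at this
      simp at this
    exact ⟨X, hX, (fbq V E _ _ S X hF).2 u v e1 m2 (hno u (by simp)) (hno v (by simp)) m1
      (ends_sy m3)⟩

end Pool.Agent.H16.FV
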